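import Mathlib

/-!
# Simple random walks on undirected Cayley graphs: mixing time, spectral gap, cutoff

The notions used in the question on the product condition and cutoff.
-/

open Finset Filter Topology

namespace Pool.Agent.Lib_helper80.Cutoff

section Chains

variable {V : Type*} [Fintype V] [DecidableEq V]

/-- total variation distance -/
noncomputable def tv (μ ν : V → ℝ) : ℝ := (∑ y, |μ y - ν y|) / 2

/-- `d(t) = max_x ‖P^t(x,·) - U‖_TV`, with `U` the uniform distribution. -/
noncomputable def distUnif (P : Matrix V V ℝ) (t : ℕ) : ℝ :=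
  ⨆ x : V, tv ((P ^ t) x) (fun _ => 1 / (Fintype.card V : ℝ))

/-- `t_mix(ε) = min {t : d(t) ≤ ε}`. -/
noncomputable def tmix (P : Matrix V V ℝ) (ε : ℝ) : ℕ := sInf {t : ℕ | distUnif P t ≤ ε}

/-- The second largest eigenvalue `λ₂` of `P`, eigenvalues being listed in decreasing order and
with multiplicity (they are the roots of the characteristic polynomial). -/
noncomputable def lambda2 (P : Matrix V V ℝ) : ℝ := (P.charpoly.roots.sort (· ≥ ·)).getD 1 0

/-- The spectral gap `1 - λ₂`. -/
noncomputable def gap (P : Matrix V V ℝ) : ℝ := 1 - lambda2 P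

/-- Irreducibility: every state can be reached from every state. -/
def Irred (P : Matrix V V ℝ) : Prop := ∀ x y, ∃ t : ℕ, 0 < (P ^ t) x y

/-- Aperiodicity: for every state the gcd of the possible return times is one. -/
def Aper (P : Matrix V V ℝ) : Prop :=
  ∀ x, ∀ d : ℕ, (∀ t : ℕ, 0 < (P ^ t) x x → d ∣ t) → d = 1

end Chains

section Cayley

variable {G : Type*} [Group G] [Fintype G] [DecidableEq G]

/-- The number of edges joining `x` and `y` in the undirected Cayley multigraph `G(Z)`: there is
one edge `{g, g z}` for each pair `(g, z)` with `g ∈ G`, `z ∈ Z`. -/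
def edgeCount (Z : Finset G) (x y : G) : ℕ :=
  ((univ ×ˢ Z).filter fun p : G × G => s(p.1, p.1 * p.2) = s(x, y)).card

/-- The transition matrix of the simple random walk on `G(Z)`: from `x` the walk moves to `y` with
probability (number of edges joining `x` and `y`) / (number of edges at `x`). -/
noncomputable def srw (Z : Finset G) : Matrix G G ℝ :=
  fun x y => (edgeCount Z x y : ℝ) / ∑ w, (edgeCount Z x w : ℝ)

end Cayley

section Sequences

/-- The product condition for a sequence of chains: `t_mix(1/4) * gap → ∞`. -/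
def ProductCondition (G : ℕ → Type) [∀ N, Fintype (G N)] [∀ N, DecidableEq (G N)]
    (P : ∀ N, Matrix (G N) (G N) ℝ) : Prop :=
  Tendsto (fun N => (tmix (P N) (1 / 4) : ℝ) * gap (P N)) atTop atTop

/-- Cutoff for a sequence of chains: `t_mix(ε) / t_mix(1 - ε) → 1` for every `ε ∈ (0, 1)`. -/
def Cutoff (G : ℕ → Type) [∀ N, Fintype (G N)] [∀ N, DecidableEq (G N)]
    (P : ∀ N, Matrix (G N) (G N) ℝ) : Prop :=
  ∀ ε : ℝ, 0 < ε → ε < 1 →
    Tendsto (fun N => (tmix (P N) ε : ℝ) / (tmix (P N) (1 - ε) : ℝ)) atTop (𝓝 1)

end Sequences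

end Pool.Agent.Lib_helper80.Cutoff
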