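import Mathlib
import Pool.Agent.Lib_helper80.CutoffDefs

/-!
# The product condition does not imply cutoff for walks on abelian Cayley graphs

We build finite abelian groups `G_N` (of exponent two) and subsets `Z_N` such that the simple
random walks on the undirected Cayley graphs `G_N(Z_N)` satisfy the product condition
`t_mix * gap → ∞` but do not exhibit cutoff.

Idea of the construction. Let `F` be the field with `q = L^2` elements, `L = 2^(N+6)`, `m = q/2`,
`A = F^m`, and let `S = {a (1, b, ..., b^(m-1)) : a ≠ 0, b ∈ F}`.  A nontrivial character of `A` is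
trivial on at most `m - 1` of the lines `F (1, b, ..., b^(m-1))` (Vandermonde), so the walk on `A`
generated by `S` has spectral gap at least `1/2`; but `t` steps of it reach at most `|S|^t` points,
which is negligible compared with `|A| = q^m` when `2 t < m`.  Let `H` be an elementary abelian
two-group with `|H| = q^(m-2) L`, let `h0 ≠ 0` in `H` and
`Z = (S × H) ∪ (A × {h0}) ⊆ A × H`.
A step of the walk generated by `Z` is, with probability `ε = |A|/|Z| ∈ [1/(L+1), 1/L]`, a step that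
makes the `A`-coordinate uniform at once, and otherwise essentially a step of the walk on `A`
generated by `S`.  One gets
`(1 - ε)^t - |S|^t/|A| ≤ d(t) ≤ (1 - ε)^t + ε^t` and `gap ≥ 1/2`,
so that `d(t)` decays like `exp(- t / L)` on the scale `L → ∞`: product condition, but no cutoff.
-/

set_option linter.unusedSectionVars false

open Finset Filter Topology
open scoped Kronecker

namespace Pool.Agent.Lib_helper80.Cutoff

section General

variable {V : Type*} [Fintype V] [DecidableEq V]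

/-- row stochastic -/
def Stoch (P : Matrix V V ℝ) : Prop := (∀ x y, 0 ≤ P x y) ∧ ∀ x, ∑ y, P x y = 1

theorem Stoch.mul {P Q : Matrix V V ℝ} (hP : Stoch P) (hQ : Stoch Q) : Stoch (P * Q) := by
  constructor
  · intro x y
    rw [Matrix.mul_apply]
    exact Finset.sum_nonneg fun z _ => mul_nonneg (hP.1 _ _) (hQ.1 _ _)
  · intro x
    simp_rw [Matrix.mul_apply]
    rw [Finset.sum_comm]
    simp_rw [← Finset.mul_sum, hQ.2, mul_one, hP.2]

theorem Stoch.pow {P : Matrix V V ℝ} (hP : Stoch P) (t : ℕ) : Stoch (P ^ t) := by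
  induction t with
  | zero =>
    constructor
    · intro x y
      simp only [pow_zero, Matrix.one_apply]
      split_ifs <;> norm_num
    · intro x
      simp [Matrix.one_apply]
  | succ t ih => rw [pow_succ]; exact ih.mul hP

theorem tv_lower (μ : V → ℝ) (hμ : ∑ y, μ y = 1) (hV : 0 < Fintype.card V) (D : Finset V) :
    ∑ y ∈ D, μ y - D.card / (Fintype.card V : ℝ) ≤ tv μ (fun _ => 1 / (Fintype.card V : ℝ)) := by
  have hVr : (0 : ℝ) < Fintype.card V := by exact_mod_cast hV
  set u : ℝ := 1 / (Fintype.card V : ℝ) with hu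
  have h1 : ∑ y ∈ D, (μ y - u) = ∑ y ∈ D, μ y - D.card / (Fintype.card V : ℝ) := by
    rw [Finset.sum_sub_distrib]
    simp [hu, div_eq_mul_inv]
  have h2 : ∑ y ∈ D, (μ y - u) + ∑ y ∈ Dᶜ, (μ y - u) = 0 := by
    rw [Finset.sum_add_sum_compl, Finset.sum_sub_distrib, hμ]
    simp [hu, hVr.ne']
  have h3 : ∑ y ∈ D, |μ y - u| + ∑ y ∈ Dᶜ, |μ y - u| = ∑ y, |μ y - u| :=
    Finset.sum_add_sum_compl _ _
  have h4 : ∑ y ∈ D, (μ y - u) ≤ ∑ y ∈ D, |μ y - u| := Finset.sum_le_sum fun _ _ => le_abs_self _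
  have h5 : -∑ y ∈ Dᶜ, (μ y - u) ≤ ∑ y ∈ Dᶜ, |μ y - u| := by
    rw [← Finset.sum_neg_distrib]
    exact Finset.sum_le_sum fun _ _ => neg_le_abs _
  unfold tv
  linarith

theorem stay_lower {P : Matrix V V ℝ} (hP : Stoch P) (D : ℕ → Finset V) (x0 : V) (h0 : x0 ∈ D 0)
    (c : ℝ) (hc : 0 ≤ c) (h : ∀ t, ∀ x ∈ D t, c ≤ ∑ y ∈ D (t + 1), P x y) (t : ℕ) :
    c ^ t ≤ ∑ y ∈ D t, (P ^ t) x0 y := by
  induction t with
  | zero =>
    simp only [pow_zero, Matrix.one_apply]
    rw [Finset.sum_ite_eq]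
    simp [h0]
  | succ t ih =>
    rw [pow_succ, pow_succ]
    simp_rw [Matrix.mul_apply]
    rw [Finset.sum_comm]
    simp_rw [← Finset.mul_sum]
    calc c ^ t * c ≤ (∑ y ∈ D t, (P ^ t) x0 y) * c := mul_le_mul_of_nonneg_right ih hc
      _ = ∑ y ∈ D t, (P ^ t) x0 y * c := by rw [Finset.sum_mul]
      _ ≤ ∑ y ∈ D t, (P ^ t) x0 y * ∑ z ∈ D (t + 1), P y z := by
          apply Finset.sum_le_sum
          intro y hy
          exact mul_le_mul_of_nonneg_left (h t y hy) ((hP.pow t).1 _ _)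
      _ ≤ ∑ y, (P ^ t) x0 y * ∑ z ∈ D (t + 1), P y z := by
          apply Finset.sum_le_sum_of_subset_of_nonneg (Finset.subset_univ _)
          intro y _ _
          exact mul_nonneg ((hP.pow t).1 _ _) (Finset.sum_nonneg fun z _ => hP.1 _ _)

/-- absolute row sums bounded by `a` -/
def RowLe (M : Matrix V V ℝ) (a : ℝ) : Prop := ∀ x, ∑ y, |M x y| ≤ a

theorem Stoch.rowLe {P : Matrix V V ℝ} (hP : Stoch P) : RowLe P 1 := by
  intro x
  simp_rw [abs_of_nonneg (hP.1 x _)]
  exact (hP.2 x).le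

theorem RowLe.add {M N : Matrix V V ℝ} {a b : ℝ} (hM : RowLe M a) (hN : RowLe N b) :
    RowLe (M + N) (a + b) := by
  intro x
  calc ∑ y, |(M + N) x y| ≤ ∑ y, (|M x y| + |N x y|) := 
        Finset.sum_le_sum fun y _ => by rw [Matrix.add_apply]; exact abs_add_le _ _
    _ ≤ a + b := by rw [Finset.sum_add_distrib]; exact add_le_add (hM x) (hN x)

theorem RowLe.sub {M N : Matrix V V ℝ} {a b : ℝ} (hM : RowLe M a) (hN : RowLe N b) :
    RowLe (M - N) (a + b) := by
  intro x
  calc ∑ y, |(M - N) x y| ≤ ∑ y, (|M x y| + |N x y|) := 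
        Finset.sum_le_sum fun y _ => by rw [Matrix.sub_apply]; exact abs_sub _ _
    _ ≤ a + b := by rw [Finset.sum_add_distrib]; exact add_le_add (hM x) (hN x)

theorem RowLe.smul {M : Matrix V V ℝ} {a : ℝ} (hM : RowLe M a) {c : ℝ} (hc : 0 ≤ c) :
    RowLe (c • M) (c * a) := by
  intro x
  simp only [Matrix.smul_apply, smul_eq_mul, abs_mul, abs_of_nonneg hc]
  rw [← Finset.mul_sum]
  exact mul_le_mul_of_nonneg_left (hM x) hc

theorem RowLe.mul {M N : Matrix V V ℝ} {a b : ℝ} (hM : RowLe M a) (hN : RowLe N b) (hb : 0 ≤ b) :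
    RowLe (M * N) (a * b) := by
  intro x
  calc ∑ y, |(M * N) x y| ≤ ∑ y, ∑ z, |M x z| * |N z y| := by
        apply Finset.sum_le_sum
        intro y _
        rw [Matrix.mul_apply]
        refine (Finset.abs_sum_le_sum_abs _ _).trans ?_
        simp_rw [abs_mul]; exact le_rfl
    _ = ∑ z, |M x z| * ∑ y, |N z y| := by
        rw [Finset.sum_comm]; simp_rw [Finset.mul_sum]
    _ ≤ ∑ z, |M x z| * b := Finset.sum_le_sum fun z _ => 
        mul_le_mul_of_nonneg_left (hN z) (abs_nonneg _)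
    _ ≤ a * b := by rw [← Finset.sum_mul]; exact mul_le_mul_of_nonneg_right (hM x) hb

theorem RowLe.pow {M : Matrix V V ℝ} {a : ℝ} (hM : RowLe M a) (ha : 0 ≤ a) (t : ℕ) :
    RowLe (M ^ t) (a ^ t) := by
  induction t with
  | zero => 
    intro x
    simp [Matrix.one_apply, apply_ite abs]
  | succ t ih => 
    rw [pow_succ, pow_succ]
    exact ih.mul hM ha

theorem RowLe.kron {W : Type*} [Fintype W] [DecidableEq W] {M : Matrix V V ℝ} {N : Matrix W W ℝ}
    {a b : ℝ} (hM : RowLe M a) (hN : RowLe N b) (hb : 0 ≤ b) :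
    RowLe (M ⊗ₖ N) (a * b) := by
  rintro ⟨x, w⟩
  rw [Fintype.sum_prod_type]
  simp only [Matrix.kroneckerMap_apply, abs_mul]
  calc ∑ y, ∑ z, |M x y| * |N w z| = ∑ y, |M x y| * ∑ z, |N w z| := by simp_rw [Finset.mul_sum]
    _ ≤ ∑ y, |M x y| * b := Finset.sum_le_sum fun z _ => 
        mul_le_mul_of_nonneg_left (hN w) (abs_nonneg _)
    _ ≤ a * b := by rw [← Finset.sum_mul]; exact mul_le_mul_of_nonneg_right (hM x) hb

/-- uniform matrix -/
noncomputable def JJ (V : Type*) [Fintype V] : Matrix V V ℝ := fun _ _ => 1 / (Fintype.card V : ℝ)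

theorem JJ_stoch [Nonempty V] : Stoch (JJ V) := by
  constructor
  · intro x y; unfold JJ; positivity
  · intro x
    simp [JJ]

theorem tv_eq (P : Matrix V V ℝ) (x : V) {a : ℝ} (h : RowLe (P - JJ V) (2 * a)) :
    tv (P x) (fun _ => 1 / (Fintype.card V : ℝ)) ≤ a := by
  have := h x
  unfold tv
  simp only [Matrix.sub_apply, JJ] at this
  linarith

theorem stoch_mul_JJ {P : Matrix V V ℝ} (hP : Stoch P) : P * JJ V = JJ V := by
  ext x y
  rw [Matrix.mul_apply]
  simp only [JJ]
  rw [← Finset.sum_mul, hP.2, one_mul]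


theorem lambda2_le (P : Matrix V V ℝ) (hP : P.IsHermitian) (hcard : 1 < Fintype.card V) (c : ℝ)
    (h : ∀ (l : ℝ) (v : V → ℝ), c < l → P.mulVec v = l • v → ∀ x y, v x = v y) :
    lambda2 P ≤ c := by
  have h1 : P.charpoly.roots.sort (· ≥ ·) = List.ofFn hP.eigenvalues₀ := by
    have := hP.sort_roots_charpoly_eq_eigenvalues₀
    simpa using this
  have h2 : lambda2 P = hP.eigenvalues₀ ⟨1, hcard⟩ := by
    unfold lambda2
    rw [h1]
    simp [List.getD, hcard]
  rw [h2]
  by_contra hlt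
  push Not at hlt
  have h3 : c < hP.eigenvalues₀ ⟨0, by omega⟩ := 
    lt_of_lt_of_le hlt (hP.eigenvalues₀_antitone (by simp [Fin.le_def]))
  set e := (Fintype.equivOfCardEq (Fintype.card_fin _) : Fin (Fintype.card V) ≃ V) with he
  have hev : ∀ i : Fin (Fintype.card V), hP.eigenvalues (e i) = hP.eigenvalues₀ i := by
    intro i
    simp [Matrix.IsHermitian.eigenvalues, he]
  have hconst : ∀ i : Fin (Fintype.card V), c < hP.eigenvalues₀ i →
      ∀ x y, (hP.eigenvectorBasis (e i)).ofLp x = (hP.eigenvectorBasis (e i)).ofLp y := by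
    intro i hi
    apply h (hP.eigenvalues₀ i) _ hi
    have := hP.mulVec_eigenvectorBasis (e i)
    rw [hev] at this
    exact this
  set i0 : Fin (Fintype.card V) := ⟨0, by omega⟩
  set i1 : Fin (Fintype.card V) := ⟨1, hcard⟩
  have c0 := hconst i0 h3
  have c1 := hconst i1 hlt
  have hne : e i0 ≠ e i1 := by
    intro hh
    have := e.injective hh
    simp [i0, i1] at this
  have horth : inner ℝ (hP.eigenvectorBasis (e i0)) (hP.eigenvectorBasis (e i1)) = 0 :=
    hP.eigenvectorBasis.orthonormal.2 hne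
  have hn0 : hP.eigenvectorBasis (e i0) ≠ 0 := hP.eigenvectorBasis.orthonormal.ne_zero _
  have hn1 : hP.eigenvectorBasis (e i1) ≠ 0 := hP.eigenvectorBasis.orthonormal.ne_zero _
  have x0 : V := e i0
  have a0 : (hP.eigenvectorBasis (e i0)).ofLp x0 ≠ 0 := by
    intro h0
    apply hn0
    ext y
    rw [c0 y x0, h0]; rfl
  have a1 : (hP.eigenvectorBasis (e i1)).ofLp x0 ≠ 0 := by
    intro h0
    apply hn1
    ext y
    rw [c1 y x0, h0]; rfl
  have hsum : inner ℝ (hP.eigenvectorBasis (e i0)) (hP.eigenvectorBasis (e i1)) = 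
     (Fintype.card V : ℝ) * ((hP.eigenvectorBasis (e i1)).ofLp x0 * (hP.eigenvectorBasis (e i0)).ofLp x0) := by
    rw [PiLp.inner_apply]
    simp only [RCLike.inner_apply, conj_trivial]
    rw [Finset.sum_congr rfl (g := fun _ => ((hP.eigenvectorBasis (e i1)).ofLp x0 * (hP.eigenvectorBasis (e i0)).ofLp x0))]
    · simp
    · intro y _
      rw [c0 y x0, c1 y x0]
  rw [hsum] at horth
  have hc : (Fintype.card V : ℝ) ≠ 0 := by positivity
  exact (mul_ne_zero hc (mul_ne_zero a1 a0)) horth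

end General

section Char

variable {V : Type*} [AddCommGroup V] [Fintype V] [DecidableEq V]

/-- additive convolution matrix -/
noncomputable def PM (Z : Finset V) : Matrix V V ℝ := fun x y => if x + y ∈ Z then (Z.card : ℝ)⁻¹ else 0

theorem PM_row (Z : Finset V) (x : V) (D : Finset V) :
    ∑ y ∈ D, PM Z x y = ((D.filter fun y => x + y ∈ Z).card : ℝ) / Z.card := by
  simp only [PM]
  rw [← Finset.sum_filter]
  simp [div_eq_mul_inv]

theorem PM_stoch (Z : Finset V) (hZ : Z.Nonempty) : Stoch (PM Z) := by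
  constructor
  · intro x y
    unfold PM
    split_ifs
    · positivity
    · exact le_rfl
  · intro x
    rw [PM_row]
    have : (univ.filter fun y => x + y ∈ Z).card = Z.card := by
      apply Finset.card_bij (fun y _ => x + y)
      · intro y hy; simpa using hy
      · intro a _ b _ h; exact add_left_cancel h
      · intro z hz; exact ⟨-x + z, by simpa using hz, by simp⟩
    rw [this]
    have : (0 : ℝ) < Z.card := by exact_mod_cast Finset.card_pos.mpr hZ
    field_simp

theorem JJ_mul_PM (Z : Finset V) (hZ : Z.Nonempty) : JJ V * PM Z = JJ V := by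
  have h := stoch_mul_JJ (PM_stoch Z hZ)
  have h2 : (PM Z).transpose = PM Z := by ext x y; simp [PM, add_comm]
  have h3 : (JJ V).transpose = JJ V := by ext x y; simp [JJ]
  calc JJ V * PM Z = (JJ V).transpose * (PM Z).transpose := by rw [h2, h3]
    _ = (PM Z * JJ V).transpose := by rw [Matrix.transpose_mul]
    _ = JJ V := by rw [h, h3]

theorem PM_isHermitian (Z : Finset V) : (PM Z).IsHermitian := by
  ext x y
  simp [PM, add_comm]

theorem PM_mulVec (hV : ∀ x : V, x + x = 0) (Z : Finset V) (w : V → ℝ) (x : V) :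
    (PM Z).mulVec w x = (Z.card : ℝ)⁻¹ * ∑ z ∈ Z, w (x + z) := by
  have hneg : ∀ x : V, -x = x := fun x => neg_eq_of_add_eq_zero_left (hV x)
  simp only [Matrix.mulVec, dotProduct, PM]
  rw [← Equiv.sum_comp (Equiv.addLeft x)]
  have : ∀ z : V, x + (x + z) = z := by intro z; rw [← add_assoc, hV, zero_add]
  simp only [Equiv.coe_addLeft, this, ite_mul, zero_mul]
  rw [← Finset.sum_filter]
  simp [Finset.mul_sum]

theorem lambda2_PM_le (hV : ∀ x : V, x + x = 0) (Z : Finset V) (hcard : 1 < Fintype.card V)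
    (hZ : Z.Nonempty)
    (hchar : ∀ χ : AddChar V ℂ, χ ≠ 0 → ‖∑ z ∈ Z, χ z‖ ≤ (Z.card : ℝ) / 2) :
    lambda2 (PM Z) ≤ 1 / 2 := by
  have hZc : (0 : ℝ) < Z.card := by exact_mod_cast Finset.card_pos.mpr hZ
  apply lambda2_le _ (PM_isHermitian Z) hcard
  intro l v hl hv
  set w : V → ℂ := fun x => (v x : ℂ) with hw
  -- eigen equation in ℂ
  have heig : ∀ x, ∑ z ∈ Z, w (x + z) = (Z.card : ℂ) * l * w x := by
    intro x
    have := congrFun hv x
    rw [PM_mulVec hV] at this
    simp only [Pi.smul_apply, smul_eq_mul] at this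
    have h2 : ∑ z ∈ Z, v (x + z) = Z.card * l * v x := by
      field_simp at this
      linarith
    simp only [hw]
    exact_mod_cast h2
  set b := AddChar.complexBasis V
  set cf := b.repr w with hcf
  have hrepr : ∀ x, w x = ∑ χ : AddChar V ℂ, cf χ * χ x := by
    intro x
    have := congrFun (b.sum_repr w) x
    rw [← this]
    simp [b, cf]
  -- coefficients
  have key : ∀ χ : AddChar V ℂ, cf χ * ((∑ z ∈ Z, χ z) - (Z.card : ℂ) * l) = 0 := by
    have hli := AddChar.linearIndependent V ℂ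
    rw [Fintype.linearIndependent_iff] at hli
    apply hli
    ext x
    have h1 := heig x
    simp_rw [hrepr] at h1
    rw [Finset.sum_comm] at h1
    have h2 : ∑ χ : AddChar V ℂ, cf χ * ((∑ z ∈ Z, χ z) - (Z.card : ℂ) * l) * χ x = 0 := by
      have : ∀ χ : AddChar V ℂ, cf χ * ((∑ z ∈ Z, χ z) - (Z.card : ℂ) * l) * χ x
          = (∑ z ∈ Z, cf χ * χ (x + z)) - (Z.card : ℂ) * l * (cf χ * χ x) := by
        intro χ
        simp_rw [AddChar.map_add_eq_mul]
        have : ∑ z ∈ Z, cf χ * (χ x * χ z) = cf χ * χ x * ∑ z ∈ Z, χ z := by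
          rw [Finset.mul_sum]
          apply Finset.sum_congr rfl
          intros; ring
        rw [this]
        ring
      simp_rw [this]
      rw [Finset.sum_sub_distrib, h1, Finset.mul_sum]
      ring
    simpa [Finset.sum_apply] using h2
  have hzero : ∀ χ : AddChar V ℂ, χ ≠ 0 → cf χ = 0 := by
    intro χ hχ
    rcases mul_eq_zero.mp (key χ) with h | h
    · exact h
    · exfalso
      have h1 : ∑ z ∈ Z, χ z = (Z.card : ℂ) * l := sub_eq_zero.mp h
      have h2 := hchar χ hχ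
      rw [h1] at h2
      have h3 : ‖((Z.card : ℂ) * l)‖ = Z.card * |l| := by
        simp
      rw [h3] at h2
      have h4 : l ≤ |l| := le_abs_self l
      nlinarith
  intro x y
  have hx : ∀ x, w x = cf 0 := by
    intro x
    rw [hrepr, Finset.sum_eq_single (0 : AddChar V ℂ)]
    · simp
    · intro χ _ hχ
      rw [hzero χ hχ, zero_mul]
    · simp
  have : w x = w y := by rw [hx, hx]
  simpa [hw] using this

end Char

section RS

variable {F : Type*} [Field F] [Fintype F] [DecidableEq F] {m : ℕ}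

/-- the moment curve -/
def mom (m : ℕ) (b : F) : Fin m → F := fun i => b ^ (i : ℕ)

/-- Reed-Solomon type generating set -/
def RS (F : Type*) [Field F] [Fintype F] [DecidableEq F] (m : ℕ) : Finset (Fin m → F) :=
  ((univ.filter fun a : F => a ≠ 0) ×ˢ (univ : Finset F)).image fun p => p.1 • mom m p.2

theorem RS_inj (hm : 2 ≤ m) : Set.InjOn (fun p : F × F => p.1 • mom m p.2)
    ((univ.filter fun a : F => a ≠ 0) ×ˢ (univ : Finset F) : Finset (F × F)) := by
  rintro ⟨a, b⟩ h1 ⟨a', b'⟩ h2 h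
  simp only [coe_product, coe_filter, mem_univ, true_and, coe_univ, Set.mem_prod, Set.mem_ofPred_eq,
    Set.mem_univ, and_true] at h1 h2
  have e0 := congrFun h ⟨0, by omega⟩
  have e1 := congrFun h ⟨1, by omega⟩
  simp only [mom, Pi.smul_apply, pow_zero, smul_eq_mul, mul_one, pow_one] at e0 e1
  subst e0
  have := mul_left_cancel₀ h1 e1
  rw [this]

theorem RS_card (hm : 2 ≤ m) :
    (RS F m).card = (Fintype.card F - 1) * Fintype.card F := by
  rw [RS, Finset.card_image_of_injOn (RS_inj hm), Finset.card_product, Finset.card_univ]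
  congr 1
  rw [Finset.filter_ne' univ (0 : F), Finset.card_erase_of_mem (mem_univ _), Finset.card_univ]

theorem zero_notMem_RS (hm : 2 ≤ m) : (0 : Fin m → F) ∉ RS F m := by
  simp only [RS, mem_image, mem_product, mem_filter, mem_univ, true_and, and_true, Prod.exists,
    not_exists, not_and]
  intro a b ha h
  have e0 := congrFun h ⟨0, by omega⟩
  simp [mom] at e0
  exact ha e0

theorem span_of_many (R : Finset F) (hR : m ≤ R.card) (x : Fin m → F) :
    ∃ (b : Fin m → F) (a : Fin m → F), (∀ i, b i ∈ R) ∧ x = ∑ i, a i • mom m (b i) := by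
  obtain ⟨T, hTR, hT⟩ := Finset.exists_subset_card_eq hR
  let e := (T.equivFinOfCardEq hT).symm
  let b : Fin m → F := fun i => (e i : F)
  have hinj : Function.Injective b := by
    intro i j hij
    exact e.injective (Subtype.ext hij)
  have hdet : (Matrix.vandermonde b).det ≠ 0 := Matrix.det_vandermonde_ne_zero_iff.mpr hinj
  have hunit : IsUnit (Matrix.vandermonde b).det := isUnit_iff_ne_zero.mpr hdet
  refine ⟨b, Matrix.vecMul x (Matrix.vandermonde b)⁻¹, fun i => hTR (e i).2, ?_⟩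
  have h1 : Matrix.vecMul (Matrix.vecMul x (Matrix.vandermonde b)⁻¹) (Matrix.vandermonde b) = x := by
    rw [Matrix.vecMul_vecMul, Matrix.nonsing_inv_mul _ hunit, Matrix.vecMul_one]
  conv_lhs => rw [← h1]
  ext j
  simp [Matrix.vecMul, dotProduct, mom, Matrix.vandermonde_apply]

theorem RS_char_sum (hm : 2 ≤ m) (hmq : 2 * m ≤ Fintype.card F + 1) (hq : 3 ≤ Fintype.card F)
    (χ : AddChar (Fin m → F) ℂ) (hχ : χ ≠ 0) :
    ‖∑ s ∈ RS F m, χ s‖ ≤ ((RS F m).card : ℝ) / 2 := by
  classical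
  set q := Fintype.card F with hqdef
  -- the line characters
  let ψ : F → AddChar F ℂ := fun b =>
    { toFun := fun a => χ (a • mom m b)
      map_zero_eq_one' := by simp
      map_add_eq_mul' := by intro a a'; rw [add_smul, AddChar.map_add_eq_mul] }
  have hψ : ∀ b a, ψ b a = χ (a • mom m b) := fun _ _ => rfl
  let R : Finset F := univ.filter fun b => ψ b = 0
  have hRcard : R.card < m := by
    by_contra hcon
    push Not at hcon
    apply hχ
    ext x
    obtain ⟨b, a, hb, hx⟩ := span_of_many R hcon x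
    rw [hx]
    have : χ (∑ i, a i • mom m (b i)) = ∏ i, χ (a i • mom m (b i)) := by
      have := map_prod χ.toMonoidHom (fun i => Multiplicative.ofAdd (a i • mom m (b i))) univ
      rw [← ofAdd_sum] at this
      exact this
    rw [this, AddChar.zero_apply]
    apply Finset.prod_eq_one
    intro i _
    have hbi := hb i
    simp only [R, mem_filter, mem_univ, true_and] at hbi
    rw [← hψ, hbi, AddChar.zero_apply]
  have hsum : ∑ s ∈ RS F m, χ s = (q : ℂ) * ((R.card : ℂ) - 1) := by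
    rw [RS, Finset.sum_image (RS_inj hm), Finset.sum_product_right]
    have h1 : ∀ b : F, ∑ a ∈ univ.filter (fun a : F => a ≠ 0), χ (a • mom m b)
        = (if ψ b = 0 then (q : ℂ) else 0) - 1 := by
      intro b
      have h2 : ∑ a : F, ψ b a = if ψ b = 0 then (q : ℂ) else 0 := by
        rw [AddChar.sum_eq_ite]
      rw [Finset.filter_ne' univ (0 : F), ← h2, ← Finset.add_sum_erase univ _ (mem_univ (0 : F))]
      simp [hψ]
    simp only
    rw [Finset.sum_congr rfl (fun b _ => h1 b), Finset.sum_sub_distrib, ← Finset.sum_filter]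
    simp [R, q]
    ring
  rw [hsum, RS_card hm]
  have hq1 : (1 : ℝ) ≤ q := by exact_mod_cast (by omega : 1 ≤ q)
  rw [norm_mul, Complex.norm_natCast]
  have h5 : ‖(R.card : ℂ) - 1‖ ≤ ((q : ℝ) - 1) / 2 := by
    have : (R.card : ℂ) - 1 = (((R.card : ℝ) - 1 : ℝ) : ℂ) := by push_cast; ring
    rw [this, Complex.norm_real, Real.norm_eq_abs, abs_le]
    have a1 : (R.card : ℝ) + 1 ≤ m := by exact_mod_cast hRcard
    have a2 : 2 * (m : ℝ) ≤ q + 1 := by exact_mod_cast hmq
    have a3 : (3 : ℝ) ≤ q := by exact_mod_cast hq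
    have a4 : (0 : ℝ) ≤ R.card := by positivity
    constructor <;> linarith
  have h6 : (((q - 1) * q : ℕ) : ℝ) = ((q : ℝ) - 1) * q := by
    push_cast [Nat.cast_sub (by omega : 1 ≤ q)]
    ring
  rw [h6]
  nlinarith [norm_nonneg ((R.card : ℂ) - 1)]

end RS

section Product

variable {G H : Type*} [AddCommGroup G] [AddCommGroup H] [Fintype G] [Fintype H] [DecidableEq G]
  [DecidableEq H]

/-- the generating set -/
def ZZ (S : Finset G) (h0 : H) : Finset (G × H) := univ.filter fun p => p.1 ∈ S ∨ p.2 = h0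

theorem ZZ_card (S : Finset G) (h0 : H) :
    ((ZZ S h0).card : ℝ) = S.card * (Fintype.card H - 1) + Fintype.card G := by
  have h1 : ((ZZ S h0).card : ℝ) = ∑ p : G × H, if p.1 ∈ S ∨ p.2 = h0 then (1 : ℝ) else 0 := by
    simp [ZZ]
  rw [h1, Fintype.sum_prod_type]
  have h2 : ∀ g : G, ∀ h : H, (if g ∈ S ∨ h = h0 then (1 : ℝ) else 0)
      = (if g ∈ S then 1 else 0) * (1 - if h = h0 then 1 else 0) + (if h = h0 then 1 else 0) := by
    intro g h
    by_cases a : g ∈ S <;> by_cases b : h = h0 <;> simp [a, b]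
  simp_rw [h2]
  simp_rw [Finset.sum_add_distrib, ← Finset.mul_sum]
  simp [Finset.sum_sub_distrib, Finset.card_univ]
  ring

theorem ZZ_char_sum (S : Finset G) (h0 : H) (hS : ∀ χ : AddChar G ℂ, χ ≠ 0 →
    ‖∑ s ∈ S, χ s‖ ≤ (S.card : ℝ) / 2) (hH : 2 ≤ Fintype.card H)
    (hbig : (Fintype.card G : ℝ) ≤ S.card * (Fintype.card H - 1))
    (χ : AddChar (G × H) ℂ) (hχ : χ ≠ 0) :
    ‖∑ z ∈ ZZ S h0, χ z‖ ≤ ((ZZ S h0).card : ℝ) / 2 := by
  classical
  rw [ZZ_card]
  let χ1 : AddChar G ℂ := χ.compAddMonoidHom (AddMonoidHom.inl G H)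
  let χ2 : AddChar H ℂ := χ.compAddMonoidHom (AddMonoidHom.inr G H)
  have hsplit : ∀ g h, χ (g, h) = χ1 g * χ2 h := by
    intro g h
    have : (g, h) = (g, 0) + (0, h) := by simp
    rw [this, AddChar.map_add_eq_mul]
    rfl
  have hsumS : ‖∑ s ∈ S, χ1 s‖ ≤ S.card := by
    calc ‖∑ s ∈ S, χ1 s‖ ≤ ∑ s ∈ S, ‖χ1 s‖ := norm_sum_le _ _
      _ = S.card := by simp
  have hHr : (2 : ℝ) ≤ Fintype.card H := by exact_mod_cast hH
  have hSr : (0 : ℝ) ≤ S.card := by positivity
  have hScard : (S.card : ℝ) ≤ Fintype.card G := by exact_mod_cast Finset.card_le_univ S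
  have hsum : ∑ z ∈ ZZ S h0, χ z = (∑ s ∈ S, χ1 s) * (∑ h, χ2 h) + (∑ g, χ1 g) * χ2 h0
      - (∑ s ∈ S, χ1 s) * χ2 h0 := by
    have h1 : ∑ z ∈ ZZ S h0, χ z = ∑ p : G × H, if p.1 ∈ S ∨ p.2 = h0 then χ p else 0 := by
      simp [ZZ, Finset.sum_filter]
    rw [h1, Fintype.sum_prod_type]
    have h2 : ∀ g : G, ∀ h : H, (if g ∈ S ∨ h = h0 then χ (g, h) else 0)
      = (if g ∈ S then χ1 g else 0) * χ2 h + χ1 g * (if h = h0 then χ2 h else 0)
        - (if g ∈ S then χ1 g else 0) * (if h = h0 then χ2 h else 0) := by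
      intro g h
      rw [hsplit]
      by_cases a : g ∈ S <;> by_cases b : h = h0 <;> simp [a, b]
    simp_rw [h2, Finset.sum_sub_distrib, Finset.sum_add_distrib, ← Finset.mul_sum, ← Finset.sum_mul]
    simp
  rw [hsum]
  by_cases c2 : χ2 = 0
  · have c1 : χ1 ≠ 0 := by
      intro c1
      apply hχ
      ext ⟨g, h⟩
      rw [hsplit, c1, c2]; simp
    have e1 : ∑ g, χ1 g = 0 := AddChar.sum_eq_zero_iff_ne_zero.mpr c1
    have e2 : ∑ h, χ2 h = Fintype.card H := by rw [c2]; simp [Finset.card_univ]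
    have e3 : χ2 h0 = 1 := by rw [c2]; simp
    rw [e1, e2, e3]
    have : (∑ s ∈ S, χ1 s) * (Fintype.card H : ℂ) + 0 * 1 - (∑ s ∈ S, χ1 s) * 1
      = (∑ s ∈ S, χ1 s) * (((Fintype.card H - 1 : ℝ)) : ℂ) := by push_cast; ring
    rw [this, norm_mul, Complex.norm_real, Real.norm_of_nonneg (by linarith)]
    have := hS χ1 c1
    have h7 : (0 : ℝ) ≤ Fintype.card G := by positivity
    nlinarith
  · have e2 : ∑ h, χ2 h = 0 := AddChar.sum_eq_zero_iff_ne_zero.mpr c2
    rw [e2]
    have n0 : ‖χ2 h0‖ = 1 := by simp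
    by_cases c1 : χ1 = 0
    · have e1 : ∑ g, χ1 g = Fintype.card G := by rw [c1]; simp [Finset.card_univ]
      have e3 : ∑ g ∈ S, χ1 g = S.card := by rw [c1]; simp
      rw [e1, e3]
      have : (S.card : ℂ) * 0 + (Fintype.card G : ℂ) * χ2 h0 - (S.card : ℂ) * χ2 h0
        = (((Fintype.card G : ℝ) - S.card : ℝ) : ℂ) * χ2 h0 := by push_cast; ring
      rw [this, norm_mul, n0, Complex.norm_real, Real.norm_of_nonneg (by linarith)]
      linarith
    · have e1 : ∑ g, χ1 g = 0 := AddChar.sum_eq_zero_iff_ne_zero.mpr c1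
      rw [e1]
      have : (∑ s ∈ S, χ1 s) * 0 + 0 * χ2 h0 - (∑ s ∈ S, χ1 s) * χ2 h0
        = -((∑ s ∈ S, χ1 s) * χ2 h0) := by ring
      rw [this, norm_neg, norm_mul, n0]
      have := hS χ1 c1
      nlinarith

end Product

section Bounds

variable {G H : Type*} [AddCommGroup G] [AddCommGroup H] [Fintype G] [Fintype H] [DecidableEq G]
  [DecidableEq H]

/-- iterated sumsets -/
def DD (S : Finset G) : ℕ → Finset G
  | 0 => {0}
  | t + 1 => (DD S t ×ˢ S).image fun p => p.1 + p.2

theorem DD_card (S : Finset G) (t : ℕ) : (DD S t).card ≤ S.card ^ t := by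
  induction t with
  | zero => simp [DD]
  | succ t ih =>
    rw [DD, pow_succ]
    refine Finset.card_image_le.trans ?_
    rw [Finset.card_product]
    exact Nat.mul_le_mul_right _ ih

theorem dist_lower (hG : ∀ x : G, x + x = 0) (S : Finset G) (h0 : H)
    (t : ℕ) :
    ((S.card * Fintype.card H : ℝ) / (ZZ S h0).card) ^ t - (S.card : ℝ) ^ t / Fintype.card G
      ≤ tv ((PM (ZZ S h0) ^ t) 0) (fun _ => 1 / (Fintype.card (G × H) : ℝ)) := by
  have hZne : (ZZ S h0).Nonempty := ⟨(0, h0), by simp [ZZ]⟩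
  have hst := PM_stoch (ZZ S h0) hZne
  have hZc : (0 : ℝ) < (ZZ S h0).card := by exact_mod_cast Finset.card_pos.mpr hZne
  have key := stay_lower hst (fun t => DD S t ×ˢ (univ : Finset H)) 0 (by simp [DD])
    ((S.card * Fintype.card H : ℝ) / (ZZ S h0).card) (by positivity) (by
      rintro t ⟨g, h⟩ hgh
      simp only [mem_product, mem_univ, and_true] at hgh
      rw [PM_row]
      apply div_le_div_of_nonneg_right _ hZc.le
      have hsub : (S.image (fun s => g + s)) ×ˢ (univ : Finset H) ⊆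
          (DD S (t + 1) ×ˢ (univ : Finset H)).filter fun y => (g, h) + y ∈ ZZ S h0 := by
        rintro ⟨a, b⟩ hab
        simp only [mem_product, mem_image, mem_univ, and_true] at hab
        obtain ⟨s, hs, rfl⟩ := hab
        simp only [mem_filter, mem_product, mem_univ, and_true, ZZ, Prod.mk_add_mk, true_and]
        refine ⟨?_, Or.inl ?_⟩
        · rw [DD, mem_image]
          exact ⟨(g, s), by simp [hgh, hs], rfl⟩
        · rw [← add_assoc, hG, zero_add]; exact hs
      have h1 := Finset.card_le_card hsub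
      rw [Finset.card_product, Finset.card_image_of_injective _ (add_right_injective g),
        Finset.card_univ] at h1
      exact_mod_cast h1) t
  have hcardpos : 0 < Fintype.card (G × H) := Fintype.card_pos
  have h2 := tv_lower ((PM (ZZ S h0) ^ t) 0) ((hst.pow t).2 0) hcardpos (DD S t ×ˢ (univ : Finset H))
  refine le_trans ?_ h2
  have hGpos : (0 : ℝ) < Fintype.card G := by exact_mod_cast Fintype.card_pos
  have hHpos : (0 : ℝ) < Fintype.card H := by exact_mod_cast Fintype.card_pos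
  have h3 : (((DD S t ×ˢ (univ : Finset H)).card : ℝ)) / (Fintype.card (G × H) : ℝ)
      ≤ (S.card : ℝ) ^ t / Fintype.card G := by
    rw [Finset.card_product, Fintype.card_prod, Finset.card_univ]
    push_cast
    rw [mul_div_mul_right _ _ hHpos.ne']
    apply div_le_div_of_nonneg_right _ hGpos.le
    exact_mod_cast DD_card S t
  linarith

/-- complementary kernel -/
def PC (S : Finset G) (c : ℝ) : Matrix G G ℝ := fun x y => if x + y ∈ S then 0 else c

theorem PM_ZZ_eq (S : Finset G) (hS : S.Nonempty) (h0 : H) :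
    PM (ZZ S h0) = (((1 - (Fintype.card G : ℝ) / (ZZ S h0).card) • PM S
      + ((Fintype.card G : ℝ) / (ZZ S h0).card) • JJ G) ⊗ₖ JJ H)
      + PC S ((ZZ S h0).card : ℝ)⁻¹ ⊗ₖ (PM {h0} - JJ H) := by
  have hZne : (ZZ S h0).Nonempty := ⟨(0, h0), by simp [ZZ]⟩
  have hZc : (0 : ℝ) < (ZZ S h0).card := by exact_mod_cast Finset.card_pos.mpr hZne
  have hSc : (0 : ℝ) < S.card := by exact_mod_cast Finset.card_pos.mpr hS
  have hGpos : (0 : ℝ) < Fintype.card G := by exact_mod_cast Fintype.card_pos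
  have hHpos : (0 : ℝ) < Fintype.card H := by exact_mod_cast Fintype.card_pos
  have hZ := ZZ_card S h0
  have hco : (1 - (Fintype.card G : ℝ) / (ZZ S h0).card) 
      = S.card * (Fintype.card H - 1) / (ZZ S h0).card := by
    field_simp
    linarith
  rw [hco]
  ext ⟨g, h⟩ ⟨g', h'⟩
  simp only [Matrix.add_apply, Matrix.kroneckerMap_apply, Matrix.smul_apply, smul_eq_mul,
    Matrix.sub_apply, PM, JJ, PC, card_singleton, mem_singleton, Prod.mk_add_mk]
  have hmem : ((g + g', h + h') ∈ ZZ S h0) ↔ (g + g' ∈ S ∨ h + h' = h0) := by simp [ZZ]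
  simp only [hmem]
  by_cases a : g + g' ∈ S <;> by_cases b : h + h' = h0 <;> simp only [a, b, if_true, if_false, 
    true_or, or_true, or_self] <;> field_simp <;> ring

theorem dist_upper (S : Finset G) (hS : S.Nonempty) (h0 : H)
    (t : ℕ) (x : G × H) :
    tv ((PM (ZZ S h0) ^ (t + 1)) x) (fun _ => 1 / (Fintype.card (G × H) : ℝ)) ≤
      (1 - (Fintype.card G : ℝ) / (ZZ S h0).card) ^ (t + 1) +
        ((Fintype.card G : ℝ) / (ZZ S h0).card) ^ (t + 1) := by
  have hZne : (ZZ S h0).Nonempty := ⟨(0, h0), by simp [ZZ]⟩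
  have hZc : (0 : ℝ) < (ZZ S h0).card := by exact_mod_cast Finset.card_pos.mpr hZne
  have hSc : (0 : ℝ) < S.card := by exact_mod_cast Finset.card_pos.mpr hS
  have hGpos : (0 : ℝ) < Fintype.card G := by exact_mod_cast Fintype.card_pos
  have hHpos : (0 : ℝ) < Fintype.card H := by exact_mod_cast Fintype.card_pos
  have hH1 : (1 : ℝ) ≤ Fintype.card H := by exact_mod_cast Fintype.card_pos
  have hZ := ZZ_card S h0
  set ε : ℝ := (Fintype.card G : ℝ) / (ZZ S h0).card with hε
  have hε0 : 0 ≤ ε := by positivity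
  have hε1 : ε ≤ 1 := by
    rw [hε, div_le_one hZc, hZ]
    nlinarith
  set P0 : Matrix G G ℝ := (1 - ε) • PM S + ε • JJ G with hP0
  set P1 : Matrix G G ℝ := PC S ((ZZ S h0).card : ℝ)⁻¹ with hP1
  set T : Matrix H H ℝ := PM {h0} - JJ H with hT
  have hP : PM (ZZ S h0) = P0 ⊗ₖ JJ H + P1 ⊗ₖ T := PM_ZZ_eq S hS h0
  have stS := PM_stoch S hS
  have st0 := PM_stoch ({h0} : Finset H) (Finset.singleton_nonempty _)
  have stJG : Stoch (JJ G) := JJ_stoch
  have stJH : Stoch (JJ H) := JJ_stoch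
  have JJH : JJ H * JJ H = JJ H := stoch_mul_JJ stJH
  have JJG : JJ G * JJ G = JJ G := stoch_mul_JJ stJG
  have JT : JJ H * T = 0 := by rw [hT, mul_sub, JJ_mul_PM _ (Finset.singleton_nonempty _), JJH, sub_self]
  have TJ : T * JJ H = 0 := by rw [hT, sub_mul, stoch_mul_JJ st0, JJH, sub_self]
  have hTpow : ∀ n, T ^ (n + 1) = PM {h0} ^ (n + 1) - JJ H := by
    intro n
    induction n with
    | zero => simp [hT]
    | succ n ih =>
      rw [pow_succ, ih, sub_mul, JT, sub_zero, hT, mul_sub, ← pow_succ, stoch_mul_JJ (st0.pow _)]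
  have hPpow : ∀ n, PM (ZZ S h0) ^ (n + 1) = (P0 ^ (n + 1)) ⊗ₖ JJ H + (P1 ^ (n + 1)) ⊗ₖ (T ^ (n + 1)) := by
    intro n
    induction n with
    | zero => simp [hP]
    | succ n ih =>
      rw [pow_succ, ih, hP, add_mul, mul_add, mul_add, ← Matrix.mul_kronecker_mul,
        ← Matrix.mul_kronecker_mul, ← Matrix.mul_kronecker_mul, ← Matrix.mul_kronecker_mul, JT, JJH,
        pow_succ T n, mul_assoc (T ^ n) T (JJ H), TJ, mul_zero, Matrix.kronecker_zero, Matrix.kronecker_zero,
        add_zero, zero_add, ← pow_succ, ← pow_succ, ← pow_succ, ← pow_succ]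
  have hP0pow : ∀ n, P0 ^ n - JJ G = (1 - ε) ^ n • (PM S ^ n - JJ G) := by
    intro n
    induction n with
    | zero => simp
    | succ n ih =>
      have h1 : P0 ^ n = (1 - ε) ^ n • (PM S ^ n - JJ G) + JJ G := by rw [← ih]; abel
      rw [pow_succ, h1, hP0, add_mul, mul_add, mul_add, smul_mul_smul_comm, smul_mul_smul_comm,
        mul_smul_comm, mul_smul_comm, sub_mul, sub_mul, JJ_mul_PM S hS, JJG, 
        stoch_mul_JJ (stS.pow n), sub_self, smul_zero, add_zero, ← pow_succ, ← pow_succ]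
      rw [add_sub_assoc, ← add_smul]
      simp
  have r1 : RowLe (P0 ^ (t + 1) - JJ G) ((1 - ε) ^ (t + 1) * 2) := by
    rw [hP0pow]
    apply RowLe.smul _ (pow_nonneg (by linarith) _)
    have := (stS.pow (t + 1)).rowLe.sub stJG.rowLe
    norm_num at this
    exact this
  have r2 : RowLe P1 ε := by
    intro x
    have h1 : ∀ y, |P1 x y| = ((ZZ S h0).card : ℝ)⁻¹ - (S.card / (ZZ S h0).card) * PM S x y := by
      intro y
      rw [hP1]
      simp only [PM, PC]
      split_ifs
      · rw [abs_zero]; field_simp; ring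
      · rw [abs_of_nonneg (by positivity)]; ring
    simp_rw [h1]
    rw [Finset.sum_sub_distrib, ← Finset.mul_sum, stS.2]
    simp only [sum_const, card_univ, nsmul_eq_mul, mul_one]
    have h9 : (0 : ℝ) ≤ S.card * ((ZZ S h0).card : ℝ)⁻¹ := by positivity
    rw [hε, div_eq_mul_inv, div_eq_mul_inv]
    linarith
  have r3 : RowLe (T ^ (t + 1)) 2 := by
    rw [hTpow]
    have := (st0.pow (t + 1)).rowLe.sub stJH.rowLe
    norm_num at this
    exact this
  apply tv_eq
  have hJ : JJ (G × H) = JJ G ⊗ₖ JJ H := by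
    ext ⟨g, h⟩ ⟨g', h'⟩
    simp [JJ, Matrix.kroneckerMap_apply, mul_comm]
  have hdec : PM (ZZ S h0) ^ (t + 1) - JJ (G × H) =
      (P0 ^ (t + 1) - JJ G) ⊗ₖ JJ H + (P1 ^ (t + 1)) ⊗ₖ (T ^ (t + 1)) := by
    rw [hPpow, hJ]
    ext ⟨g, h⟩ ⟨g', h'⟩
    simp only [Matrix.sub_apply, Matrix.add_apply, Matrix.kroneckerMap_apply]
    ring
  rw [hdec]
  have := (r1.kron stJH.rowLe zero_le_one).add ((r2.pow hε0 (t + 1)).kron r3 (by norm_num))
  convert this using 1
  ring


theorem PM_sq_pos (hG : ∀ x : G, x + x = 0) (hH : ∀ x : H, x + x = 0) (S : Finset G)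
    (hS : S.Nonempty) (h0 : H) (x y : G × H) : 0 < (PM (ZZ S h0) ^ 2) x y := by
  have hZne : (ZZ S h0).Nonempty := ⟨(0, h0), by simp [ZZ]⟩
  have hst := PM_stoch (ZZ S h0) hZne
  have hZc : (0 : ℝ) < (ZZ S h0).card := by exact_mod_cast Finset.card_pos.mpr hZne
  obtain ⟨s, hs⟩ := hS
  rw [pow_two, Matrix.mul_apply]
  apply Finset.sum_pos' (fun z _ => mul_nonneg (hst.1 _ _) (hst.1 _ _))
  refine ⟨(y.1 + s, x.2 + h0), mem_univ _, ?_⟩
  have e1 : x + (y.1 + s, x.2 + h0) ∈ ZZ S h0 := by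
    simp only [ZZ, mem_filter, mem_univ, true_and, Prod.fst_add, Prod.snd_add]
    right
    rw [← add_assoc, hH, zero_add]
  have e2 : (y.1 + s, x.2 + h0) + y ∈ ZZ S h0 := by
    simp only [ZZ, mem_filter, mem_univ, true_and, Prod.fst_add, Prod.snd_add]
    left
    rw [add_right_comm, hG, zero_add]; exact hs
  simp only [PM, e1, e2, if_true]
  positivity

theorem PM_cube_pos (hG : ∀ x : G, x + x = 0) (hH : ∀ x : H, x + x = 0) (S : Finset G)
    (hS : S.Nonempty) (h0 : H) (x y : G × H) : 0 < (PM (ZZ S h0) ^ 3) x y := by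
  have hZne : (ZZ S h0).Nonempty := ⟨(0, h0), by simp [ZZ]⟩
  have hst := PM_stoch (ZZ S h0) hZne
  have hZc : (0 : ℝ) < (ZZ S h0).card := by exact_mod_cast Finset.card_pos.mpr hZne
  rw [pow_succ, Matrix.mul_apply]
  apply Finset.sum_pos' (fun z _ => mul_nonneg ((hst.pow 2).1 _ _) (hst.1 _ _))
  refine ⟨(0, h0) - y, mem_univ _, ?_⟩
  apply mul_pos (PM_sq_pos hG hH S hS h0 _ _)
  have e1 : ((0, h0) - y) + y ∈ ZZ S h0 := by
    rw [sub_add_cancel]
    simp [ZZ]
  simp only [PM, e1, if_true]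
  positivity

end Bounds

section Defs

variable {G : Type*} [Group G] [Fintype G] [DecidableEq G]

theorem edgeCount_eq (hG : ∀ x : G, x * x = 1) (Z : Finset G) (h1 : (1 : G) ∉ Z) (x y : G) :
    edgeCount Z x y = if x * y ∈ Z then 2 else 0 := by
  have hinv : ∀ x : G, x⁻¹ = x := fun x => inv_eq_of_mul_eq_one_left (hG x)
  have hcomm : ∀ x y : G, x * y = y * x := by
    intro x y
    have := hinv (x * y)
    rw [mul_inv_rev, hinv, hinv] at this
    exact this.symm
  unfold edgeCount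
  split_ifs with h
  · have hne : x ≠ y := by
      rintro rfl
      rw [hG] at h
      exact h1 h
    have : ((univ ×ˢ Z).filter fun p : G × G => s(p.1, p.1 * p.2) = s(x, y)) =
        {(x, x * y), (y, x * y)} := by
      ext ⟨g, z⟩
      simp only [mem_filter, mem_product, mem_univ, true_and, Sym2.eq_iff, mem_insert, Prod.mk.injEq,
        mem_singleton]
      constructor
      · rintro ⟨hz, ⟨rfl, h2⟩ | ⟨rfl, h2⟩⟩
        · left
          refine ⟨rfl, ?_⟩
          rw [← h2, ← mul_assoc, hG, one_mul]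
        · right
          refine ⟨rfl, ?_⟩
          rw [← h2, mul_assoc, hcomm z g, ← mul_assoc, hG, one_mul]
      · rintro (⟨rfl, rfl⟩ | ⟨rfl, rfl⟩)
        · refine ⟨h, Or.inl ⟨rfl, ?_⟩⟩
          rw [← mul_assoc, hG, one_mul]
        · refine ⟨h, Or.inr ⟨rfl, ?_⟩⟩
          rw [hcomm x g, ← mul_assoc, hG, one_mul]
    rw [this, Finset.card_pair]
    intro h2
    exact hne (congrArg Prod.fst h2)
  · rw [Finset.card_eq_zero, Finset.filter_eq_empty_iff]
    rintro ⟨g, z⟩ hz h2
    simp only [mem_product, mem_univ, true_and] at hz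
    simp only [Sym2.eq_iff] at h2
    apply h
    rcases h2 with ⟨rfl, h2⟩ | ⟨rfl, h2⟩
    · rw [← h2, ← mul_assoc, hG, one_mul]; exact hz
    · rw [← h2, mul_assoc, hcomm z g, ← mul_assoc, hG, one_mul]; exact hz

theorem srw_eq (hG : ∀ x : G, x * x = 1) (Z : Finset G) (h1 : (1 : G) ∉ Z) (hZ : Z.Nonempty)
    (x y : G) : srw Z x y = if x * y ∈ Z then (Z.card : ℝ)⁻¹ else 0 := by
  have hZc : (0 : ℝ) < Z.card := by exact_mod_cast Finset.card_pos.mpr hZ
  have hsum : ∑ w, (edgeCount Z x w : ℝ) = 2 * Z.card := by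
    simp_rw [edgeCount_eq hG Z h1]
    rw [← Equiv.sum_comp (Equiv.mulLeft x)]
    simp only [Equiv.coe_mulLeft, ← mul_assoc, hG, one_mul]
    push_cast
    rw [← Finset.sum_filter]
    simp [mul_comm]
  unfold srw
  rw [hsum, edgeCount_eq hG Z h1]
  split_ifs
  · push_cast
    field_simp
  · simp

end Defs

section Reindex

variable {V W : Type*} [Fintype V] [DecidableEq V] [Fintype W] [DecidableEq W]

theorem reindex_pow (e : V ≃ W) (P : Matrix V V ℝ) (t : ℕ) :
    (Matrix.reindex e e P) ^ t = Matrix.reindex e e (P ^ t) := by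
  have := map_pow (Matrix.reindexAlgEquiv ℝ ℝ e) P t
  simpa using this.symm

theorem distUnif_reindex (e : V ≃ W) (P : Matrix V V ℝ) (t : ℕ) :
    distUnif (Matrix.reindex e e P) t = distUnif P t := by
  unfold distUnif
  rw [← e.iSup_comp]
  congr 1
  ext x
  rw [reindex_pow]
  unfold tv
  rw [← e.sum_comp]
  simp [Fintype.card_congr e]

theorem tmix_reindex (e : V ≃ W) (P : Matrix V V ℝ) (ε : ℝ) :
    tmix (Matrix.reindex e e P) ε = tmix P ε := by
  unfold tmix
  simp_rw [distUnif_reindex]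

theorem gap_reindex (e : V ≃ W) (P : Matrix V V ℝ) :
    gap (Matrix.reindex e e P) = gap P := by
  unfold gap lambda2
  rw [Matrix.charpoly_reindex]

theorem irred_reindex (e : V ≃ W) (P : Matrix V V ℝ) (h : Irred P) : 
    Irred (Matrix.reindex e e P) := by
  intro x y
  obtain ⟨t, ht⟩ := h (e.symm x) (e.symm y)
  refine ⟨t, ?_⟩
  rw [reindex_pow]
  simpa using ht

theorem aper_reindex (e : V ≃ W) (P : Matrix V V ℝ) (h : Aper P) : 
    Aper (Matrix.reindex e e P) := by
  intro x d hd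
  apply h (e.symm x) d
  intro t ht
  apply hd
  rw [reindex_pow]
  simpa using ht

end Reindex

section Final

variable {F : Type*} [Field F] [Fintype F] [DecidableEq F]
variable {H : Type*} [AddCommGroup H] [Fintype H] [DecidableEq H]

theorem le_distUnif {V : Type*} [Fintype V] [DecidableEq V] (P : Matrix V V ℝ) (t : ℕ) (x : V) :
    tv ((P ^ t) x) (fun _ => 1 / (Fintype.card V : ℝ)) ≤ distUnif P t :=
  le_ciSup (f := fun x => tv ((P ^ t) x) (fun _ => 1 / (Fintype.card V : ℝ)))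
    (Set.finite_range _).bddAbove x

theorem lt_tmix {V : Type*} [Fintype V] [DecidableEq V] (P : Matrix V V ℝ) (ε : ℝ) (T : ℕ)
    (hne : ∃ t, distUnif P t ≤ ε) (h : ∀ t ≤ T, ε < distUnif P t) : T < tmix P ε := by
  by_contra hcon
  push Not at hcon
  have hmem : tmix P ε ∈ {t : ℕ | distUnif P t ≤ ε} := Nat.sInf_mem hne
  exact absurd hmem (not_le.mpr (h _ hcon))

theorem tmix_le {V : Type*} [Fintype V] [DecidableEq V] (P : Matrix V V ℝ) (ε : ℝ) (T : ℕ)
    (h : distUnif P T ≤ ε) : tmix P ε ≤ T := Nat.sInf_le h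

set_option maxHeartbeats 4000000 in
theorem estimates (L m : ℕ) (hL : 64 ≤ L) (hL4 : 4 ∣ L) (hq : Fintype.card F = L ^ 2)
    (hm : 2 * m = L ^ 2) (hHc : Fintype.card H = (L ^ 2) ^ (m - 2) * L)
    (h2F : ∀ x : F, x + x = 0) (h2H : ∀ x : H, x + x = 0) (h0 : H) :
    1 / 2 ≤ gap (PM (ZZ (RS F m) h0)) ∧ L / 2 < tmix (PM (ZZ (RS F m) h0)) (1 / 4) ∧
    L / 2 < tmix (PM (ZZ (RS F m) h0)) (1 / 8) ∧ tmix (PM (ZZ (RS F m) h0)) (7 / 8) ≤ L / 4 ∧
    Irred (PM (ZZ (RS F m) h0)) ∧ Aper (PM (ZZ (RS F m) h0)) := by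
  have hL2 : 64 * L ≤ L ^ 2 := by nlinarith
  have hm3 : L + 3 ≤ m := by omega
  set S := RS F m with hS
  have hScard : S.card = (L ^ 2 - 1) * L ^ 2 := by rw [hS, RS_card (by omega), hq]
  have hSne : S.Nonempty := by
    rw [← Finset.card_pos, hScard]
    apply Nat.mul_pos <;> nlinarith [Nat.sub_add_cancel (by nlinarith : 1 ≤ L ^ 2)]
  have hGcard : Fintype.card (Fin m → F) = (L ^ 2) ^ m := by simp [hq]
  have h2G : ∀ x : Fin m → F, x + x = 0 := fun x => by ext i; exact h2F _
  have hZne : (ZZ S h0).Nonempty := ⟨(0, h0), by simp [ZZ]⟩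
  have hZc : (0 : ℝ) < (ZZ S h0).card := by exact_mod_cast Finset.card_pos.mpr hZne
  have hZ := ZZ_card S h0
  -- real parameters
  set Lr : ℝ := (L : ℝ) with hLr
  have hLr64 : 64 ≤ Lr := by rw [hLr]; exact_mod_cast hL
  set q : ℝ := Lr ^ 2 with hqr
  have hqL : 64 * Lr ≤ q := by rw [hqr]; nlinarith
  set Q : ℝ := q ^ (m - 2) with hQ
  have hQq : q ≤ Q := by
    rw [hQ]
    calc q = q ^ 1 := (pow_one q).symm
      _ ≤ q ^ (m - 2) := pow_le_pow_right₀ (by linarith) (by omega)
  have hSr : (S.card : ℝ) = (q - 1) * q := by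
    rw [hScard]
    have : 1 ≤ L ^ 2 := by nlinarith
    push_cast [Nat.cast_sub this]
    ring
  have hGr : (Fintype.card (Fin m → F) : ℝ) = Q * q ^ 2 := by
    rw [hGcard, hQ, ← pow_add]
    push_cast
    congr 1
    omega
  have hHr : (Fintype.card H : ℝ) = Q * Lr := by
    rw [hHc]
    push_cast
    rfl
  have hZr : ((ZZ S h0).card : ℝ) = (q - 1) * q * (Q * Lr - 1) + Q * q ^ 2 := by
    rw [hZ, hSr, hGr, hHr]
  have hGpos : (0 : ℝ) < Q * q ^ 2 := by
    have : 0 < q := by linarith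
    have : 0 < Q := by linarith
    positivity
  have hZlow : Lr * (Q * q ^ 2) ≤ (ZZ S h0).card := by
    rw [hZr]
    have h1 : 0 ≤ q * (Q * (q - Lr) - (q - 1)) := by
      have : q * 1 ≤ Q * (q - Lr) := mul_le_mul hQq (by linarith) (by norm_num) (by linarith)
      apply mul_nonneg <;> linarith
    nlinarith
  have hZup : ((ZZ S h0).card : ℝ) ≤ (Lr + 1) * (Q * q ^ 2) := by
    rw [hZr]
    have h1 : 0 ≤ Q * q * Lr + (q - 1) * q := by
      have : 0 ≤ Q := by linarith
      have : 0 ≤ q - 1 := by linarith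
      have : 0 ≤ q := by linarith
      positivity
    nlinarith
  set ε : ℝ := (Fintype.card (Fin m → F) : ℝ) / (ZZ S h0).card with hε
  have hεup : ε ≤ 1 / Lr := by
    rw [hε, hGr, div_le_div_iff₀ hZc (by linarith)]
    linarith
  have hεlow : 1 / (Lr + 1) ≤ ε := by
    rw [hε, hGr, div_le_div_iff₀ (by linarith) hZc]
    linarith
  have hL64 : 1 / Lr ≤ 1 / 64 := one_div_le_one_div_of_le (by norm_num) hLr64
  have hε0 : 0 < ε := lt_of_lt_of_le (by positivity) hεlow
  have hεs : ε ≤ 1 / 64 := hεup.trans hL64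
  -- lower bound
  have low : ∀ t, 2 * t ≤ L → 3 / 8 ≤ distUnif (PM (ZZ S h0)) t := by
    intro t ht
    refine le_trans ?_ ((dist_lower h2G S h0 t).trans (le_distUnif _ t 0))
    have h1 : 1 - ε ≤ (S.card * Fintype.card H : ℝ) / (ZZ S h0).card := by
      rw [hε, sub_le_iff_le_add, ← add_div, le_div_iff₀ hZc, hZ]
      have : (0 : ℝ) ≤ S.card := by positivity
      linarith
    have h2 : (1 - ε) ^ t ≤ ((S.card * Fintype.card H : ℝ) / (ZZ S h0).card) ^ t :=
      pow_le_pow_left₀ (by linarith) h1 t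
    have h3 : 1 + (t : ℝ) * (-ε) ≤ (1 + -ε) ^ t := one_add_mul_le_pow (by linarith) t
    have h4 : (t : ℝ) * ε ≤ 1 / 2 := by
      have : 2 * (t : ℝ) ≤ Lr := by rw [hLr]; exact_mod_cast ht
      calc (t : ℝ) * ε ≤ (Lr / 2) * (1 / Lr) := by
            apply mul_le_mul (by linarith) hεup hε0.le (by linarith)
        _ = 1 / 2 := by field_simp
    have h5 : (S.card : ℝ) ^ t / Fintype.card (Fin m → F) ≤ 1 / 8 := by
      have h6 : (S.card : ℝ) ≤ q ^ 2 := by rw [hSr]; nlinarith
      have h7 : (S.card : ℝ) ^ t ≤ q ^ (2 * t) := by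
        rw [pow_mul]; exact pow_le_pow_left₀ (by positivity) h6 t
      have h8 : q ^ (2 * t) * q ≤ Q * q ^ 2 := by
        rw [← pow_succ, hQ, ← pow_add]
        exact pow_le_pow_right₀ (by linarith) (by omega)
      rw [hGr, div_le_iff₀ hGpos]
      have h9 : 0 ≤ (S.card : ℝ) ^ t := by positivity
      have h11 : (8 : ℝ) ≤ q := by linarith
      have h12 : (S.card : ℝ) ^ t * 8 ≤ q ^ (2 * t) * q :=
        mul_le_mul h7 h11 (by norm_num) (by positivity)
      linarith
    have h10 : (1 : ℝ) + -ε = 1 - ε := by ring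
    rw [h10] at h3
    linarith
  -- upper bounds
  have up : ∀ t, distUnif (PM (ZZ S h0)) (t + 1) ≤ (1 - ε) ^ (t + 1) + ε ^ (t + 1) := by
    intro t
    unfold distUnif
    apply ciSup_le
    intro x
    exact dist_upper S hSne h0 t x
  have hex : ∀ δ : ℝ, 0 < δ → ∃ t, distUnif (PM (ZZ S h0)) t ≤ δ := by
    intro δ hδ
    obtain ⟨n, hn⟩ := exists_pow_lt_of_lt_one (half_pos hδ) (show 1 - ε < 1 by linarith)
    refine ⟨n + 1, (up n).trans ?_⟩
    have h1 : (1 - ε) ^ (n + 1) ≤ (1 - ε) ^ n := 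
      pow_le_pow_of_le_one (by linarith) (by linarith) (by omega)
    have h2 : ε ^ (n + 1) ≤ (1 - ε) ^ (n + 1) := pow_le_pow_left₀ hε0.le (by linarith) _
    linarith
  have low' : ∀ t ≤ L / 2, 1 / 4 < distUnif (PM (ZZ S h0)) t := by
    intro t ht
    have := low t (by omega)
    linarith
  refine ⟨?_, ?_, ?_, ?_, ?_, ?_⟩
  · unfold gap
    have := lambda2_PM_le (V := (Fin m → F) × H) (fun x => by ext1; exact h2G _; exact h2H _)
      (ZZ S h0) ?_ hZne ?_
    · linarith
    · rw [Fintype.card_prod, hGcard, hHc]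
      have h1 : 1 < (L ^ 2) ^ m := Nat.one_lt_pow (by omega) (by nlinarith)
      have h2 : 0 < (L ^ 2) ^ (m - 2) * L := by positivity
      nlinarith
    · apply ZZ_char_sum
      · intro χ hχ
        exact RS_char_sum (by omega) (by omega) (by omega) χ hχ
      · have h13 : (1 : ℝ) * 64 ≤ Q * Lr := mul_le_mul (by linarith) hLr64 (by norm_num) (by linarith)
        have : (2 : ℝ) ≤ Fintype.card H := by rw [hHr]; linarith
        exact_mod_cast this
      · have h14 : Lr * (Q * q ^ 2) ≤ S.card * (Fintype.card H - 1) + Fintype.card (Fin m → F) := by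
          rw [← hZ]; exact hZlow
        rw [hGr] at h14 ⊢
        have h15 : 64 * (Q * q ^ 2) ≤ Lr * (Q * q ^ 2) := mul_le_mul_of_nonneg_right hLr64 hGpos.le
        linarith
  · exact lt_tmix _ _ _ (hex _ (by norm_num)) low'
  · apply lt_tmix _ _ _ (hex _ (by norm_num))
    intro t ht
    have := low' t ht
    linarith
  · apply tmix_le
    obtain ⟨k, hk⟩ := hL4
    have hk1 : L / 4 = (k - 1) + 1 := by omega
    rw [hk1]
    refine (up _).trans ?_
    have hk2 : k - 1 + 1 = k := by omega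
    rw [hk2]
    have hk16 : 16 ≤ k := by omega
    have hkr : Lr = 4 * k := by rw [hLr, hk]; push_cast; ring
    have h1 : 1 + (k : ℝ) * ε ≤ (1 + ε) ^ k := one_add_mul_le_pow (by linarith) k
    have h2 : (1 - ε) ^ k * (1 + ε) ^ k ≤ 1 := by
      rw [← mul_pow]
      apply pow_le_one₀
      · nlinarith
      · nlinarith
    have h3 : 1 / 5 ≤ (k : ℝ) * ε := by
      have h5 : (16 : ℝ) ≤ k := by exact_mod_cast hk16
      calc (1 : ℝ) / 5 ≤ k * (1 / (Lr + 1)) := by
            rw [hkr, mul_one_div, div_le_div_iff₀ (by norm_num) (by linarith)]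
            linarith
        _ ≤ k * ε := mul_le_mul_of_nonneg_left hεlow (by linarith)
    have h4 : 0 ≤ (1 - ε) ^ k := pow_nonneg (by linarith) _
    have h5 : (1 - ε) ^ k * (6 / 5) ≤ 1 := by
      refine le_trans ?_ h2
      apply mul_le_mul_of_nonneg_left _ h4
      linarith
    have h6 : ε ^ k ≤ 1 / 64 := by
      calc ε ^ k ≤ ε ^ 1 := pow_le_pow_of_le_one hε0.le (by linarith) (by omega)
        _ ≤ 1 / 64 := by rw [pow_one]; exact hεs
    linarith
  · intro x y
    exact ⟨2, PM_sq_pos h2G h2H S hSne h0 x y⟩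
  · intro x d hd
    have h2 := hd 2 (PM_sq_pos h2G h2H S hSne h0 x x)
    have h3 := hd 3 (PM_cube_pos h2G h2H S hSne h0 x x)
    have : d ∣ 3 - 2 := Nat.dvd_sub h3 h2
    simpa using this

theorem srw_map {V : Type*} [AddCommGroup V] [Fintype V] [DecidableEq V] (hV : ∀ x : V, x + x = 0)
    (Z : Finset V) (h0 : (0 : V) ∉ Z) (hZ : Z.Nonempty) :
    srw (G := Multiplicative V) (Z.map Multiplicative.ofAdd.toEmbedding) =
      Matrix.reindex Multiplicative.ofAdd Multiplicative.ofAdd (PM Z) := by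
  ext x y
  rw [srw_eq (G := Multiplicative V)]
  · simp only [Finset.card_map, Matrix.reindex_apply, Matrix.submatrix_apply, PM]
    congr 1
    simp
  · intro x
    exact hV x.toAdd
  · simpa using h0
  · simpa using hZ

end Final

section Main

noncomputable local instance instFintypeGF (n : ℕ) : Fintype (GaloisField 2 n) :=
  Fintype.ofFinite _
noncomputable local instance instDecGF (n : ℕ) : DecidableEq (GaloisField 2 n) :=
  Classical.decEq _

/-- exponents -/
def LL (N : ℕ) : ℕ := 2 ^ (N + 6)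
def mm (N : ℕ) : ℕ := 2 ^ (2 * (N + 6) - 1)
def rr (N : ℕ) : ℕ := 2 * (N + 6) * (mm N - 2) + (N + 6)

abbrev FF (N : ℕ) : Type := GaloisField 2 (2 * (N + 6))
abbrev HH (N : ℕ) : Type := Fin (rr N) → ZMod 2
abbrev VV (N : ℕ) : Type := (Fin (mm N) → FF N) × HH N

def hh (N : ℕ) : HH N := fun _ => 1

noncomputable def ZV (N : ℕ) : Finset (VV N) := ZZ (RS (FF N) (mm N)) (hh N)

theorem two_FF (N : ℕ) (x : FF N) : x + x = 0 := CharTwo.add_self_eq_zero x

theorem two_HH (N : ℕ) (x : HH N) : x + x = 0 := by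
  ext i
  exact CharTwo.add_self_eq_zero (x i)

theorem two_VV (N : ℕ) (x : VV N) : x + x = 0 := by
  ext1
  · ext i
    exact two_FF N _
  · exact two_HH N _

theorem all_est (N : ℕ) :
    1 / 2 ≤ gap (PM (ZV N)) ∧ LL N / 2 < tmix (PM (ZV N)) (1 / 4) ∧
    LL N / 2 < tmix (PM (ZV N)) (1 / 8) ∧ tmix (PM (ZV N)) (7 / 8) ≤ LL N / 4 ∧
    Irred (PM (ZV N)) ∧ Aper (PM (ZV N)) := by
  have h64 : 2 ^ 6 = 64 := by norm_num
  have hL : 64 ≤ LL N := by
    rw [LL, ← h64]
    exact Nat.pow_le_pow_right (by norm_num) (by omega)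
  have hsq : (LL N) ^ 2 = 2 ^ (2 * (N + 6)) := by
    rw [LL, ← pow_mul, mul_comm]
  apply estimates (LL N) (mm N) hL
  · rw [LL]
    exact ⟨2 ^ (N + 4), by rw [show N + 6 = (N + 4) + 2 by omega, pow_add]; ring⟩
  · rw [hsq, ← Nat.card_eq_fintype_card, GaloisField.card 2 _ (by omega)]
  · rw [hsq, mm, ← pow_succ']
    congr 1
  · rw [hsq, LL, ← pow_mul, ← pow_add, Fintype.card_fun, ZMod.card, Fintype.card_fin, rr]
  · exact two_FF N
  · exact two_HH N

theorem ZV_zero (N : ℕ) : (0 : VV N) ∉ ZV N := by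
  have hm : 2 ≤ mm N := by
    rw [mm]
    calc 2 = 2 ^ 1 := by norm_num
      _ ≤ 2 ^ (2 * (N + 6) - 1) := Nat.pow_le_pow_right (by norm_num) (by omega)
  simp only [ZV, ZZ, mem_filter, mem_univ, true_and, not_or]
  refine ⟨zero_notMem_RS hm, ?_⟩
  intro h
  have hr : 0 < rr N := by rw [rr]; omega
  have := congrFun h ⟨0, hr⟩
  simp [hh] at this

theorem ZV_ne (N : ℕ) : (ZV N).Nonempty := ⟨(0, hh N), by simp [ZV, ZZ]⟩

/-- **Disproof of the conjecture.**  There are finite groups `G_N`, abelian of exponent dividing two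
(in particular nilpotent of step at most one), and subsets `Z_N` with `1 ∉ Z_N`, such that the simple
random walks on the undirected Cayley graphs `G_N(Z_N)` are irreducible and aperiodic and satisfy the
product condition, but this sequence of walks does not exhibit cutoff. -/
theorem main_result : ∃ (G : ℕ → Type) (_ : ∀ N, Group (G N)) (_ : ∀ N, Fintype (G N))
    (_ : ∀ N, DecidableEq (G N)) (Z : ∀ N, Finset (G N)),
    (∀ N, Group.IsNilpotent (G N) ∧ Group.nilpotencyClass (G N) ≤ 1) ∧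
    (∀ N, (∀ x y : G N, x * y = y * x) ∧ (∀ x : G N, x * x = 1) ∧ (1 : G N) ∉ Z N) ∧
    (∀ N, Irred (srw (Z N)) ∧ Aper (srw (Z N))) ∧
    ProductCondition G (fun N => srw (Z N)) ∧
    ¬ Cutoff G (fun N => srw (Z N)) := by
  refine ⟨fun N => Multiplicative (VV N), fun N => inferInstance, fun N => inferInstance,
    fun N => inferInstance, fun N => (ZV N).map Multiplicative.ofAdd.toEmbedding, ?_, ?_, ?_, ?_, ?_⟩
  · intro N
    exact ⟨inferInstance, CommGroup.nilpotencyClass_le_one⟩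
  · intro N
    refine ⟨fun x y => mul_comm x y, fun x => two_VV N x.toAdd, ?_⟩
    simpa using ZV_zero N
  · intro N
    rw [srw_map (two_VV N) (ZV N) (ZV_zero N) (ZV_ne N)]
    obtain ⟨-, -, -, -, h1, h2⟩ := all_est N
    exact ⟨irred_reindex _ _ h1, aper_reindex _ _ h2⟩
  · unfold ProductCondition
    have hL : Tendsto (fun N : ℕ => (N : ℝ) / 2) atTop atTop :=
      tendsto_natCast_atTop_atTop.atTop_div_const (by norm_num)
    apply tendsto_atTop_mono _ hL
    intro N
    beta_reduce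
    rw [srw_map (two_VV N) (ZV N) (ZV_zero N) (ZV_ne N), tmix_reindex, gap_reindex]
    obtain ⟨h1, h2, -, -, -, -⟩ := all_est N
    have h3 : N ≤ LL N / 2 := by
      have : N + 5 < 2 ^ (N + 5) := Nat.lt_two_pow_self
      have h4 : LL N = 2 * 2 ^ (N + 5) := by rw [LL, ← pow_succ']
      omega
    have h4 : (N : ℝ) ≤ tmix (PM (ZV N)) (1 / 4) := by exact_mod_cast h3.trans h2.le
    have h5 : (0 : ℝ) ≤ N := by positivity
    calc (N : ℝ) / 2 = N * (1 / 2) := by ring
      _ ≤ tmix (PM (ZV N)) (1 / 4) * gap (PM (ZV N)) :=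
        mul_le_mul h4 h1 (by norm_num) (by positivity)
  · intro hcut
    have h := hcut (1 / 8) (by norm_num) (by norm_num)
    have hev := h.eventually (Metric.ball_mem_nhds (1 : ℝ) one_pos)
    obtain ⟨N, hN⟩ := hev.exists
    beta_reduce at hN
    rw [srw_map (two_VV N) (ZV N) (ZV_zero N) (ZV_ne N), tmix_reindex, tmix_reindex] at hN
    obtain ⟨-, -, h2, h3, -, -⟩ := all_est N
    rw [show (1 : ℝ) - 1 / 8 = 7 / 8 by norm_num] at hN
    rw [Real.dist_eq] at hN
    have hN2 := abs_lt.mp hN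
    by_cases h0 : tmix (PM (ZV N)) (7 / 8) = 0
    · rw [h0] at hN2
      norm_num at hN2
    · have h4 : (0 : ℝ) < tmix (PM (ZV N)) (7 / 8) := by
        exact_mod_cast Nat.pos_of_ne_zero h0
      have h5 : 2 * tmix (PM (ZV N)) (7 / 8) ≤ tmix (PM (ZV N)) (1 / 8) := by omega
      have h6 : (2 : ℝ) * tmix (PM (ZV N)) (7 / 8) ≤ tmix (PM (ZV N)) (1 / 8) := by
        exact_mod_cast h5
      have h7 : (2 : ℝ) ≤ tmix (PM (ZV N)) (1 / 8) / tmix (PM (ZV N)) (7 / 8) := by
        rw [le_div_iff₀ h4]; exact h6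
      linarith [hN2.2]

end Main

end Pool.Agent.Lib_helper80.Cutoff
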