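import Mathlib

/-!
# Kneser's addition theorem for finite abelian groups

Proof after M. DeVos, A short proof of Kneser's addition theorem for abelian groups,
written without passing to a quotient.
-/

open Finset Pointwise

set_option linter.unusedSectionVars false

namespace Helper80Kneser

variable {G : Type*} [AddCommGroup G] [Fintype G] [DecidableEq G]

/-- the elements of a subgroup as a finset -/
noncomputable def fs (H : AddSubgroup G) : Finset G := by
  classical exact univ.filter (· ∈ H)

@[simp] lemma mem_fs {H : AddSubgroup G} {x : G} : x ∈ fs H ↔ x ∈ H := by simp [fs]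

/-- the coset of `a` as a finset -/
noncomputable def cs (H : AddSubgroup G) (a : G) : Finset G := by
  classical exact univ.filter (fun x => x - a ∈ H)

@[simp] lemma mem_cs {H : AddSubgroup G} {a x : G} : x ∈ cs H a ↔ x - a ∈ H := by simp [cs]

/-- the stabiliser of a finset -/
def St (C : Finset G) : AddSubgroup G where
  carrier := {g | ∀ x, g + x ∈ C ↔ x ∈ C}
  zero_mem' := by simp
  add_mem' := by
    intro a b ha hb x
    rw [add_assoc, ha, hb]
  neg_mem' := by
    intro a ha x
    rw [← ha (-a + x), add_neg_cancel_left]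

lemma mem_St {C : Finset G} {g : G} : g ∈ St C ↔ ∀ x, g + x ∈ C ↔ x ∈ C := Iff.rfl

/-- a one-sided criterion for membership in the stabiliser -/
lemma mem_St_of {C : Finset G} {g : G} (h : ∀ x ∈ C, g + x ∈ C) : g ∈ St C := by
  have h1 : C.image (g + ·) ⊆ C := by
    intro y hy
    obtain ⟨x, hx, rfl⟩ := mem_image.1 hy
    exact h x hx
  have h2 : (C.image (g + ·)).card = C.card :=
    card_image_of_injective _ (add_right_injective g)
  have h3 : C.image (g + ·) = C := eq_of_subset_of_card_le h1 h2.ge
  intro x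
  constructor
  · intro hx
    rw [← h3] at hx
    obtain ⟨y, hy, hxy⟩ := mem_image.1 hx
    have : y = x := add_right_injective g hxy
    exact this ▸ hy
  · exact h x

lemma mem_sat {A : Finset G} {H : AddSubgroup G} {x : G} :
    x ∈ A + fs H ↔ ∃ a ∈ A, x - a ∈ H := by
  rw [mem_add]
  constructor
  · rintro ⟨a, ha, h, hh, rfl⟩
    exact ⟨a, ha, by simpa using hh⟩
  · rintro ⟨a, ha, h⟩
    exact ⟨a, ha, x - a, by simpa using h, by abel⟩

lemma card_cs (H : AddSubgroup G) (a : G) : (cs H a).card = (fs H).card := by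
  apply card_bij (fun x _ => x - a)
  · intro x hx
    simpa using hx
  · intro x _ y _ h
    simpa using h
  · intro y hy
    exact ⟨y + a, by simpa using hy, by simp⟩

lemma card_fs_pos (H : AddSubgroup G) : 0 < (fs H).card :=
  card_pos.2 ⟨0, by simp [H.zero_mem]⟩

/-- the size of a saturated set is a multiple of the size of the subgroup -/
lemma dvd_card_sat (A : Finset G) (H : AddSubgroup G) : (fs H).card ∣ (A + fs H).card := by
  classical
  let f : G → G ⧸ H := QuotientAddGroup.mk
  have h1 : (A + fs H).card = ∑ q ∈ (A + fs H).image f, ((A + fs H).filter (fun x => f x = q)).card :=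
    card_eq_sum_card_image f _
  rw [h1]
  apply Finset.dvd_sum
  intro q hq
  obtain ⟨x, hx, rfl⟩ := mem_image.1 hq
  have : (A + fs H).filter (fun y => f y = f x) = cs H x := by
    ext y
    simp only [mem_filter, mem_cs]
    have hf : f y = f x ↔ y - x ∈ H := by
      rw [eq_comm]
      have := @QuotientAddGroup.eq _ _ H x y
      rw [this, neg_add_eq_sub]
    rw [hf]
    constructor
    · exact fun h => h.2
    · intro h
      refine ⟨?_, h⟩
      obtain ⟨a, ha, hxa⟩ := mem_sat.1 hx
      refine mem_sat.2 ⟨a, ha, ?_⟩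
      have := H.add_mem h hxa
      simpa using this
  rw [this, card_cs]

/-- the inequality of Kneser for a pair -/
def Kn (A B : Finset G) : Prop :=
  (A + fs (St (A + B))).card + (B + fs (St (A + B))).card ≤ (A + B).card + (fs (St (A + B))).card

/-- convergents, with respect to an intersection of size `m` and the union `U`, inside `W` -/
def Conv (W U : Finset G) (m : ℕ) (C : Finset G) (H : AddSubgroup G) : Prop :=
  C ⊆ W ∧ (∀ x ∈ C, ∀ h ∈ H, h + x ∈ C) ∧ m + (U + fs H).card ≤ C.card + (fs H).card

lemma subset_sat (U : Finset G) (H : AddSubgroup G) : U ⊆ U + fs H := by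
  intro x hx
  exact mem_sat.2 ⟨x, hx, by simp [H.zero_mem]⟩

lemma sat_mono {U : Finset G} {L H : AddSubgroup G} (h : L ≤ H) : U + fs L ⊆ U + fs H := by
  intro x hx
  obtain ⟨a, ha, hh⟩ := mem_sat.1 hx
  exact mem_sat.2 ⟨a, ha, h hh⟩

lemma cs_subset_sat {U : Finset G} {H : AddSubgroup G} {a : G} (ha : a ∈ U) : cs H a ⊆ U + fs H := by
  intro x hx
  exact mem_sat.2 ⟨a, ha, by simpa using hx⟩

/-- one coset: the part of `cs H a` missed by `U + L` -/
lemma one_coset {U : Finset G} {L H : AddSubgroup G} (h : L ≤ H) {a : G} (ha : a ∈ U) :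
    (U + fs L).card + (cs H a \ (U + fs L)).card ≤ (U + fs H).card := by
  rw [← card_union_of_disjoint disjoint_sdiff]
  apply card_le_card
  apply union_subset (sat_mono h)
  exact sdiff_subset.trans (cs_subset_sat ha)

lemma two_coset {U : Finset G} {L H : AddSubgroup G} (h : L ≤ H) {a b : G} (ha : a ∈ U)
    (hb : b ∈ U) (hab : b - a ∉ H) :
    (U + fs L).card + (cs H a \ (U + fs L)).card + (cs H b \ (U + fs L)).card
      ≤ (U + fs H).card := by
  have hd : Disjoint (cs H a \ (U + fs L)) (cs H b \ (U + fs L)) := by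
    rw [Finset.disjoint_left]
    intro x hx hx'
    have h1 := (mem_sdiff.1 hx).1
    have h2 := (mem_sdiff.1 hx').1
    rw [mem_cs] at h1 h2
    apply hab
    have := H.sub_mem h1 h2
    simpa using this
  rw [add_assoc, ← card_union_of_disjoint hd, ← card_union_of_disjoint]
  · apply card_le_card
    apply union_subset (sat_mono h)
    apply union_subset
    · exact sdiff_subset.trans (cs_subset_sat ha)
    · exact sdiff_subset.trans (cs_subset_sat hb)
  · rw [disjoint_union_right]
    exact ⟨disjoint_sdiff, disjoint_sdiff⟩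

/-- the part of a coset missed by `(A ∪ B) + L` is large -/
lemma missed {A B : Finset G} {L H : AddSubgroup G} (h : L ≤ H) (a : G) :
    (fs H).card ≤ (cs H a \ ((A ∪ B) + fs L)).card + ((A ∩ cs H a) + fs L).card
      + ((B ∩ cs H a) + fs L).card := by
  rw [← card_cs H a, add_assoc]
  have h1 : cs H a ⊆ (cs H a \ ((A ∪ B) + fs L)) ∪ (((A ∩ cs H a) + fs L) ∪
      ((B ∩ cs H a) + fs L)) := by
    intro x hx
    by_cases hx' : x ∈ (A ∪ B) + fs L
    · obtain ⟨u, hu, hxu⟩ := mem_sat.1 hx'
      have hu' : u ∈ cs H a := by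
        rw [mem_cs] at hx ⊢
        have := H.sub_mem hx (h hxu)
        simpa using this
      rw [mem_union, mem_union]
      right
      rcases mem_union.1 hu with hu | hu
      · left
        exact mem_sat.2 ⟨u, mem_inter.2 ⟨hu, hu'⟩, hxu⟩
      · right
        exact mem_sat.2 ⟨u, mem_inter.2 ⟨hu, hu'⟩, hxu⟩
    · rw [mem_union]
      left
      exact mem_sdiff.2 ⟨hx, hx'⟩
  calc (cs H a).card ≤ _ := card_le_card h1
    _ ≤ _ := card_union_le _ _
    _ ≤ _ := by
      gcongr
      exact card_union_le _ _

/-- the main step: two inequalities for a pair of pieces -/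
lemma piece {A B C : Finset G} {H : AddSubgroup G}
    (IH1 : ∀ A' B' : Finset G, A'.Nonempty → B'.Nonempty → (A' + B').card < (A + B).card → Kn A' B')
    (hC : Conv (A + B) (A ∪ B) (A ∩ B).card C H)
    (hCne : C.Nonempty)
    (hmin : ∀ C' H', Conv (A + B) (A ∪ B) (A ∩ B).card C' H' → (fs H).card ≤ (fs H').card)
    (hbad : (A + B).card + 1 < A.card + B.card)
    {c : G} {t : G} (ht : t ∈ cs H c) (ht' : t ∉ A + B)
    {A' B' : Finset G} (hA' : A'.Nonempty) (hB' : B'.Nonempty) (hAA : A' ⊆ A) (hBB : B' ⊆ B)
    (hc : A' + B' ⊆ cs H c) :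
    ∃ L : AddSubgroup G, L ≤ H ∧
      ((A ∪ B) + fs H).card + (A' + fs L).card + (B' + fs L).card
        < ((A ∪ B) + fs L).card + (fs H).card ∧
      ((A ∪ B) + fs H).card + (A' + fs L).card + (B' + fs L).card
        < (A ∪ B).card + (fs H).card + (fs L).card := by
  classical
  obtain ⟨hCs, hCp, hCc⟩ := hC
  have hsub : A' + B' ⊆ A + B := add_subset_add hAA hBB
  have hcard : (A ∪ B).card + (A ∩ B).card = A.card + B.card := card_union_add_card_inter _ _
  -- C is disjoint from the coset of c
  have hdis : Disjoint C (A' + B') := by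
    rw [Finset.disjoint_left]
    intro x hx hx'
    have h1 := hc hx'
    rw [mem_cs] at h1 ht
    have h2 : t - x ∈ H := by
      have := H.sub_mem ht h1
      simpa using this
    have h3 := hCp x hx _ h2
    rw [sub_add_cancel] at h3
    exact ht' (hCs h3)
  have hle : C.card + (A' + B').card ≤ (A + B).card := by
    rw [← card_union_of_disjoint hdis]
    exact card_le_card (union_subset hCs hsub)
  have hlt : (A' + B').card < (A + B).card := by
    have := card_pos.2 hCne
    omega
  have hK := IH1 A' B' hA' hB' hlt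
  obtain ⟨w, hw⟩ : (A' + B').Nonempty := hA'.add hB'
  have hLH : St (A' + B') ≤ H := by
    intro g hg
    have h1 : g + w ∈ A' + B' := (hg w).2 hw
    have h2 := hc h1
    have h3 := hc hw
    rw [mem_cs] at h2 h3
    have := H.sub_mem h2 h3
    simpa using this
  have hne : (fs (St (A' + B'))).card < (fs H).card := by
    apply card_lt_card
    refine ⟨fun x hx => by simpa using hLH (by simpa using hx), ?_⟩
    intro hcon
    apply ht'
    apply hsub
    have h3 := hc hw
    rw [mem_cs] at h3 ht
    have h4 : t - w ∈ H := by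
      have := H.sub_mem ht h3
      simpa using this
    have h5 : t - w ∈ St (A' + B') := by
      have := hcon (mem_fs.2 h4)
      simpa using this
    have h6 := (h5 w).2 hw
    rwa [sub_add_cancel] at h6
  refine ⟨St (A' + B'), hLH, ?_, ?_⟩
  · have hnc : ¬ Conv (A + B) (A ∪ B) (A ∩ B).card (C ∪ (A' + B')) (St (A' + B')) := by
      intro hcon
      have := hmin _ _ hcon
      omega
    have h7 : ¬ (A ∩ B).card + (A ∪ B + fs (St (A' + B'))).card ≤
        (C ∪ (A' + B')).card + (fs (St (A' + B'))).card := by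
      intro hcon
      apply hnc
      refine ⟨union_subset hCs hsub, ?_, hcon⟩
      intro x hx h hh
      rcases mem_union.1 hx with hx | hx
      · exact mem_union.2 (Or.inl (hCp x hx h (hLH hh)))
      · exact mem_union.2 (Or.inr ((hh x).2 hx))
    rw [card_union_of_disjoint hdis] at h7
    unfold Kn at hK
    omega
  · unfold Kn at hK
    omega

lemma add_dvd_lt {l x y z : ℕ} (hx : l ∣ x) (hy : l ∣ y) (hz : l ∣ z) (h : x + y < z) :
    x + y + l ≤ z := by
  obtain ⟨x, rfl⟩ := hx
  obtain ⟨y, rfl⟩ := hy
  obtain ⟨z, rfl⟩ := hz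
  rw [← mul_add] at h ⊢
  have h1 : x + y < z := lt_of_mul_lt_mul_left h (Nat.zero_le _)
  calc l * (x + y) + l = l * (x + y + 1) := by ring
    _ ≤ l * z := Nat.mul_le_mul_left _ h1

lemma dvd_fs {L H : AddSubgroup G} (h : L ≤ H) : (fs L).card ∣ (fs H).card := by
  have : fs H + fs L = fs H := by
    ext x
    rw [mem_sat, mem_fs]
    constructor
    · rintro ⟨a, ha, hx⟩
      have := H.add_mem (h hx) (mem_fs.1 ha)
      simpa using this
    · intro hx
      exact ⟨x, mem_fs.2 hx, by simp [L.zero_mem]⟩
  have h2 := dvd_card_sat (fs H) L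
  rwa [this] at h2

/-- no bad pair with a convergent -/
lemma no_bad {A B : Finset G} (hAB : (A ∩ B).Nonempty)
    (IH1 : ∀ A' B' : Finset G, A'.Nonempty → B'.Nonempty → (A' + B').card < (A + B).card → Kn A' B')
    (hex : ∃ C H, Conv (A + B) (A ∪ B) (A ∩ B).card C H) :
    A.card + B.card ≤ (A + B).card + (fs (St (A + B))).card := by
  classical
  by_contra hbad
  push Not at hbad
  have hKpos := card_fs_pos (St (A + B))
  have hcard : (A ∪ B).card + (A ∩ B).card = A.card + B.card := card_union_add_card_inter _ _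
  -- a minimal convergent
  obtain ⟨C, H, hC, hmin⟩ : ∃ C H, Conv (A + B) (A ∪ B) (A ∩ B).card C H ∧
      ∀ C' H', Conv (A + B) (A ∪ B) (A ∩ B).card C' H' → (fs H).card ≤ (fs H').card := by
    have hP : ∃ n, ∃ C H, Conv (A + B) (A ∪ B) (A ∩ B).card C H ∧ (fs H).card = n := by
      obtain ⟨C, H, h⟩ := hex
      exact ⟨_, C, H, h, rfl⟩
    obtain ⟨C, H, h1, h2⟩ := Nat.find_spec hP
    refine ⟨C, H, h1, ?_⟩
    intro C' H' h'
    rw [h2]
    exact Nat.find_min' hP ⟨C', H', h', rfl⟩
  obtain ⟨w, hw⟩ := hAB
  have hwU : w ∈ A ∪ B := mem_union.2 (Or.inl (mem_inter.1 hw).1)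
  have hCne : C.Nonempty := by
    rw [nonempty_iff_ne_empty]
    intro hCe
    have h1 := hC.2.2
    rw [hCe, card_empty] at h1
    have h2 : (fs H).card ≤ (A ∪ B + fs H).card := by
      rw [← card_cs H w]
      exact card_le_card (cs_subset_sat hwU)
    have h3 : 0 < (A ∩ B).card := card_pos.2 ⟨w, hw⟩
    omega
  -- if A + B is H-periodic we are done
  by_cases hper : ∀ x ∈ A + B, ∀ h ∈ H, h + x ∈ A + B
  · have hHK : fs H ⊆ fs (St (A + B)) := by
      intro h hh
      rw [mem_fs] at hh ⊢
      exact mem_St_of (fun x hx => hper x hx h hh)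
    have h1 := card_le_card hHK
    have h2 := hC.2.2
    have h3 := card_le_card hC.1
    have h4 := card_le_card (subset_sat (A ∪ B) H)
    omega
  push Not at hper
  obtain ⟨x, hx, h, hh, hxh⟩ := hper
  obtain ⟨a, ha, b, hb, rfl⟩ := mem_add.1 hx
  have ht : h + (a + b) ∈ cs H (a + b) := by simpa using hh
  have hbad' : (A + B).card + 1 < A.card + B.card := by omega
  have haU : a ∈ A ∪ B := mem_union.2 (Or.inl ha)
  have hbU : b ∈ A ∪ B := mem_union.2 (Or.inr hb)
  have haa : a ∈ cs H a := by simp [H.zero_mem]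
  have hbb : b ∈ cs H b := by simp [H.zero_mem]
  have hsum : ∀ X Y : Finset G, X ∩ cs H a + Y ∩ cs H b ⊆ cs H (a + b) := by
    intro X Y z hz
    obtain ⟨x, hx, y, hy, rfl⟩ := mem_add.1 hz
    have h1 := (mem_inter.1 hx).2
    have h2 := (mem_inter.1 hy).2
    rw [mem_cs] at h1 h2 ⊢
    have := H.add_mem h1 h2
    have h3 : x + y - (a + b) = x - a + (y - b) := by abel
    rwa [h3]
  obtain ⟨L1, hL1, h11, h12⟩ := piece IH1 hC hCne hmin hbad' ht hxh
    (A' := A ∩ cs H a) (B' := B ∩ cs H b) ⟨a, mem_inter.2 ⟨ha, haa⟩⟩ ⟨b, mem_inter.2 ⟨hb, hbb⟩⟩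
    inter_subset_left inter_subset_left (hsum A B)
  by_cases hab : b - a ∈ H
  · -- the two cosets agree
    have hcs : cs H b = cs H a := by
      ext z
      rw [mem_cs, mem_cs]
      constructor
      · intro hz
        have := H.add_mem hz hab
        simpa using this
      · intro hz
        have := H.sub_mem hz hab
        simpa using this
    rw [hcs] at h11 h12
    have h2 := one_coset hL1 haU
    have h3 := missed (A := A) (B := B) hL1 a
    omega
  rcases (B ∩ cs H a).eq_empty_or_nonempty with hB2 | hB2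
  · have h2 := one_coset hL1 haU
    have h3 := missed (A := A) (B := B) hL1 a
    rw [hB2, Finset.empty_add, card_empty] at h3
    omega
  rcases (A ∩ cs H b).eq_empty_or_nonempty with hA2 | hA2
  · have h2 := one_coset hL1 hbU
    have h3 := missed (A := A) (B := B) hL1 b
    rw [hA2, Finset.empty_add, card_empty] at h3
    omega
  obtain ⟨L2, hL2, h21, h22⟩ := piece IH1 hC hCne hmin hbad' ht hxh
    (A' := A ∩ cs H b) (B' := B ∩ cs H a) hA2 hB2
    inter_subset_left inter_subset_left (by rw [add_comm]; exact hsum B A)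
  -- first pair of inequalities
  have e1 : (A ∩ cs H a + fs L1).card + (B ∩ cs H b + fs L1).card + (fs L1).card ≤ (fs H).card := by
    apply add_dvd_lt (dvd_card_sat _ _) (dvd_card_sat _ _) (dvd_fs hL1)
    have := card_le_card (sat_mono (U := A ∪ B) hL1)
    omega
  have e2 : (A ∩ cs H b + fs L2).card + (B ∩ cs H a + fs L2).card + (fs L2).card ≤ (fs H).card := by
    apply add_dvd_lt (dvd_card_sat _ _) (dvd_card_sat _ _) (dvd_fs hL2)
    have := card_le_card (sat_mono (U := A ∪ B) hL2)
    omega
  have s1 : ∀ (X : Finset G) (L : AddSubgroup G), X.card ≤ (X + fs L).card :=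
    fun X L => card_le_card (subset_sat X L)
  have f1 := s1 (A ∩ cs H a) L1
  have f2 := s1 (B ∩ cs H b) L1
  have f3 := s1 (A ∩ cs H b) L2
  have f4 := s1 (B ∩ cs H a) L2
  -- the trivial subgroup
  have hbot : ∀ X : Finset G, X + fs (⊥ : AddSubgroup G) = X := by
    intro X
    ext x
    rw [mem_sat]
    constructor
    · rintro ⟨a, ha, h⟩
      rw [AddSubgroup.mem_bot, sub_eq_zero] at h
      exact h ▸ ha
    · intro hx
      exact ⟨x, hx, by simp⟩
  have g1 := two_coset (bot_le : ⊥ ≤ H) haU hbU hab
  have g2 := missed (A := A) (B := B) (bot_le : ⊥ ≤ H) a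
  have g3 := missed (A := A) (B := B) (bot_le : ⊥ ≤ H) b
  simp only [hbot] at g1 g2 g3
  omega

lemma St_sat {A B : Finset G} :
    (A + fs (St (A + B))) + (B + fs (St (A + B))) = A + B := by
  ext x
  constructor
  · intro hx
    obtain ⟨y, hy, z, hz, rfl⟩ := mem_add.1 hx
    obtain ⟨a, ha, hya⟩ := mem_sat.1 hy
    obtain ⟨b, hb, hzb⟩ := mem_sat.1 hz
    have h1 := (St (A + B)).add_mem hya hzb
    have h2 := (h1 (a + b)).2 (add_mem_add ha hb)
    have h3 : y - a + (z - b) + (a + b) = y + z := by abel
    rwa [h3] at h2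
  · intro hx
    obtain ⟨a, ha, b, hb, rfl⟩ := mem_add.1 hx
    exact add_mem_add (subset_sat _ _ ha) (subset_sat _ _ hb)

lemma sat_sat (A : Finset G) (H : AddSubgroup G) : A + fs H + fs H = A + fs H := by
  have : fs H + fs H = fs H := by
    ext x
    rw [mem_sat, mem_fs]
    constructor
    · rintro ⟨a, ha, hx⟩
      have := H.add_mem hx (mem_fs.1 ha)
      simpa using this
    · intro hx
      exact ⟨x, mem_fs.2 hx, by simp [H.zero_mem]⟩
  rw [add_assoc, this]

/-- periodic pairs, given the theorem for pairs with smaller sum sets -/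
lemma periodic_case (n : ℕ)
    (IH1 : ∀ A' B' : Finset G, A'.Nonempty → B'.Nonempty → (A' + B').card < n → Kn A' B') :
    ∀ m : ℕ, ∀ A B : Finset G, A.Nonempty → B.Nonempty → (A + B).card = n → A.card = m →
      A + fs (St (A + B)) = A → B + fs (St (A + B)) = B →
      A.card + B.card ≤ (A + B).card + (fs (St (A + B))).card := by
  classical
  intro m
  induction m using Nat.strong_induction_on with
  | _ m IH =>
  intro A B hA hB hn hm hpA hpB
  by_cases hone : ∀ a ∈ A, ∀ a' ∈ A, a' - a ∈ St (A + B)
  · -- A is one coset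
    obtain ⟨a, ha⟩ := hA
    have h1 : A ⊆ cs (St (A + B)) a := by
      intro x hx
      rw [mem_cs]
      exact hone a ha x hx
    have h2 := card_le_card h1
    rw [card_cs] at h2
    have h3 : B.card ≤ (A + B).card := by
      have h4 : B.image (a + ·) ⊆ A + B := by
        intro y hy
        obtain ⟨x, hx, rfl⟩ := mem_image.1 hy
        exact add_mem_add ha hx
      have h5 := card_le_card h4
      rwa [card_image_of_injective _ (add_right_injective a)] at h5
    omega
  push Not at hone
  obtain ⟨a, ha, a', ha', haa⟩ := hone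
  obtain ⟨b, hb, hb'⟩ : ∃ b ∈ B, (a' - a) + b ∉ B := by
    by_contra hcon
    push Not at hcon
    apply haa
    have h1 := mem_St_of hcon
    apply mem_St_of
    intro x hx
    obtain ⟨y, hy, z, hz, rfl⟩ := mem_add.1 hx
    have h2 := (h1 z).2 hz
    have h3 : a' - a + (y + z) = y + (a' - a + z) := by abel
    rw [h3]
    exact add_mem_add hy h2
  -- translate B
  set d : G := a - b with hd
  set B1 : Finset G := B.image (d + ·) with hB1
  have memB1 : ∀ x, x ∈ B1 ↔ x - d ∈ B := by
    intro x
    rw [hB1, mem_image]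
    constructor
    · rintro ⟨y, hy, rfl⟩
      simpa using hy
    · intro hx
      exact ⟨x - d, hx, by abel⟩
  have hB1card : B1.card = B.card := card_image_of_injective _ (add_right_injective d)
  have hsumB1 : A + B1 = (A + B).image (d + ·) := by
    ext x
    constructor
    · intro hx
      obtain ⟨y, hy, z, hz, rfl⟩ := mem_add.1 hx
      rw [memB1] at hz
      exact mem_image.2 ⟨y + (z - d), add_mem_add hy hz, by abel⟩
    · intro hx
      obtain ⟨w, hw, rfl⟩ := mem_image.1 hx
      obtain ⟨y, hy, z, hz, rfl⟩ := mem_add.1 hw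
      have h3 : d + (y + z) = y + (d + z) := by abel
      simp only [h3]
      exact add_mem_add hy ((memB1 _).2 (by simpa using hz))
  have hsumcard : (A + B1).card = (A + B).card := by
    rw [hsumB1]
    exact card_image_of_injective _ (add_right_injective d)
  have hSt : St (A + B1) = St (A + B) := by
    ext g
    rw [mem_St, mem_St, hsumB1]
    have hmem : ∀ x, x ∈ (A + B).image (d + ·) ↔ x - d ∈ A + B := by
      intro x
      rw [mem_image]
      constructor
      · rintro ⟨y, hy, rfl⟩
        simpa using hy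
      · intro hx
        exact ⟨x - d, hx, by abel⟩
    constructor
    · intro h x
      have h1 := h (x + d)
      rw [hmem, hmem] at h1
      simpa [← add_assoc] using h1
    · intro h x
      rw [hmem, hmem, ← h (x - d), add_sub_assoc]
  have hB1ne : B1.Nonempty := hB.image _
  -- the intersection and the union
  have haB1 : a ∈ B1 := by
    rw [memB1]
    simpa [hd] using hb
  have ha'B1 : a' ∉ B1 := by
    rw [memB1]
    intro h
    apply hb'
    have : a' - d = a' - a + b := by rw [hd]; abel
    rwa [this] at h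
  have hint : (A ∩ B1).Nonempty := ⟨a, mem_inter.2 ⟨ha, haB1⟩⟩
  have hun : (A ∪ B1).Nonempty := ⟨a, mem_union.2 (Or.inl ha)⟩
  have hlt : (A ∩ B1).card < m := by
    rw [← hm]
    apply card_lt_card
    refine ⟨inter_subset_left, fun h => ha'B1 (mem_inter.1 (h ha')).2⟩
  have hsub : (A ∩ B1) + (A ∪ B1) ⊆ A + B1 := by
    intro x hx
    obtain ⟨y, hy, z, hz, rfl⟩ := mem_add.1 hx
    rcases mem_union.1 hz with hz | hz
    · rw [add_comm y z]
      exact add_mem_add hz (mem_inter.1 hy).2
    · exact add_mem_add (mem_inter.1 hy).1 hz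
  have hpB1 : B1 + fs (St (A + B)) = B1 := by
    apply Subset.antisymm _ (subset_sat _ _)
    intro x hx
    obtain ⟨y, hy, hxy⟩ := mem_sat.1 hx
    rw [memB1] at hy ⊢
    rw [← hpB]
    refine mem_sat.2 ⟨y - d, hy, ?_⟩
    simpa using hxy
  -- the first convergent
  have hconv : ∃ C H, Conv (A + B1) (A ∪ B1) (A ∩ B1).card C H := by
    refine ⟨(A ∩ B1) + (A ∪ B1), St ((A ∩ B1) + (A ∪ B1)), hsub, ?_, ?_⟩
    · intro x hx h hh
      exact (hh x).2 hx
    · rcases (card_le_card hsub).lt_or_eq with hl | he
      · have hK := IH1 (A ∩ B1) (A ∪ B1) hint hun (by rw [hsumcard, hn] at hl; exact hl)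
        unfold Kn at hK
        have := card_le_card (subset_sat (A ∩ B1) (St ((A ∩ B1) + (A ∪ B1))))
        omega
      · have hC0 : (A ∩ B1) + (A ∪ B1) = A + B1 := eq_of_subset_of_card_le hsub he.ge
        have hp1 : A ∩ B1 + fs (St (A + B)) = A ∩ B1 := by
          apply Subset.antisymm _ (subset_sat _ _)
          intro x hx
          obtain ⟨y, hy, hxy⟩ := mem_sat.1 hx
          rw [mem_inter] at hy ⊢
          constructor
          · rw [← hpA]
            exact mem_sat.2 ⟨y, hy.1, hxy⟩
          · rw [← hpB1]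
            exact mem_sat.2 ⟨y, hy.2, hxy⟩
        have hp2 : (A ∪ B1) + fs (St (A + B)) = A ∪ B1 := by
          apply Subset.antisymm _ (subset_sat _ _)
          intro x hx
          obtain ⟨y, hy, hxy⟩ := mem_sat.1 hx
          rw [mem_union] at hy ⊢
          rcases hy with hy | hy
          · left
            rw [← hpA]
            exact mem_sat.2 ⟨y, hy, hxy⟩
          · right
            rw [← hpB1]
            exact mem_sat.2 ⟨y, hy, hxy⟩
        have hIH := IH _ hlt (A ∩ B1) (A ∪ B1) hint hun (by rw [hC0, hsumcard, hn]) rfl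
          (by rw [hC0, hSt]; exact hp1) (by rw [hC0, hSt]; exact hp2)
        have hp3 : (A ∪ B1) + fs (St ((A ∩ B1) + (A ∪ B1))) = A ∪ B1 := by
          rw [hC0, hSt]; exact hp2
        rw [hp3]
        exact hIH
  have := no_bad hint (by rw [hsumcard, hn]; exact IH1) hconv
  rw [hB1card, hsumcard, hSt] at this
  exact this

theorem kneser_Kn (A B : Finset G) (hA : A.Nonempty) (hB : B.Nonempty) : Kn A B := by
  classical
  have key : ∀ n : ℕ, ∀ A B : Finset G, A.Nonempty → B.Nonempty → (A + B).card = n → Kn A B := by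
    intro n
    induction n using Nat.strong_induction_on with
    | _ n IH =>
    intro A B hA hB hn
    have hs := St_sat (A := A) (B := B)
    have hne : ∀ (X : Finset G) (H : AddSubgroup G), X.Nonempty → (X + fs H).Nonempty :=
      fun X H h => h.mono (subset_sat X H)
    have h := periodic_case n (fun A' B' hA' hB' hlt => IH _ hlt A' B' hA' hB' rfl) _
      (A + fs (St (A + B))) (B + fs (St (A + B))) (hne _ _ hA) (hne _ _ hB)
      (by rw [hs, hn]) rfl (by rw [hs, sat_sat]) (by rw [hs, sat_sat])
    rw [hs] at h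
    exact h
  exact key _ A B hA hB rfl

/-- **Kneser's addition theorem** -/
theorem kneser_add (A B : Finset G) (hA : A.Nonempty) (hB : B.Nonempty) :
    ∃ (H : AddSubgroup G) (S : Finset G), (S : Set G) = H ∧ A + B + S = A + B ∧
      (A + S).card + (B + S).card ≤ (A + B).card + S.card := by
  refine ⟨St (A + B), fs (St (A + B)), ?_, ?_, kneser_Kn A B hA hB⟩
  · ext x
    simp
  · apply Subset.antisymm _ (subset_sat _ _)
    intro x hx
    obtain ⟨y, hy, hxy⟩ := mem_sat.1 hx
    have := (hxy y).2 hy
    rwa [sub_add_cancel] at this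

end Helper80Kneser
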