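import Mathlib

/-!
A small interface for complex `ℓ¹` spaces on an arbitrary index type:
coordinates, unit vectors, the norm as a sum, bounded families lift to bounded linear maps,
outer products.
-/

namespace H80

open scoped ENNReal

/-- `ℓ¹(ι)` with complex coefficients. -/
abbrev L1 (ι : Type) : Type := lp (fun _ : ι => ℂ) 1

namespace L1

variable {ι : Type}

theorem one_toReal_pos : (0 : ℝ) < (1 : ℝ≥0∞).toReal := by simp

theorem hasSum_norm (f : L1 ι) : HasSum (fun i => ‖f i‖) ‖f‖ := by
  have h := lp.hasSum_norm one_toReal_pos f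
  simpa using h

theorem summable_norm (f : L1 ι) : Summable (fun i => ‖f i‖) := (hasSum_norm f).summable

theorem norm_eq (f : L1 ι) : ‖f‖ = ∑' i, ‖f i‖ := (hasSum_norm f).tsum_eq.symm

theorem summable (f : L1 ι) : Summable (fun i => f i) := (summable_norm f).of_norm

theorem norm_apply_le (f : L1 ι) (i : ι) : ‖f i‖ ≤ ‖f‖ :=
  lp.norm_apply_le_norm one_ne_zero f i

@[simp] theorem add_apply (f g : L1 ι) (i : ι) : (f + g) i = f i + g i := rfl
@[simp] theorem sub_apply (f g : L1 ι) (i : ι) : (f - g) i = f i - g i := rfl
@[simp] theorem neg_apply (f : L1 ι) (i : ι) : (-f) i = -(f i) := rfl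
@[simp] theorem zero_apply (i : ι) : (0 : L1 ι) i = 0 := rfl
@[simp] theorem smul_apply (c : ℂ) (f : L1 ι) (i : ι) : (c • f) i = c * f i := rfl

theorem ext' {f g : L1 ι} (h : ∀ i, f i = g i) : f = g := lp.ext (funext h)

/-- An absolutely summable function as an element of `ℓ¹`. -/
noncomputable def mk (f : ι → ℂ) (h : Summable (fun i => ‖f i‖)) : L1 ι :=
  ⟨f, memℓp_gen (by simpa using h)⟩

@[simp] theorem mk_apply (f : ι → ℂ) (h : Summable (fun i => ‖f i‖)) (i : ι) : mk f h i = f i := rfl

/-- Unit vector. -/
noncomputable def single (i : ι) : L1 ι :=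
  letI := Classical.decEq ι
  lp.single 1 i (1 : ℂ)

theorem single_apply_self (i : ι) : single i i = 1 := by
  classical
  unfold single
  simp

theorem single_apply_ne {i j : ι} (h : j ≠ i) : single i j = 0 := by
  classical
  unfold single
  simp [h]

theorem norm_single (i : ι) : ‖single i‖ = 1 := by
  classical
  unfold single
  rw [lp.norm_single (by norm_num)]
  simp

theorem hasSum_single (f : L1 ι) : HasSum (fun i => f i • single i) f := by
  classical
  have h := lp.hasSum_single (p := 1) (by norm_num) f
  convert h using 2 with i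
  apply ext'
  intro j
  unfold single
  by_cases hij : j = i
  · subst hij; simp
  · simp [hij]

section lift

variable {V : Type} [NormedAddCommGroup V] [NormedSpace ℂ V]

theorem summable_lift (b : ι → V) (C : ℝ) (hb : ∀ i, ‖b i‖ ≤ C) (f : L1 ι) :
    Summable (fun i => ‖f i • b i‖) := by
  refine Summable.of_nonneg_of_le (fun _ => norm_nonneg _) (fun i => ?_)
    ((summable_norm f).mul_right C)
  rw [norm_smul]
  exact mul_le_mul_of_nonneg_left (hb i) (norm_nonneg _)

/-- Two bounded linear maps that agree on unit vectors are equal. -/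
theorem clm_ext {S T : L1 ι →L[ℂ] V} (h : ∀ i, S (single i) = T (single i)) : S = T := by
  ext f
  have h1 := (hasSum_single f).mapL S
  have h2 := (hasSum_single f).mapL T
  simp only [map_smul, h] at h1 h2
  exact h1.unique h2

variable [CompleteSpace V]

/-- The bounded linear map `ℓ¹(ι) → V` given by a bounded family of vectors. -/
noncomputable def lift (b : ι → V) (C : ℝ) (hb : ∀ i, ‖b i‖ ≤ C) : L1 ι →L[ℂ] V :=
  LinearMap.mkContinuous
    { toFun := fun f => ∑' i, f i • b i
      map_add' := by
        intro f g
        rw [← ((summable_lift b C hb f).of_norm).tsum_add ((summable_lift b C hb g).of_norm)]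
        simp only [add_apply, add_smul]
      map_smul' := by
        intro c f
        simp only [smul_apply, mul_smul, RingHom.id_apply]
        exact ((summable_lift b C hb f).of_norm).tsum_const_smul c }
    C
    (by
      intro f
      simp only [LinearMap.coe_mk, AddHom.coe_mk]
      calc ‖∑' i, f i • b i‖ ≤ ∑' i, ‖f i • b i‖ := norm_tsum_le_tsum_norm (summable_lift b C hb f)
        _ ≤ ∑' i, ‖f i‖ * C := by
          refine (summable_lift b C hb f).tsum_le_tsum (fun i => ?_)
            ((summable_norm f).mul_right C)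
          rw [norm_smul]
          exact mul_le_mul_of_nonneg_left (hb i) (norm_nonneg _)
        _ = C * ‖f‖ := by rw [tsum_mul_right, norm_eq, mul_comm])

variable (b : ι → V) (C : ℝ) (hb : ∀ i, ‖b i‖ ≤ C)

theorem lift_eq (f : L1 ι) : lift b C hb f = ∑' i, f i • b i := rfl

theorem hasSum_lift (f : L1 ι) : HasSum (fun i => f i • b i) (lift b C hb f) :=
  ((summable_lift b C hb f).of_norm).hasSum

theorem norm_lift_le (f : L1 ι) : ‖lift b C hb f‖ ≤ C * ‖f‖ := by
  rw [lift_eq]
  calc ‖∑' i, f i • b i‖ ≤ ∑' i, ‖f i • b i‖ := norm_tsum_le_tsum_norm (summable_lift b C hb f)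
      _ ≤ ∑' i, ‖f i‖ * C := by
        refine (summable_lift b C hb f).tsum_le_tsum (fun i => ?_)
          ((summable_norm f).mul_right C)
        rw [norm_smul]
        exact mul_le_mul_of_nonneg_left (hb i) (norm_nonneg _)
      _ = C * ‖f‖ := by rw [tsum_mul_right, norm_eq, mul_comm]

@[simp] theorem lift_single (i : ι) : lift b C hb (single i) = b i := by
  rw [lift_eq, tsum_eq_single i]
  · rw [single_apply_self, one_smul]
  · intro j hj
    rw [single_apply_ne hj, zero_smul]

end lift

/-- Coordinate functional. -/
noncomputable def ev (i : ι) : L1 ι →L[ℂ] ℂ :=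
  LinearMap.mkContinuous
    { toFun := fun f => f i
      map_add' := fun _ _ => rfl
      map_smul' := fun _ _ => rfl } 1 (by
        intro f
        rw [one_mul]
        exact norm_apply_le f i)

@[simp] theorem ev_apply (i : ι) (f : L1 ι) : ev i f = f i := rfl

/-- Restriction of the support to a set. -/
noncomputable def restr (S : Set ι) : L1 ι →L[ℂ] L1 ι :=
  letI := Classical.decPred (· ∈ S)
  lift (fun i => if i ∈ S then single i else 0) 1 (by
    intro i
    split_ifs
    · rw [norm_single]
    · simp)

theorem lift_apply {κ : Type} (b : ι → L1 κ) (C : ℝ) (hb : ∀ i, ‖b i‖ ≤ C) (f : L1 ι) (k : κ) :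
    lift b C hb f k = ∑' i, f i * b i k := by
  have h := (hasSum_lift b C hb f).mapL (ev k)
  simp only [ev_apply, smul_apply] at h
  exact h.tsum_eq.symm

theorem restr_apply_mem {S : Set ι} {i : ι} (h : i ∈ S) (f : L1 ι) : restr S f i = f i := by
  classical
  unfold restr
  rw [lift_apply, tsum_eq_single i]
  · simp [h, single_apply_self]
  · intro j hj
    by_cases hS : j ∈ S
    · simp [hS, single_apply_ne hj.symm]
    · simp [hS]

theorem restr_apply_notMem {S : Set ι} {i : ι} (h : i ∉ S) (f : L1 ι) : restr S f i = 0 := by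
  classical
  unfold restr
  rw [lift_apply]
  convert tsum_zero with j
  by_cases hS : j ∈ S
  · have : i ≠ j := fun e => h (e ▸ hS)
    simp [hS, single_apply_ne this]
  · simp [hS]

theorem restr_single_mem {S : Set ι} {i : ι} (h : i ∈ S) : restr S (single i) = single i := by
  classical
  unfold restr
  rw [lift_single]
  simp [h]

theorem restr_single_notMem {S : Set ι} {i : ι} (h : i ∉ S) : restr S (single i) = 0 := by
  classical
  unfold restr
  rw [lift_single]
  simp [h]

section outer

variable {κ : Type}

/-- The outer product `ℓ¹(ι) × ℓ¹(κ) → ℓ¹(ι × κ)` as a bounded bilinear map. -/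
noncomputable def outer (ι κ : Type) : L1 ι →L[ℂ] L1 κ →L[ℂ] L1 (ι × κ) :=
  lift (fun i => lift (fun j => single (i, j)) 1 (fun j => (norm_single (i, j)).le)) 1 (by
    intro i
    refine ContinuousLinearMap.opNorm_le_bound _ zero_le_one (fun f => ?_)
    exact norm_lift_le _ _ _ f)

theorem outer_apply_apply (e : L1 ι) (y : L1 κ) (i : ι) (j : κ) :
    outer ι κ e y (i, j) = e i * y j := by
  have h1 := hasSum_lift (fun i : ι => lift (fun j : κ => single (i, j)) 1
    (fun j => (norm_single (i, j)).le)) 1 (by
      intro i
      refine ContinuousLinearMap.opNorm_le_bound _ zero_le_one (fun f => ?_)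
      exact norm_lift_le _ _ _ f) e
  have h2 := h1.mapL (((ev (i, j)) : L1 (ι × κ) →L[ℂ] ℂ).comp
    (ContinuousLinearMap.apply ℂ (L1 (ι × κ)) y))
  simp only [ContinuousLinearMap.comp_apply, ContinuousLinearMap.apply_apply, ev_apply,
    _root_.smul_apply, smul_apply] at h2
  have h3 : outer ι κ e y (i, j) = ∑' b, e b * (lift (fun j : κ => single (b, j)) 1
    (fun j => (norm_single (b, j)).le) y) (i, j) := h2.tsum_eq.symm
  rw [h3, tsum_eq_single i]
  · congr 1
    rw [lift_apply, tsum_eq_single j]
    · rw [single_apply_self, mul_one]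
    · intro k hk
      rw [single_apply_ne, mul_zero]
      intro e
      exact hk (Prod.ext_iff.1 e).2.symm
  · intro k hk
    rw [lift_apply]
    have : ∀ l, y l * (single (k, l) : L1 (ι × κ)) (i, j) = 0 := by
      intro l
      rw [single_apply_ne, mul_zero]
      intro e
      exact hk (Prod.ext_iff.1 e).1.symm
    simp only [this, tsum_zero, mul_zero]

theorem norm_outer (e : L1 ι) (y : L1 κ) : ‖outer ι κ e y‖ = ‖e‖ * ‖y‖ := by
  rw [norm_eq, norm_eq, norm_eq]
  rw [tsum_mul_tsum_of_summable_norm (f := fun i => ‖e i‖) (g := fun j => ‖y j‖)]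
  · refine tsum_congr (fun p => ?_)
    obtain ⟨i, j⟩ := p
    rw [outer_apply_apply, norm_mul]
  · simpa using summable_norm e
  · simpa using summable_norm y

theorem outer_single_single (i : ι) (j : κ) :
    outer ι κ (single i) (single j) = single (i, j) := by
  unfold outer
  rw [lift_single, lift_single]

/-- The diagonal part of a matrix. -/
noncomputable def diag (ι : Type) : L1 (ι × ι) →L[ℂ] L1 ι :=
  letI := Classical.decEq ι
  lift (fun p => if p.1 = p.2 then single p.1 else 0) 1 (by
    intro i
    split_ifs
    · rw [norm_single]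
    · simp)

theorem diag_apply (u : L1 (ι × ι)) (i : ι) : diag ι u i = u (i, i) := by
  classical
  unfold diag
  rw [lift_apply, tsum_eq_single (i, i)]
  · simp [single_apply_self]
  · rintro ⟨j, k⟩ hj
    by_cases hjk : j = k
    · subst hjk
      have : i ≠ j := by
        rintro rfl
        exact hj rfl
      simp [single_apply_ne this]
    · simp [hjk]

end outer

end L1

end H80
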