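import Mathlib

/-!
Complete norms on complex vector spaces as real functions, with the closed graph theorem,
comparison of complete norms, the Hahn-Banach theorem and transfer to complemented pieces.
-/

namespace H80

open Filter Topology

/-- A complete norm on a complex vector space, as a real function. -/
structure IsCNorm {V : Type*} [AddCommGroup V] [Module ℂ V] (ν : V → ℝ) : Prop where
  eq_zero : ∀ x : V, ν x = 0 → x = 0
  smul : ∀ (c : ℂ) (x : V), ν (c • x) = ‖c‖ * ν x
  add_le : ∀ x y : V, ν (x + y) ≤ ν x + ν y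
  complete : ∀ u : ℕ → V,
    (∀ ε : ℝ, 0 < ε → ∃ n : ℕ, ∀ i, n ≤ i → ∀ j, n ≤ j → ν (u i - u j) < ε) →
    ∃ x : V, ∀ ε : ℝ, 0 < ε → ∃ n : ℕ, ∀ i, n ≤ i → ν (u i - x) < ε

namespace IsCNorm

section basic

variable {V : Type*} [AddCommGroup V] [Module ℂ V] {ν : V → ℝ} (hν : IsCNorm ν)
include hν

theorem zero : ν 0 = 0 := by
  have := hν.smul 0 0
  simpa using this

theorem neg (x : V) : ν (-x) = ν x := by
  have := hν.smul (-1) x
  simpa using this

theorem nonneg (x : V) : 0 ≤ ν x := by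
  have h1 := hν.add_le x (-x)
  rw [add_neg_cancel, hν.zero, hν.neg] at h1
  linarith

theorem sub_comm (x y : V) : ν (x - y) = ν (y - x) := by
  rw [← hν.neg, neg_sub]

theorem sub_le (x y : V) : ν (x - y) ≤ ν x + ν y := by
  have := hν.add_le x (-y)
  rwa [hν.neg, ← sub_eq_add_neg] at this

theorem pos {x : V} (hx : x ≠ 0) : 0 < ν x :=
  lt_of_le_of_ne (hν.nonneg x) (fun h => hx (hν.eq_zero x h.symm))

/-- The norm as a structure. -/
@[reducible] def toNorm (_ : IsCNorm ν) : Norm V := ⟨ν⟩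

theorem core : @NormedSpace.Core ℂ V _ _ _ hν.toNorm :=
  letI := hν.toNorm
  { norm_nonneg := hν.nonneg
    norm_smul := hν.smul
    norm_triangle := hν.add_le
    norm_eq_zero_iff := fun x => ⟨hν.eq_zero x, fun h => by rw [h]; exact hν.zero⟩ }

/-- The normed group. -/
@[reducible] noncomputable def nacg : NormedAddCommGroup V :=
  letI := hν.toNorm
  NormedAddCommGroup.ofCore hν.core

/-- The normed space. -/
@[reducible] noncomputable def nspace :
    @NormedSpace ℂ V _ hν.nacg.toSeminormedAddCommGroup :=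
  letI := hν.nacg
  { norm_smul_le := fun c x => (hν.smul c x).le }

theorem completeSpace : @CompleteSpace V hν.nacg.toPseudoMetricSpace.toUniformSpace := by
  let := hν.nacg
  apply Metric.complete_of_cauchySeq_tendsto
  intro u hu
  obtain ⟨x, hx⟩ := hν.complete u (by
    intro ε hε
    obtain ⟨n, hn⟩ := Metric.cauchySeq_iff.1 hu ε hε
    refine ⟨n, fun i hi j hj => ?_⟩
    have := hn i hi j hj
    rw [dist_eq_norm] at this
    exact this)
  refine ⟨x, ?_⟩
  rw [Metric.tendsto_atTop]
  intro ε hε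
  obtain ⟨n, hn⟩ := hx ε hε
  refine ⟨n, fun i hi => ?_⟩
  rw [dist_eq_norm]
  exact hn i hi

end basic

section two

variable {V W : Type*} [AddCommGroup V] [Module ℂ V] [AddCommGroup W] [Module ℂ W]
  {ν : V → ℝ} {μ : W → ℝ}

/-- The closed graph theorem. -/
theorem closed_graph (hν : IsCNorm ν) (hμ : IsCNorm μ) (T : V →ₗ[ℂ] W)
    (hcl : ∀ (u : ℕ → V) (w : W), Tendsto (fun n => ν (u n)) atTop (𝓝 0) →
      Tendsto (fun n => μ (T (u n) - w)) atTop (𝓝 0) → w = 0) :
    ∃ K : ℝ, 0 < K ∧ ∀ v, μ (T v) ≤ K * ν v := by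
  let := hν.nacg
  let := hν.nspace
  have := hν.completeSpace
  let := hμ.nacg
  let := hμ.nspace
  have := hμ.completeSpace
  have hcont : Continuous T := by
    apply T.continuous_of_seq_closed_graph
    intro u x y hu hy
    have h1 := hcl (fun n => u n - x) (y - T x) (by
      have := (tendsto_iff_norm_sub_tendsto_zero).1 hu
      exact this) (by
      have := (tendsto_iff_norm_sub_tendsto_zero).1 hy
      refine this.congr (fun n => ?_)
      change μ _ = μ _
      congr 1
      rw [map_sub, Function.comp]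
      abel)
    exact sub_eq_zero.1 h1
  obtain ⟨K, hK, h⟩ := (⟨T, hcont⟩ : V →L[ℂ] W).bound
  exact ⟨K, hK, h⟩

end two

section one

variable {V : Type*} [AddCommGroup V] [Module ℂ V] {ν μ : V → ℝ}

/-- Two comparable complete norms are equivalent. -/
theorem equiv_of_le (hν : IsCNorm ν) (hμ : IsCNorm μ) {K : ℝ} (h : ∀ v, ν v ≤ K * μ v) :
    ∃ K' : ℝ, 0 < K' ∧ ∀ v, μ v ≤ K' * ν v := by
  refine closed_graph hν hμ LinearMap.id (fun u w hu hw => ?_)
  have h1 : Tendsto (fun n => ν (u n) + K * μ (u n - w)) atTop (𝓝 (0 + K * 0)) :=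
    hu.add (hw.const_mul K)
  have h2 : ν w ≤ 0 + K * 0 := by
    refine ge_of_tendsto' h1 (fun n => ?_)
    have h3 : w = u n - (u n - w) := by abel
    calc ν w = ν (u n - (u n - w)) := by rw [← h3]
      _ ≤ ν (u n) + ν (u n - w) := hν.sub_le _ _
      _ ≤ ν (u n) + K * μ (u n - w) := by linarith [h (u n - w)]
  apply hν.eq_zero
  have := hν.nonneg w
  linarith

/-- The Hahn-Banach theorem. -/
theorem exists_functional (hν : IsCNorm ν) {z : V} (hz : z ≠ 0) :
    ∃ ψ : V →ₗ[ℂ] ℂ, ψ z = 1 ∧ ∃ K : ℝ, 0 < K ∧ ∀ v, ‖ψ v‖ ≤ K * ν v := by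
  let := hν.nacg
  let := hν.nspace
  have hz' : ‖z‖ ≠ 0 := (hν.pos hz).ne'
  obtain ⟨g, -, hg⟩ := exists_dual_vector ℂ z hz'
  refine ⟨((‖z‖ : ℂ)⁻¹ • g : V →L[ℂ] ℂ), ?_, ?_⟩
  · change (‖z‖ : ℂ)⁻¹ • g z = 1
    rw [hg, smul_eq_mul]
    exact inv_mul_cancel₀ (by exact_mod_cast hz')
  · obtain ⟨K, hK, h⟩ := ((‖z‖ : ℂ)⁻¹ • g : V →L[ℂ] ℂ).bound
    exact ⟨K, hK, h⟩

end one

/-- The norm of a Banach space. -/
theorem of_banach (V : Type*) [NormedAddCommGroup V] [NormedSpace ℂ V] [CompleteSpace V] :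
    IsCNorm (fun v : V => ‖v‖) where
  eq_zero := fun _ h => norm_eq_zero.1 h
  smul := norm_smul
  add_le := norm_add_le
  complete := by
    intro u hu
    have hc : CauchySeq u := by
      rw [Metric.cauchySeq_iff]
      intro ε hε
      obtain ⟨n, hn⟩ := hu ε hε
      refine ⟨n, fun i hi j hj => ?_⟩
      rw [dist_eq_norm]
      exact hn i hi j hj
    obtain ⟨x, hx⟩ := cauchySeq_tendsto_of_complete hc
    refine ⟨x, fun ε hε => ?_⟩
    obtain ⟨n, hn⟩ := Metric.tendsto_atTop.1 hx ε hε
    refine ⟨n, fun i hi => ?_⟩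
    have := hn i hi
    rw [dist_eq_norm] at this
    exact this

section transfer

variable {V W : Type*} [AddCommGroup V] [Module ℂ V] [AddCommGroup W] [Module ℂ W]

/-- Pull back of a complete norm along a bijective linear map. -/
theorem comp_bij {μ : W → ℝ} (hμ : IsCNorm μ) (φ : V →ₗ[ℂ] W) (hφ : Function.Bijective φ) :
    IsCNorm (fun v => μ (φ v)) where
  eq_zero := fun x h => by
    have h1 := hμ.eq_zero _ h
    apply hφ.1
    rw [h1, map_zero]
  smul := fun c x => by rw [map_smul, hμ.smul]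
  add_le := fun x y => by rw [map_add]; exact hμ.add_le _ _
  complete := by
    intro u hu
    obtain ⟨y, hy⟩ := hμ.complete (fun n => φ (u n)) (by simpa using hu)
    obtain ⟨x, rfl⟩ := hφ.2 y
    refine ⟨x, ?_⟩
    simpa using hy

/-- The sum of two complete norms on a product. -/
theorem prod {ν : V → ℝ} {μ : W → ℝ} (hν : IsCNorm ν) (hμ : IsCNorm μ) :
    IsCNorm (fun v : V × W => ν v.1 + μ v.2) where
  eq_zero := fun x h => by
    have h1 := hν.nonneg x.1
    have h2 := hμ.nonneg x.2
    exact Prod.ext (hν.eq_zero _ (by linarith)) (hμ.eq_zero _ (by linarith))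
  smul := fun c x => by
    rw [Prod.smul_fst, Prod.smul_snd, hν.smul, hμ.smul]; ring
  add_le := fun x y => by
    rw [Prod.fst_add, Prod.snd_add]
    linarith [hν.add_le x.1 y.1, hμ.add_le x.2 y.2]
  complete := by
    intro u hu
    obtain ⟨x, hx⟩ := hν.complete (fun n => (u n).1) (by
      intro ε hε
      obtain ⟨n, hn⟩ := hu ε hε
      refine ⟨n, fun i hi j hj => ?_⟩
      have h1 := hn i hi j hj
      have h2 := hμ.nonneg (u i - u j).2
      rw [Prod.fst_sub] at h1
      linarith)
    obtain ⟨y, hy⟩ := hμ.complete (fun n => (u n).2) (by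
      intro ε hε
      obtain ⟨n, hn⟩ := hu ε hε
      refine ⟨n, fun i hi j hj => ?_⟩
      have h1 := hn i hi j hj
      have h2 := hν.nonneg (u i - u j).1
      rw [Prod.snd_sub] at h1
      linarith)
    refine ⟨(x, y), fun ε hε => ?_⟩
    obtain ⟨n, hn⟩ := hx (ε / 2) (by linarith)
    obtain ⟨m, hm⟩ := hy (ε / 2) (by linarith)
    refine ⟨max n m, fun i hi => ?_⟩
    have h1 := hn i ((le_max_left _ _).trans hi)
    have h2 := hm i ((le_max_right _ _).trans hi)
    rw [Prod.fst_sub, Prod.snd_sub]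
    simp only
    linarith

/-- A positive multiple of a complete norm. -/
theorem const_mul {ν : V → ℝ} (hν : IsCNorm ν) {K : ℝ} (hK : 0 < K) :
    IsCNorm (fun v : V => K * ν v) where
  eq_zero := fun x h => by
    apply hν.eq_zero
    rcases mul_eq_zero.1 h with h | h
    · exact absurd h hK.ne'
    · exact h
  smul := fun c x => by rw [hν.smul]; ring
  add_le := fun x y => by
    rw [← mul_add]
    exact mul_le_mul_of_nonneg_left (hν.add_le x y) hK.le
  complete := by
    intro u hu
    obtain ⟨x, hx⟩ := hν.complete u (by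
      intro ε hε
      obtain ⟨n, hn⟩ := hu (K * ε) (mul_pos hK hε)
      refine ⟨n, fun i hi j hj => ?_⟩
      exact lt_of_mul_lt_mul_left (hn i hi j hj) hK.le)
    refine ⟨x, fun ε hε => ?_⟩
    obtain ⟨n, hn⟩ := hx (ε / K) (div_pos hε hK)
    refine ⟨n, fun i hi => ?_⟩
    have := mul_lt_mul_of_pos_left (hn i hi) hK
    rwa [mul_div_cancel₀ _ hK.ne'] at this

/-- Restriction of a complete norm to a piece that is the fixed space of a bounded map. -/
theorem restrict {ν : V → ℝ} (hν : IsCNorm ν) (ι : W →ₗ[ℂ] V) (hι : Function.Injective ι)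
    (P : V → V) (K : ℝ) (hP : ∀ x y, ν (P x - P y) ≤ K * ν (x - y))
    (hP1 : ∀ w, P (ι w) = ι w) (hP2 : ∀ x, P x = x → ∃ w, ι w = x) :
    IsCNorm (fun w => ν (ι w)) where
  eq_zero := fun x h => hι (by rw [hν.eq_zero _ h, map_zero])
  smul := fun c x => by rw [map_smul, hν.smul]
  add_le := fun x y => by rw [map_add]; exact hν.add_le _ _
  complete := by
    intro u hu
    obtain ⟨x, hx⟩ := hν.complete (fun n => ι (u n)) (by simpa using hu)
    have hPx : P x = x := by
      by_contra hne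
      have hpos : 0 < ν (P x - x) := hν.pos (sub_ne_zero.2 hne)
      obtain ⟨n, hn⟩ := hx (ν (P x - x) / (2 * (|K| + 1))) (by positivity)
      have h1 := hn n le_rfl
      have h2 : ν (P x - x) ≤ (|K| + 1) * ν (ι (u n) - x) := by
        have e : P x - x = (P x - P (ι (u n))) + (ι (u n) - x) := by rw [hP1]; abel
        calc ν (P x - x) = ν ((P x - P (ι (u n))) + (ι (u n) - x)) := by rw [← e]
          _ ≤ ν (P x - P (ι (u n))) + ν (ι (u n) - x) := hν.add_le _ _
          _ ≤ |K| * ν (ι (u n) - x) + ν (ι (u n) - x) := by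
            have h3 := hP x (ι (u n))
            rw [hν.sub_comm x] at h3
            have h4 := mul_le_mul_of_nonneg_right (le_abs_self K) (hν.nonneg (ι (u n) - x))
            linarith
          _ = (|K| + 1) * ν (ι (u n) - x) := by ring
      have h5 : (|K| + 1) * ν (ι (u n) - x) < (|K| + 1) * (ν (P x - x) / (2 * (|K| + 1))) :=
        mul_lt_mul_of_pos_left h1 (by positivity)
      have h6 : (|K| + 1) * (ν (P x - x) / (2 * (|K| + 1))) = ν (P x - x) / 2 := by
        have : (|K| + 1) ≠ 0 := by positivity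
        field_simp
      linarith
    obtain ⟨w, rfl⟩ := hP2 x hPx
    refine ⟨w, ?_⟩
    simpa using hx

end transfer

end IsCNorm

end H80
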