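import Mathlib

/-!
Banach algebra norms on a complex algebra, their equivalence, and the number of
equivalence classes.
-/

namespace H80

/-- `IsBanachAlgNorm A ν`: the function `ν : A → ℝ` is a Banach algebra norm on the complex
associative algebra `A` (not assumed commutative or unital), i.e. it is a norm, it is
submultiplicative, and every `ν`-Cauchy sequence of `A` converges for `ν`. -/
structure IsBanachAlgNorm (A : Type*) [NonUnitalRing A] [Module ℂ A] (ν : A → ℝ) : Prop where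
  eq_zero : ∀ x : A, ν x = 0 → x = 0
  smul : ∀ (c : ℂ) (x : A), ν (c • x) = ‖c‖ * ν x
  add_le : ∀ x y : A, ν (x + y) ≤ ν x + ν y
  mul_le : ∀ x y : A, ν (x * y) ≤ ν x * ν y
  complete : ∀ u : ℕ → A,
    (∀ ε : ℝ, 0 < ε → ∃ n : ℕ, ∀ i, n ≤ i → ∀ j, n ≤ j → ν (u i - u j) < ε) →
    ∃ x : A, ∀ ε : ℝ, 0 < ε → ∃ n : ℕ, ∀ i, n ≤ i → ν (u i - x) < ε

/-- Equivalence of two norms: `c ν ≤ μ ≤ C ν` for some constants `0 < c ≤ C`. -/
def NormEquiv {A : Type*} (ν μ : A → ℝ) : Prop :=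
  ∃ c C : ℝ, 0 < c ∧ c ≤ C ∧ ∀ x, c * ν x ≤ μ x ∧ μ x ≤ C * ν x

theorem NormEquiv.symm {A : Type*} {ν μ : A → ℝ} (h : NormEquiv ν μ) : NormEquiv μ ν := by
  obtain ⟨c, C, hc, hC, h⟩ := h
  have hC' : 0 < C := lt_of_lt_of_le hc hC
  refine ⟨C⁻¹, c⁻¹, inv_pos.2 hC', inv_anti₀ hc hC, fun x => ⟨?_, ?_⟩⟩
  · rw [inv_mul_le_iff₀ hC']; exact (h x).2
  · rw [inv_mul_eq_div, le_div_iff₀ hc, mul_comm]; exact (h x).1

theorem NormEquiv.trans {A : Type*} {ν μ ρ : A → ℝ} (h : NormEquiv ν μ) (h' : NormEquiv μ ρ) :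
    NormEquiv ν ρ := by
  obtain ⟨c, C, hc, hC, h⟩ := h
  obtain ⟨d, D, hd, hD, h'⟩ := h'
  refine ⟨d * c, D * C, mul_pos hd hc, mul_le_mul hD hC hc.le (hd.le.trans hD), fun x => ⟨?_, ?_⟩⟩
  · calc d * c * ν x = d * (c * ν x) := by ring
      _ ≤ d * μ x := mul_le_mul_of_nonneg_left (h x).1 hd.le
      _ ≤ ρ x := (h' x).1
  · calc ρ x ≤ D * μ x := (h' x).2
      _ ≤ D * (C * ν x) := mul_le_mul_of_nonneg_left (h x).2 (hd.le.trans hD)
      _ = D * C * ν x := by ring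

/-- The equivalence relation on the Banach algebra norms of `A`. -/
def normSetoid (A : Type*) [NonUnitalRing A] [Module ℂ A] :
    Setoid {ν : A → ℝ // IsBanachAlgNorm A ν} where
  r ν μ := NormEquiv ν.1 μ.1
  iseqv :=
    { refl := fun _ => ⟨1, 1, one_pos, le_rfl, fun _ => by simp⟩
      symm := fun h => h.symm
      trans := fun h h' => h.trans h' }

/-- The number `N(A)` of equivalence classes of Banach algebra norms on `A`, an element of
`{0, 1, 2, …, ∞}`. -/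
noncomputable def numNorms (A : Type*) [NonUnitalRing A] [Module ℂ A] : ℕ∞ :=
  ENat.card (Quotient (normSetoid A))

end H80
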