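import Pool.Agent.Lib_helper80.TNKey
import Pool.Agent.Lib_helper80.TNDefs
import Pool.Agent.Lib_helper80.TNBanach

/-!
The algebra of the construction: upper triangular `4 × 4` matrices with entries in various
modules.
-/

namespace H80

open Idx L1 TensorProduct

/-- The last component of the big space. -/
noncomputable def sndsnd : Big →L[ℂ] L1 (Idx × Idx) :=
  (ContinuousLinearMap.snd ℂ (L1 ℕ) (L1 (Idx × Idx))).comp
    (ContinuousLinearMap.snd ℂ (L1 ℕ) (L1 ℕ × L1 (Idx × Idx)))

theorem sndsnd_apply (v : Big) : sndsnd v = v.2.2 := rfl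

/-- The bounded bilinear map underlying the action. -/
noncomputable def beta : L1 Idx →L[ℂ] L1 Idx →L[ℂ] L1 (Idx × Idx) :=
  ((ContinuousLinearMap.compL ℂ (L1 Idx) (L1 (Idx × Idx)) (L1 (Idx × Idx)))
    (sndsnd.comp (BJ JJ))).comp (outer Idx Idx)

theorem beta_apply (e y : L1 Idx) : beta e y = (BJ JJ (outer Idx Idx e y)).2.2 := rfl

/-- The value of the action in the big space. -/
noncomputable def actv (e : L1 Idx) (f : L1 Idx × ℂ) : Big :=
  BJ JJ (outer Idx Idx e f.1) + (f.2 • kp e, (f.2 - aL f.1) • kq e, 0)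

theorem actv_mem (e : L1 Idx) (f : L1 Idx × ℂ) : actv e f ∈ NN := by
  have h : actv e f = Ph JJ (e ⊗ₜ f.1) + f.2 • ((kp e, kq e, 0) : Big) := by
    rw [Ph_apply, mat_tmul, ida_tmul]
    unfold actv
    refine Prod.ext ?_ (Prod.ext ?_ ?_)
    · simp
    · change (BJ JJ (outer Idx Idx e f.1)).2.1 + (f.2 - aL f.1) • kq e =
        (BJ JJ (outer Idx Idx e f.1)).2.1 - kq (aL f.1 • e) + f.2 • kq e
      rw [map_smul, sub_smul]
      abel
    · simp
  rw [h]
  refine NN.add_mem (Ph_mem_NN _) (NN.smul_mem _ (SD_le_NN ?_))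
  exact ⟨(TT_kp e).symm, rfl⟩

/-- The module of the construction as a type. -/
abbrev NT : Type := ↥NN

/-- The action. -/
noncomputable def act : L1 Idx →ₗ[ℂ] (L1 Idx × ℂ) →ₗ[ℂ] NT :=
  LinearMap.mk₂ ℂ (fun e f => ⟨actv e f, actv_mem e f⟩)
    (by
      intro e e' f
      apply Subtype.ext
      change actv (e + e') f = actv e f + actv e' f
      unfold actv
      simp only [map_add, smul_add]
      refine Prod.ext ?_ (Prod.ext ?_ ?_)
      · simp; abel
      · simp; abel
      · simp)
    (by
      intro c e f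
      apply Subtype.ext
      change actv (c • e) f = c • actv e f
      unfold actv
      simp only [map_smul, _root_.smul_apply, smul_add]
      refine Prod.ext ?_ (Prod.ext ?_ ?_)
      · simp [smul_smul, mul_comm]
      · simp [smul_smul, mul_comm]
      · simp)
    (by
      intro e f f'
      apply Subtype.ext
      change actv e (f + f') = actv e f + actv e f'
      unfold actv
      refine Prod.ext ?_ (Prod.ext ?_ ?_)
      · simp [add_smul]; abel
      · simp [add_smul, sub_smul]; abel
      · simp)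
    (by
      intro c e f
      apply Subtype.ext
      change actv e (c • f) = c • actv e f
      unfold actv
      refine Prod.ext ?_ (Prod.ext ?_ ?_)
      · simp [smul_smul]
      · simp [smul_smul, sub_smul, smul_sub]
      · simp)

theorem act_coe (e : L1 Idx) (f : L1 Idx × ℂ) : ((act e f : NT) : Big) = actv e f := rfl

/-- The last component of an element of the module. -/
noncomputable def piN : NT →ₗ[ℂ] L1 (Idx × Idx) :=
  (sndsnd : Big →ₗ[ℂ] L1 (Idx × Idx)).comp NN.subtype

theorem piN_apply (n : NT) : piN n = (n : Big).2.2 := rfl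

theorem piN_act (e : L1 Idx) (f : L1 Idx × ℂ) : piN (act e f) = beta e f.1 := by
  rw [piN_apply, act_coe, beta_apply]
  unfold actv
  simp

/-- The algebra of the construction. -/
@[ext] structure TA : Type where
  l0 : ℂ
  l1 : ℂ
  l2 : ℂ
  l3 : ℂ
  m : ℂ
  g : L1 (Idx × Idx) →L[ℂ] ℂ
  g' : L1 Idx →L[ℂ] ℂ
  e : L1 Idx
  n : NT
  f : L1 Idx × ℂ

namespace TA

/-- The algebra as a product. -/
def equiv : TA ≃ ℂ × ℂ × ℂ × ℂ × ℂ × (L1 (Idx × Idx) →L[ℂ] ℂ) × (L1 Idx →L[ℂ] ℂ) × L1 Idx × NT ×
    (L1 Idx × ℂ) where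
  toFun x := (x.l0, x.l1, x.l2, x.l3, x.m, x.g, x.g', x.e, x.n, x.f)
  invFun p := ⟨p.1, p.2.1, p.2.2.1, p.2.2.2.1, p.2.2.2.2.1, p.2.2.2.2.2.1, p.2.2.2.2.2.2.1,
    p.2.2.2.2.2.2.2.1, p.2.2.2.2.2.2.2.2.1, p.2.2.2.2.2.2.2.2.2⟩
  left_inv _ := rfl
  right_inv _ := rfl

noncomputable instance : AddCommGroup TA := equiv.addCommGroup

noncomputable instance : Module ℂ TA := equiv.module ℂ

section simps

variable (x y : TA) (c : ℂ)

@[simp] theorem add_l0 : (x + y).l0 = x.l0 + y.l0 := rfl
@[simp] theorem add_l1 : (x + y).l1 = x.l1 + y.l1 := rfl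
@[simp] theorem add_l2 : (x + y).l2 = x.l2 + y.l2 := rfl
@[simp] theorem add_l3 : (x + y).l3 = x.l3 + y.l3 := rfl
@[simp] theorem add_m : (x + y).m = x.m + y.m := rfl
@[simp] theorem add_g : (x + y).g = x.g + y.g := rfl
@[simp] theorem add_g' : (x + y).g' = x.g' + y.g' := rfl
@[simp] theorem add_e : (x + y).e = x.e + y.e := rfl
@[simp] theorem add_n : (x + y).n = x.n + y.n := rfl
@[simp] theorem add_f : (x + y).f = x.f + y.f := rfl

@[simp] theorem zero_l0 : (0 : TA).l0 = 0 := rfl
@[simp] theorem zero_l1 : (0 : TA).l1 = 0 := rfl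
@[simp] theorem zero_l2 : (0 : TA).l2 = 0 := rfl
@[simp] theorem zero_l3 : (0 : TA).l3 = 0 := rfl
@[simp] theorem zero_m : (0 : TA).m = 0 := rfl
@[simp] theorem zero_g : (0 : TA).g = 0 := rfl
@[simp] theorem zero_g' : (0 : TA).g' = 0 := rfl
@[simp] theorem zero_e : (0 : TA).e = 0 := rfl
@[simp] theorem zero_n : (0 : TA).n = 0 := rfl
@[simp] theorem zero_f : (0 : TA).f = 0 := rfl

@[simp] theorem smul_l0 : (c • x).l0 = c * x.l0 := rfl
@[simp] theorem smul_l1 : (c • x).l1 = c * x.l1 := rfl
@[simp] theorem smul_l2 : (c • x).l2 = c * x.l2 := rfl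
@[simp] theorem smul_l3 : (c • x).l3 = c * x.l3 := rfl
@[simp] theorem smul_m : (c • x).m = c * x.m := rfl
@[simp] theorem smul_g : (c • x).g = c • x.g := rfl
@[simp] theorem smul_g' : (c • x).g' = c • x.g' := rfl
@[simp] theorem smul_e : (c • x).e = c • x.e := rfl
@[simp] theorem smul_n : (c • x).n = c • x.n := rfl
@[simp] theorem smul_f : (c • x).f = c • x.f := rfl

end simps

noncomputable instance : Mul TA where
  mul x y :=
    { l0 := x.l0 * y.l0
      l1 := x.l1 * y.l1
      l2 := x.l2 * y.l2
      l3 := x.l3 * y.l3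
      m := x.l0 * y.m + x.g (piN y.n) + x.g' y.f.1 + x.m * y.l3
      g := x.l0 • y.g + y.l1 • x.g
      g' := x.l0 • y.g' + x.g.comp (beta y.e) + y.l2 • x.g'
      e := x.l1 • y.e + y.l2 • x.e
      n := x.l1 • y.n + act x.e y.f + y.l3 • x.n
      f := x.l2 • y.f + y.l3 • x.f }

noncomputable instance : One TA where
  one := { l0 := 1, l1 := 1, l2 := 1, l3 := 1, m := 0, g := 0, g' := 0, e := 0, n := 0, f := 0 }

section simps2

variable (x y : TA)

@[simp] theorem mul_l0 : (x * y).l0 = x.l0 * y.l0 := rfl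
@[simp] theorem mul_l1 : (x * y).l1 = x.l1 * y.l1 := rfl
@[simp] theorem mul_l2 : (x * y).l2 = x.l2 * y.l2 := rfl
@[simp] theorem mul_l3 : (x * y).l3 = x.l3 * y.l3 := rfl
@[simp] theorem mul_m : (x * y).m = x.l0 * y.m + x.g (piN y.n) + x.g' y.f.1 + x.m * y.l3 := rfl
@[simp] theorem mul_g : (x * y).g = x.l0 • y.g + y.l1 • x.g := rfl
@[simp] theorem mul_g' : (x * y).g' = x.l0 • y.g' + x.g.comp (beta y.e) + y.l2 • x.g' := rfl
@[simp] theorem mul_e : (x * y).e = x.l1 • y.e + y.l2 • x.e := rfl
@[simp] theorem mul_n : (x * y).n = x.l1 • y.n + act x.e y.f + y.l3 • x.n := rfl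
@[simp] theorem mul_f : (x * y).f = x.l2 • y.f + y.l3 • x.f := rfl

@[simp] theorem one_l0 : (1 : TA).l0 = 1 := rfl
@[simp] theorem one_l1 : (1 : TA).l1 = 1 := rfl
@[simp] theorem one_l2 : (1 : TA).l2 = 1 := rfl
@[simp] theorem one_l3 : (1 : TA).l3 = 1 := rfl
@[simp] theorem one_m : (1 : TA).m = 0 := rfl
@[simp] theorem one_g : (1 : TA).g = 0 := rfl
@[simp] theorem one_g' : (1 : TA).g' = 0 := rfl
@[simp] theorem one_e : (1 : TA).e = 0 := rfl
@[simp] theorem one_n : (1 : TA).n = 0 := rfl
@[simp] theorem one_f : (1 : TA).f = 0 := rfl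

end simps2

protected theorem mul_assoc' (x y z : TA) : x * y * z = x * (y * z) := by
  apply TA.ext
  · simp [mul_assoc]
  · simp [mul_assoc]
  · simp [mul_assoc]
  · simp [mul_assoc]
  · simp only [mul_l0, mul_m, mul_g, mul_g', mul_n, mul_f, mul_l3, map_add, map_smul,
      _root_.add_apply, _root_.smul_apply, ContinuousLinearMap.comp_apply, piN_act, smul_eq_mul,
      Prod.fst_add, Prod.smul_fst]
    ring
  · simp only [mul_l0, mul_g, mul_l1, smul_add, smul_smul]
    rw [mul_comm z.l1 x.l0, mul_comm z.l1 y.l1]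
    abel
  · simp only [mul_l0, mul_g', mul_g, mul_l2, mul_e, smul_add, smul_smul, map_add, map_smul,
      ContinuousLinearMap.comp_add, ContinuousLinearMap.comp_smul, ContinuousLinearMap.add_comp,
      ContinuousLinearMap.smul_comp]
    rw [mul_comm z.l2 x.l0, mul_comm z.l2 y.l2]
    abel
  · simp only [mul_l1, mul_e, mul_l2, smul_add, smul_smul]
    rw [mul_comm z.l2 x.l1, mul_comm z.l2 y.l2]
    abel
  · simp only [mul_l1, mul_n, mul_e, mul_f, mul_l3, smul_add, smul_smul, map_add, map_smul,
      LinearMap.add_apply, LinearMap.smul_apply]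
    rw [mul_comm z.l3 x.l1, mul_comm z.l3 y.l3]
    abel
  · simp only [mul_l2, mul_f, mul_l3, smul_add, smul_smul]
    rw [mul_comm z.l3 x.l2, mul_comm z.l3 y.l3]
    abel

protected theorem left_distrib' (x y z : TA) : x * (y + z) = x * y + x * z := by
  apply TA.ext
  · simp [mul_add]
  · simp [mul_add]
  · simp [mul_add]
  · simp [mul_add]
  · simp only [mul_m, add_m, add_n, add_f, add_l3, map_add, Prod.fst_add]
    ring
  · apply ContinuousLinearMap.ext
    intro u
    simp only [mul_g, add_g, add_l1, _root_.add_apply, _root_.smul_apply, smul_eq_mul]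
    ring
  · apply ContinuousLinearMap.ext
    intro u
    simp only [mul_g', add_g', add_l2, add_e, map_add, ContinuousLinearMap.comp_add,
      _root_.add_apply, _root_.smul_apply, smul_eq_mul]
    ring
  · simp only [mul_e, add_e, add_l2, smul_add, add_smul]
    abel
  · simp only [mul_n, add_n, add_f, add_l3, smul_add, add_smul, map_add]
    abel
  · simp only [mul_f, add_f, add_l3, smul_add, add_smul]
    abel

protected theorem right_distrib' (x y z : TA) : (x + y) * z = x * z + y * z := by
  apply TA.ext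
  · simp [add_mul]
  · simp [add_mul]
  · simp [add_mul]
  · simp [add_mul]
  · simp only [mul_m, add_m, add_g, add_g', add_l0, _root_.add_apply]
    ring
  · apply ContinuousLinearMap.ext
    intro u
    simp only [mul_g, add_g, add_l0, _root_.add_apply, _root_.smul_apply, smul_eq_mul]
    ring
  · apply ContinuousLinearMap.ext
    intro u
    simp only [mul_g', add_g', add_l0, add_g, ContinuousLinearMap.add_comp,
      _root_.add_apply, _root_.smul_apply, smul_eq_mul]
    ring
  · simp only [mul_e, add_e, add_l1, smul_add, add_smul]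
    abel
  · simp only [mul_n, add_n, add_l1, add_e, smul_add, add_smul, map_add, LinearMap.add_apply]
    abel
  · simp only [mul_f, add_f, add_l2, smul_add, add_smul]
    abel

protected theorem one_mul' (x : TA) : 1 * x = x := by
  apply TA.ext
  · simp
  · simp
  · simp
  · simp
  · simp
  · apply ContinuousLinearMap.ext
    intro u
    simp
  · apply ContinuousLinearMap.ext
    intro u
    simp
  · simp
  · simp
  · simp

protected theorem mul_one' (x : TA) : x * 1 = x := by
  apply TA.ext
  · simp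
  · simp
  · simp
  · simp
  · simp
  · apply ContinuousLinearMap.ext
    intro u
    simp
  · apply ContinuousLinearMap.ext
    intro u
    simp
  · simp
  · simp
  · simp

noncomputable instance : Ring TA :=
  { (inferInstance : AddCommGroup TA) with
    mul := (· * ·)
    one := 1
    mul_assoc := TA.mul_assoc'
    one_mul := TA.one_mul'
    mul_one := TA.mul_one'
    left_distrib := TA.left_distrib'
    right_distrib := TA.right_distrib'
    zero_mul := fun x => by
      have h := TA.right_distrib' 0 0 x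
      rw [add_zero] at h
      exact left_eq_add.1 h
    mul_zero := fun x => by
      have h := TA.left_distrib' x 0 0
      rw [add_zero] at h
      exact left_eq_add.1 h }

protected theorem smul_mul' (c : ℂ) (x y : TA) : (c • x) * y = c • (x * y) := by
  apply TA.ext
  · simp [mul_assoc]
  · simp [mul_assoc]
  · simp [mul_assoc]
  · simp [mul_assoc]
  · simp only [mul_m, smul_m, smul_l0, smul_g, smul_g', _root_.smul_apply, smul_eq_mul]
    ring
  · simp only [mul_g, smul_g, smul_l0, smul_add, smul_smul]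
    rw [mul_comm c y.l1]
  · simp only [mul_g', smul_g', smul_l0, smul_g, smul_add, smul_smul,
      ContinuousLinearMap.smul_comp]
    rw [mul_comm c y.l2]
  · simp only [mul_e, smul_e, smul_l1, smul_add, smul_smul]
    rw [mul_comm c y.l2]
  · simp only [mul_n, smul_n, smul_l1, smul_e, smul_add, smul_smul, map_smul,
      LinearMap.smul_apply]
    rw [mul_comm c y.l3]
  · simp only [mul_f, smul_f, smul_l2, smul_add, smul_smul]
    rw [mul_comm c y.l3]

protected theorem mul_smul' (c : ℂ) (x y : TA) : x * (c • y) = c • (x * y) := by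
  apply TA.ext
  · simp only [mul_l0, smul_l0]; ring
  · simp only [mul_l1, smul_l1]; ring
  · simp only [mul_l2, smul_l2]; ring
  · simp only [mul_l3, smul_l3]; ring
  · simp only [mul_m, smul_m, smul_n, smul_f, smul_l3, map_smul, Prod.smul_fst, smul_eq_mul]
    ring
  · simp only [mul_g, smul_g, smul_l1, smul_add, smul_smul]
    rw [mul_comm c x.l0]
  · simp only [mul_g', smul_g', smul_l2, smul_e, smul_add, smul_smul, map_smul,
      ContinuousLinearMap.comp_smul]
    rw [mul_comm c x.l0]
  · simp only [mul_e, smul_e, smul_l2, smul_add, smul_smul]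
    rw [mul_comm c x.l1]
  · simp only [mul_n, smul_n, smul_l3, smul_f, smul_add, smul_smul, map_smul]
    rw [mul_comm c x.l1]
  · simp only [mul_f, smul_f, smul_l3, smul_add, smul_smul]
    rw [mul_comm c x.l2]

noncomputable instance : Algebra ℂ TA := Algebra.ofModule TA.smul_mul' TA.mul_smul'

end TA

end H80
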