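import Pool.Agent.Lib_helper80.TNExist

/-!
Preparations for the classification of the Banach algebra norms of the algebra.
-/

namespace H80

open Idx L1 TensorProduct Filter Topology

/-- Closed graph theorem through separating functionals. -/
theorem IsCNorm.bound_of_functionals {V W : Type*} [AddCommGroup V] [Module ℂ V] [AddCommGroup W]
    [Module ℂ W] {ν : V → ℝ} {μ : W → ℝ} (hν : IsCNorm ν) (hμ : IsCNorm μ) (T : V →ₗ[ℂ] W)
    (hsep : ∀ w : W, w ≠ 0 → ∃ φ : W →ₗ[ℂ] ℂ, φ w ≠ 0 ∧ (∃ c : ℝ, ∀ w, ‖φ w‖ ≤ c * μ w) ∧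
      (∃ c : ℝ, ∀ v, ‖φ (T v)‖ ≤ c * ν v)) :
    ∃ K : ℝ, 0 < K ∧ ∀ v, μ (T v) ≤ K * ν v := by
  refine hν.closed_graph hμ T (fun u w hu hw => ?_)
  by_contra hne
  obtain ⟨φ, hφ, ⟨c, hc⟩, ⟨d, hd⟩⟩ := hsep w hne
  have h1 : Tendsto (fun n => d * ν (u n) + c * μ (T (u n) - w)) atTop (𝓝 (d * 0 + c * 0)) :=
    (hu.const_mul d).add (hw.const_mul c)
  have h2 : ‖φ w‖ ≤ d * 0 + c * 0 := by
    refine ge_of_tendsto' h1 (fun n => ?_)
    have e : φ w = φ (T (u n)) - φ (T (u n) - w) := by rw [map_sub]; ring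
    calc ‖φ w‖ = ‖φ (T (u n)) - φ (T (u n) - w)‖ := by rw [← e]
      _ ≤ ‖φ (T (u n))‖ + ‖φ (T (u n) - w)‖ := norm_sub_le _ _
      _ ≤ _ := add_le_add (hd _) (hc _)
  apply hφ
  rw [← norm_le_zero_iff]
  linarith

theorem IsBanachAlgNorm.cnorm {A : Type*} [NonUnitalRing A] [Module ℂ A] {ν : A → ℝ}
    (h : IsBanachAlgNorm A ν) : IsCNorm ν :=
  ⟨h.eq_zero, h.smul, h.add_le, h.complete⟩

/-! ### Pieces of the algebra -/

@[simp] theorem dual_smul_zero {κ : Type} (c : ℂ) : c • (0 : L1 κ →L[ℂ] ℂ) = 0 := by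
  apply ContinuousLinearMap.ext; intro u; simp

@[simp] theorem dual_zero_smul {κ : Type} (g : L1 κ →L[ℂ] ℂ) : (0 : ℂ) • g = 0 := by
  apply ContinuousLinearMap.ext; intro u; simp

@[simp] theorem dual_one_smul {κ : Type} (g : L1 κ →L[ℂ] ℂ) : (1 : ℂ) • g = g := by
  apply ContinuousLinearMap.ext; intro u; simp

namespace TA

/-- diagonal idempotent -/
noncomputable def E0 : TA := ⟨1, 0, 0, 0, 0, 0, 0, 0, 0, 0⟩
/-- diagonal idempotent -/
noncomputable def E1 : TA := ⟨0, 1, 0, 0, 0, 0, 0, 0, 0, 0⟩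
/-- diagonal idempotent -/
noncomputable def E2 : TA := ⟨0, 0, 1, 0, 0, 0, 0, 0, 0, 0⟩
/-- diagonal idempotent -/
noncomputable def E3 : TA := ⟨0, 0, 0, 1, 0, 0, 0, 0, 0, 0⟩
/-- corner unit -/
noncomputable def M1 : TA := ⟨0, 0, 0, 0, 1, 0, 0, 0, 0, 0⟩

/-- inclusion of a piece -/
noncomputable def iG : (L1 (Idx × Idx) →L[ℂ] ℂ) →ₗ[ℂ] TA where
  toFun g := ⟨0, 0, 0, 0, 0, g, 0, 0, 0, 0⟩
  map_add' _ _ := by apply TA.ext <;> simp
  map_smul' _ _ := by apply TA.ext <;> simp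

/-- inclusion of a piece -/
noncomputable def iG' : (L1 Idx →L[ℂ] ℂ) →ₗ[ℂ] TA where
  toFun g := ⟨0, 0, 0, 0, 0, 0, g, 0, 0, 0⟩
  map_add' _ _ := by apply TA.ext <;> simp
  map_smul' _ _ := by apply TA.ext <;> simp

/-- inclusion of a piece -/
noncomputable def iE : L1 Idx →ₗ[ℂ] TA where
  toFun g := ⟨0, 0, 0, 0, 0, 0, 0, g, 0, 0⟩
  map_add' _ _ := by apply TA.ext <;> simp
  map_smul' _ _ := by apply TA.ext <;> simp

/-- inclusion of a piece -/
noncomputable def iN : NT →ₗ[ℂ] TA where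
  toFun g := ⟨0, 0, 0, 0, 0, 0, 0, 0, g, 0⟩
  map_add' _ _ := by apply TA.ext <;> simp
  map_smul' _ _ := by apply TA.ext <;> simp

/-- inclusion of a piece -/
noncomputable def iF : (L1 Idx × ℂ) →ₗ[ℂ] TA where
  toFun g := ⟨0, 0, 0, 0, 0, 0, 0, 0, 0, g⟩
  map_add' _ _ := by apply TA.ext <;> simp
  map_smul' _ _ := by apply TA.ext <;> simp

theorem iG_n (g : L1 (Idx × Idx) →L[ℂ] ℂ) (n : NT) : iG g * iN n = (g (piN n)) • M1 := by
  apply TA.ext <;> simp [iG, iN, M1]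

theorem iG'_f (g : L1 Idx →L[ℂ] ℂ) (f : L1 Idx × ℂ) : iG' g * iF f = (g f.1) • M1 := by
  apply TA.ext <;> simp [iG', iF, M1]

theorem iE_f (e : L1 Idx) (f : L1 Idx × ℂ) : iE e * iF f = iN (act e f) := by
  apply TA.ext <;> simp [iE, iF, iN]

theorem piece_G (x : TA) : E0 * x * E1 = iG x.g := by
  apply TA.ext <;> simp [iG, E0, E1]

theorem piece_G' (x : TA) : E0 * x * E2 = iG' x.g' := by
  apply TA.ext <;> simp [iG', E0, E2]

theorem piece_E (x : TA) : E1 * x * E2 = iE x.e := by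
  apply TA.ext <;> simp [iE, E1, E2]

theorem piece_N (x : TA) : E1 * x * E3 = iN x.n := by
  apply TA.ext <;> simp [iN, E1, E3]

theorem piece_F (x : TA) : E2 * x * E3 = iF x.f := by
  apply TA.ext <;> simp [iF, E2, E3]

theorem decomp (x : TA) : x = x.l0 • E0 + (x.l1 • E1 + (x.l2 • E2 + (x.l3 • E3 + (x.m • M1 +
    (iG x.g + (iG' x.g' + (iE x.e + (iN x.n + iF x.f)))))))) := by
  apply TA.ext <;> simp [iG, iG', iE, iN, iF, E0, E1, E2, E3, M1]

end TA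

open TA

/-- Restriction of a Banach algebra norm to a piece. -/
theorem piece_cnorm {ν : TA → ℝ} (h : IsBanachAlgNorm TA ν) {W : Type*} [AddCommGroup W]
    [Module ℂ W] (ι : W →ₗ[ℂ] TA) (π : TA → W) (A B : TA)
    (h1 : ∀ x, A * x * B = ι (π x)) (h2 : ∀ w, π (ι w) = w) : IsCNorm (fun w => ν (ι w)) := by
  refine h.cnorm.restrict ι (fun a b hab => ?_) (fun x => A * x * B) (ν A * ν B) ?_ ?_ ?_
  · rw [← h2 a, hab, h2 b]
  · intro x y
    have e : A * x * B - A * y * B = A * (x - y) * B := by noncomm_ring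
    rw [e]
    calc ν (A * (x - y) * B) ≤ ν (A * (x - y)) * ν B := h.mul_le _ _
      _ ≤ (ν A * ν (x - y)) * ν B :=
        mul_le_mul_of_nonneg_right (h.mul_le _ _) (h.cnorm.nonneg _)
      _ = ν A * ν B * ν (x - y) := by ring
  · intro w
    simp only [h1, h2]
  · intro x hx
    exact ⟨π x, by rw [← h1]; exact hx⟩

section pieces

variable {ν : TA → ℝ} (h : IsBanachAlgNorm TA ν)
include h

theorem rG_cnorm : IsCNorm (fun g => ν (iG g)) :=
  piece_cnorm h iG (fun x => x.g) E0 E1 piece_G (fun _ => rfl)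

theorem rG'_cnorm : IsCNorm (fun g => ν (iG' g)) :=
  piece_cnorm h iG' (fun x => x.g') E0 E2 piece_G' (fun _ => rfl)

theorem rE_cnorm : IsCNorm (fun g => ν (iE g)) :=
  piece_cnorm h iE (fun x => x.e) E1 E2 piece_E (fun _ => rfl)

theorem rN_cnorm : IsCNorm (fun g => ν (iN g)) :=
  piece_cnorm h iN (fun x => x.n) E1 E3 piece_N (fun _ => rfl)

theorem rF_cnorm : IsCNorm (fun g => ν (iF g)) :=
  piece_cnorm h iF (fun x => x.f) E2 E3 piece_F (fun _ => rfl)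

theorem M1_pos : 0 < ν M1 := by
  apply h.cnorm.pos
  intro e
  have := congrArg TA.m e
  exact one_ne_zero this

theorem g_bound (g : L1 (Idx × Idx) →L[ℂ] ℂ) (n : NT) :
    ‖g (piN n)‖ ≤ (ν (iG g) / ν M1) * ν (iN n) := by
  have h1 := h.mul_le (iG g) (iN n)
  rw [iG_n, h.smul] at h1
  rw [div_mul_eq_mul_div, le_div_iff₀ (M1_pos h)]
  exact h1

theorem g'_bound (g : L1 Idx →L[ℂ] ℂ) (f : L1 Idx × ℂ) :
    ‖g f.1‖ ≤ (ν (iG' g) / ν M1) * ν (iF f) := by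
  have h1 := h.mul_le (iG' g) (iF f)
  rw [iG'_f, h.smul] at h1
  rw [div_mul_eq_mul_div, le_div_iff₀ (M1_pos h)]
  exact h1

theorem act_bound (e : L1 Idx) (f : L1 Idx × ℂ) : ν (iN (act e f)) ≤ ν (iE e) * ν (iF f) := by
  rw [← iE_f]; exact h.mul_le _ _

/-- The last component is continuous. -/
theorem piN_bound : ∃ K : ℝ, 0 < K ∧ ∀ n, ‖piN n‖ ≤ K * ν (iN n) := by
  refine (rN_cnorm h).bound_of_functionals (IsCNorm.of_banach (L1 (Idx × Idx))) piN (fun w hw => ?_)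
  have : ∃ p, w p ≠ 0 := by
    by_contra hcon
    push Not at hcon
    exact hw (L1.ext' hcon)
  obtain ⟨p, hp⟩ := this
  exact ⟨(ev p : L1 (Idx × Idx) →L[ℂ] ℂ), hp, ⟨1, fun w => by
    rw [one_mul]; exact norm_apply_le w p⟩, ⟨_, fun n => g_bound h (ev p) n⟩⟩

/-- The first component is continuous. -/
theorem fst_bound : ∃ K : ℝ, 0 < K ∧ ∀ f : L1 Idx × ℂ, ‖f.1‖ ≤ K * ν (iF f) := by
  refine (rF_cnorm h).bound_of_functionals (IsCNorm.of_banach (L1 Idx))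
    (LinearMap.fst ℂ (L1 Idx) ℂ) (fun w hw => ?_)
  have : ∃ p, w p ≠ 0 := by
    by_contra hcon
    push Not at hcon
    exact hw (L1.ext' hcon)
  obtain ⟨p, hp⟩ := this
  exact ⟨(ev p : L1 Idx →L[ℂ] ℂ), hp, ⟨1, fun w => by
    rw [one_mul]; exact norm_apply_le w p⟩, ⟨_, fun n => g'_bound h (ev p) n⟩⟩

/-- The norm on the first dual piece is controlled. -/
theorem rG_bound : ∃ K : ℝ, 0 < K ∧ ∀ g, ν (iG g) ≤ K * ‖g‖ := by
  refine (IsCNorm.of_banach (L1 (Idx × Idx) →L[ℂ] ℂ)).bound_of_functionals (rG_cnorm h)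
    LinearMap.id (fun w hw => ?_)
  have : ∃ u, w u ≠ 0 := by
    by_contra hcon
    push Not at hcon
    exact hw (ContinuousLinearMap.ext hcon)
  obtain ⟨u, hu⟩ := this
  obtain ⟨n, hn⟩ := phip_bij.2 (0, u)
  have hn' : piN n = u := congrArg Prod.snd hn
  refine ⟨{ toFun := fun g => g u, map_add' := fun _ _ => rfl, map_smul' := fun _ _ => rfl }, hu,
    ⟨ν (iN n) / ν M1, fun g => ?_⟩, ⟨‖u‖, fun g => ?_⟩⟩
  · have := g_bound h g n
    rw [hn'] at this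
    calc ‖g u‖ ≤ _ := this
      _ = _ := by ring
  · rw [mul_comm]; exact g.le_opNorm u

/-- The norm on the second dual piece is controlled. -/
theorem rG'_bound : ∃ K : ℝ, 0 < K ∧ ∀ g, ν (iG' g) ≤ K * ‖g‖ := by
  refine (IsCNorm.of_banach (L1 Idx →L[ℂ] ℂ)).bound_of_functionals (rG'_cnorm h)
    LinearMap.id (fun w hw => ?_)
  have : ∃ u, w u ≠ 0 := by
    by_contra hcon
    push Not at hcon
    exact hw (ContinuousLinearMap.ext hcon)
  obtain ⟨u, hu⟩ := this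
  refine ⟨{ toFun := fun g => g u, map_add' := fun _ _ => rfl, map_smul' := fun _ _ => rfl }, hu,
    ⟨ν (iF (u, 0)) / ν M1, fun g => ?_⟩, ⟨‖u‖, fun g => ?_⟩⟩
  · have := g'_bound h g (u, 0)
    calc ‖g u‖ ≤ _ := this
      _ = _ := by ring
  · rw [mul_comm]; exact g.le_opNorm u

end pieces

end H80
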