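import Pool.Agent.Lib_helper80.TNClass

/-!
The classification of the Banach algebra norms of the algebra.
-/

namespace H80

open Idx L1 TensorProduct Filter Topology TA

theorem fam_empty (i : Idx) : fam ∅ i = 0 := if_neg (fun h => h.1.elim)

theorem BJ_empty (u : L1 (Idx × Idx)) : BJ ∅ u = embR u := by
  rw [BJ_apply, lift_eq]
  have : (fun i => (diag Idx u) i • fam ∅ i) = fun _ => 0 := by
    funext i
    rw [fam_empty, smul_zero]
  rw [this, tsum_zero, add_zero]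

theorem base_notMem (n : ℕ) : base n ∉ JJ := fun h => (good_of_mem_JJ h).1

theorem beta_base_zero (e : L1 Idx) : ‖beta e (single (base 0))‖ = ‖e‖ := by
  rw [beta_apply]
  have h : BJ JJ (outer Idx Idx e (single (base 0))) =
      BJ ∅ (outer Idx Idx e (single (base 0))) := by
    apply BJ_congr
    intro i hi
    rw [outer_apply_apply] at hi
    have : i = base 0 := by
      by_contra hcon
      rw [single_apply_ne hcon, mul_zero] at hi
      exact hi rfl
    subst this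
    exact ⟨fun h => absurd h (base_notMem 0), fun h => h.elim⟩
  rw [h, BJ_empty, embR_apply, norm_outer, norm_single, mul_one]

theorem actv_single {i : Idx} (hi : i ∈ JJ) (s : ℂ) : actv (single i) (single i, s) = nvec i := by
  have hg := good_of_mem_JJ hi
  have h1 := Ph_single_of_mem hi hg
  rw [Ph_apply, mat_tmul, ida_tmul, aL_node hg.1, zero_smul, map_zero] at h1
  unfold actv
  simp only [kp_node hg.1, kq_node hg.1, smul_zero]
  have h3 : ((0 : L1 ℕ), (0 : L1 ℕ), (0 : L1 (Idx × Idx))) = 0 := rfl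
  rw [h3, sub_zero] at h1
  rw [h3, add_zero]
  exact h1

theorem kp_dense (x : L1 ℕ) (κ : L1 Idx →L[ℂ] L1 ℕ) (hκ : ∀ n, ∃ e, κ e = single n) {ε : ℝ}
    (hε : 0 < ε) : ∃ e, ‖x - κ e‖ < ε := by
  choose e he using hκ
  have h1 := hasSum_single x
  obtain ⟨F, hF⟩ := (Metric.tendsto_atTop.1 h1) ε hε
  have h2 := hF F le_rfl
  refine ⟨∑ n ∈ F, x n • e n, ?_⟩
  rw [dist_eq_norm, norm_sub_rev] at h2
  rw [map_sum]
  simpa only [map_smul, he] using h2

theorem kp_single (n : ℕ) : ∃ e, kp e = single n := by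
  refine ⟨(2 : ℂ) ^ n • single (base n), ?_⟩
  rw [map_smul, kp_base, smul_smul, ← mul_pow]
  norm_num

theorem kq_single (n : ℕ) : ∃ e, kq e = single n := by
  cases n with
  | zero => exact ⟨_, kq_base_zero⟩
  | succ n =>
    refine ⟨(2 : ℂ) ^ (n + 1) • (single (base (n + 1)) - single (base 0)), ?_⟩
    rw [map_smul, map_sub, kq_base_succ, kq_base_zero, add_sub_cancel_right, smul_smul, ← mul_pow]
    norm_num

/-- The null sequence on which the discontinuous functional equals one. -/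
noncomputable def yk (k : ℕ) : L1 Idx := ((1 / 2 : ℂ) ^ (k + 1)) • single (base (k + 1))

theorem aL_yk (k : ℕ) : aL (yk k) = 1 := by
  unfold yk
  rw [map_smul, aL_base_succ, smul_eq_mul, ← mul_pow]
  norm_num

theorem norm_yk (k : ℕ) : ‖yk k‖ = (1 / 2 : ℝ) ^ (k + 1) := by
  unfold yk
  rw [norm_smul, norm_single, mul_one, norm_pow]
  norm_num

theorem tendsto_yk : Tendsto (fun k => ‖yk k‖) atTop (𝓝 0) := by
  simp only [norm_yk]
  exact (tendsto_pow_atTop_nhds_zero_of_lt_one (by norm_num) (by norm_num)).comp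
    (tendsto_add_atTop_nat 1)

section cls

variable {ν : TA → ℝ} (h : IsBanachAlgNorm TA ν)
include h

theorem rE_bound : ∃ K : ℝ, 0 < K ∧ ∀ e, ν (iE e) ≤ K * ‖e‖ := by
  obtain ⟨K, hK, hb⟩ := piN_bound h
  refine (rE_cnorm h |> fun hr => (IsCNorm.of_banach (L1 Idx)).equiv_of_le hr
    (K := K * ν (iF (single (base 0), 0))) (fun e => ?_))
  have h1 := hb (act e (single (base 0), 0))
  rw [piN_act, beta_base_zero] at h1
  calc ‖e‖ ≤ K * ν (iN (act e (single (base 0), 0))) := h1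
    _ ≤ K * (ν (iE e) * ν (iF (single (base 0), 0))) :=
      mul_le_mul_of_nonneg_left (act_bound h _ _) hK.le
    _ = _ := by ring

/-- The shape of the norm on the second module. -/
theorem rF_shape : ∃ τ : L1 Idx →ₗ[ℂ] ℂ, ∃ K : ℝ, 0 < K ∧
    ∀ f : L1 Idx × ℂ, ν (iF f) ≤ K * (‖f.1‖ + ‖f.2 - τ f.1‖) := by
  obtain ⟨K, hK, hb⟩ := fst_bound h
  have hz : ((0 : L1 Idx), (1 : ℂ)) ≠ 0 := by
    intro e
    exact one_ne_zero (congrArg Prod.snd e)
  obtain ⟨ψ, hψ, K', hK', hb'⟩ := (rF_cnorm h).exists_functional hz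
  let τ : L1 Idx →ₗ[ℂ] ℂ := -(ψ.comp (LinearMap.inl ℂ (L1 Idx) ℂ))
  have hτ : ∀ f : L1 Idx × ℂ, ψ f = f.2 - τ f.1 := by
    rintro ⟨y, s⟩
    have e1 : ((y, s) : L1 Idx × ℂ) = (y, 0) + s • (0, 1) := by
      refine Prod.ext ?_ ?_ <;> simp
    rw [e1, map_add, map_smul, hψ]
    simp [τ]
    ring
  have hle : ∀ f, shF τ f ≤ (K + K') * ν (iF f) := by
    intro f
    unfold shF
    rw [← hτ f]
    have := hb f
    have := hb' f
    linarith
  obtain ⟨K'', hK'', h3⟩ := (shF_cnorm τ).equiv_of_le (rF_cnorm h) hle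
  exact ⟨τ, K'', hK'', h3⟩

/-- The norm on the module is bounded by the norm of the big space. -/
theorem rN_bound : ∃ K : ℝ, 0 < K ∧ ∀ n : NT, ν (iN n) ≤ K * ‖(n : Big)‖ := by
  obtain ⟨τ, K, hK, hF⟩ := rF_shape h
  obtain ⟨K', hK', hE⟩ := rE_bound h
  refine ⟨K' * K, mul_pos hK' hK, ?_⟩
  have key1 : ∀ n : NT, ‖(n : Big)‖ ≤ 1 → ν (iN n) ≤ K' * K := by
    rintro ⟨v, hv⟩ hn
    obtain ⟨i, hi, rfl⟩ := exists_code hv hn
    have e1 : (⟨nvec i, hv⟩ : NT) = act (single i) (single i, τ (single i)) := by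
      apply Subtype.ext
      rw [act_coe, actv_single hi]
    rw [e1]
    refine (act_bound h _ _).trans ?_
    have h1 := hE (single i)
    rw [norm_single, mul_one] at h1
    have h2 := hF (single i, τ (single i))
    simp only [norm_single, sub_self, norm_zero, add_zero, mul_one] at h2
    exact mul_le_mul h1 h2 (h.cnorm.nonneg _) hK'.le
  intro n
  by_cases hn : (n : Big) = 0
  · have : n = 0 := Subtype.ext hn
    rw [this, map_zero, h.cnorm.zero]
    positivity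
  · have hpos : 0 < ‖(n : Big)‖ := norm_pos_iff.2 hn
    have h1 := key1 (((‖(n : Big)‖⁻¹ : ℝ) : ℂ) • n) (by
      rw [Submodule.coe_smul, norm_smul]
      simp [hpos.ne'])
    rw [map_smul, h.smul] at h1
    have h2 : ‖((‖(n : Big)‖⁻¹ : ℝ) : ℂ)‖ = ‖(n : Big)‖⁻¹ := by simp
    rw [h2, inv_mul_le_iff₀ hpos] at h1
    linarith

/-- On the kernel of the discontinuous functional the functional `τ` is bounded. -/
theorem tau_bound {τ : L1 Idx →ₗ[ℂ] ℂ} {K : ℝ} (hK : 0 < K)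
    (hF : ∀ f : L1 Idx × ℂ, ν (iF f) ≤ K * (‖f.1‖ + ‖f.2 - τ f.1‖)) :
    ∃ C : ℝ, 0 < C ∧ ∀ v, aL v = 0 → ‖τ v‖ ≤ C * ‖v‖ := by
  obtain ⟨K', hK', hE⟩ := rE_bound h
  obtain ⟨K'', hK'', hN⟩ := rN_bound h
  set e : L1 Idx := single (base 0) with he
  set s0 : NT := act e (0, 1) with hs0
  have hs0ne : s0 ≠ 0 := by
    intro h0
    have h1 : actv e (0, 1) = 0 := by rw [← act_coe, ← hs0, h0]; rfl
    have h2 : (actv e (0, 1)).1 = 0 := by rw [h1]; rfl
    unfold actv at h2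
    simp only [map_zero, zero_add, one_smul] at h2
    rw [he, kp_base, pow_zero, one_smul] at h2
    have h3 := congrArg (fun x : L1 ℕ => x 0) h2
    simp only [single_apply_self] at h3
    exact one_ne_zero h3
  have hpos : 0 < ν (iN s0) := by
    refine (rN_cnorm h).pos hs0ne
  refine ⟨(K' * K + K'' * ‖BJ JJ‖) / ν (iN s0), by positivity, fun v hv => ?_⟩
  have e1 : τ v • s0 = act e (v, τ v) - act e (v, 0) := by
    rw [hs0, ← map_smul, ← map_sub]
    congr 1
    refine Prod.ext ?_ ?_ <;> simp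
  have h1 : ‖τ v‖ * ν (iN s0) = ν (iN (τ v • s0)) := by rw [map_smul, h.smul]
  have h2 : ν (iN (τ v • s0)) ≤ ν (iN (act e (v, τ v))) + ν (iN (act e (v, 0))) := by
    rw [e1, map_sub]
    exact h.cnorm.sub_le _ _
  have h3 : ν (iN (act e (v, τ v))) ≤ K' * K * ‖v‖ := by
    refine (act_bound h _ _).trans ?_
    have h4 := hE e
    rw [he, norm_single, mul_one] at h4
    have h5 := hF (v, τ v)
    simp only [sub_self, norm_zero, add_zero] at h5
    calc ν (iE e) * ν (iF (v, τ v)) ≤ K' * (K * ‖v‖) :=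
          mul_le_mul h4 h5 (h.cnorm.nonneg _) hK'.le
      _ = _ := by ring
  have h6 : ν (iN (act e (v, 0))) ≤ K'' * ‖BJ JJ‖ * ‖v‖ := by
    refine (hN _).trans ?_
    have h7 : ((act e (v, 0) : NT) : Big) = BJ JJ (outer Idx Idx e v) := by
      rw [act_coe]
      unfold actv
      simp only [hv, zero_smul, sub_self]
      have h3 : ((0 : L1 ℕ), (0 : L1 ℕ), (0 : L1 (Idx × Idx))) = 0 := rfl
      rw [h3, add_zero]
    rw [h7]
    have h8 := norm_BJ_outer e v
    rw [he, norm_single, one_mul] at h8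
    calc K'' * ‖BJ JJ (outer Idx Idx e v)‖ ≤ K'' * (‖BJ JJ‖ * ‖v‖) :=
          mul_le_mul_of_nonneg_left h8 hK''.le
      _ = _ := by ring
  rw [div_mul_eq_mul_div, le_div_iff₀ hpos]
  calc ‖τ v‖ * ν (iN s0) ≤ K' * K * ‖v‖ + K'' * ‖BJ JJ‖ * ‖v‖ := by
        rw [h1]; exact h2.trans (add_le_add h3 h6)
    _ = _ := by ring

omit h in
/-- A functional bounded on the kernel of `aL` is a bounded perturbation of a multiple. -/
theorem tau_shape {τ : L1 Idx →ₗ[ℂ] ℂ} {C : ℝ} (hC : 0 < C)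
    (hb : ∀ v, aL v = 0 → ‖τ v‖ ≤ C * ‖v‖) :
    ∃ t : ℂ, ∀ v, ‖τ v - t * aL v‖ ≤ C * ‖v‖ := by
  have h1 : ∀ v k, ‖τ v - aL v * τ (yk k)‖ ≤ C * (‖v‖ + ‖aL v‖ * ‖yk k‖) := by
    intro v k
    have h2 := hb (v - aL v • yk k) (by rw [map_sub, map_smul, aL_yk]; simp)
    rw [map_sub, map_smul, smul_eq_mul] at h2
    refine h2.trans (mul_le_mul_of_nonneg_left ?_ hC.le)
    refine (norm_sub_le _ _).trans ?_
    rw [norm_smul]
  have hc : CauchySeq (fun k => τ (yk k)) := by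
    rw [Metric.cauchySeq_iff]
    intro ε hε
    have h3 : Tendsto (fun k => C * ‖yk k‖) atTop (𝓝 (C * 0)) := tendsto_yk.const_mul C
    rw [mul_zero] at h3
    obtain ⟨N, hN⟩ := (Metric.tendsto_atTop.1 h3) (ε / 2) (by linarith)
    refine ⟨N, fun i hi j hj => ?_⟩
    have h4 := h1 (yk i) j
    rw [aL_yk, one_mul, norm_one, one_mul] at h4
    have h5 := hN i hi
    have h6 := hN j hj
    rw [dist_zero_right, Real.norm_of_nonneg (by positivity)] at h5 h6
    rw [dist_eq_norm]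
    linarith
  obtain ⟨t, ht⟩ := cauchySeq_tendsto_of_complete hc
  refine ⟨t, fun v => ?_⟩
  have h3 : Tendsto (fun k => ‖τ v - aL v * τ (yk k)‖) atTop (𝓝 ‖τ v - aL v * t‖) :=
    ((ht.const_mul (aL v)).const_sub (τ v)).norm
  have h4 : Tendsto (fun k => C * (‖v‖ + ‖aL v‖ * ‖yk k‖)) atTop (𝓝 (C * (‖v‖ + ‖aL v‖ * 0))) :=
    ((tendsto_yk.const_mul _).const_add _).const_mul _
  have h5 := le_of_tendsto_of_tendsto' h3 h4 (h1 v)
  rw [mul_zero, add_zero, mul_comm (aL v)] at h5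
  exact h5

/-- The norm on the second module up to the parameter `t`. -/
theorem rF_shape2 : ∃ t : ℂ, ∃ K : ℝ, 0 < K ∧
    ∀ f : L1 Idx × ℂ, ν (iF f) ≤ K * (‖f.1‖ + ‖f.2 - t * aL f.1‖) := by
  obtain ⟨τ, K, hK, hF⟩ := rF_shape h
  obtain ⟨C, hC, hb⟩ := tau_bound h hK hF
  obtain ⟨t, ht⟩ := tau_shape hC hb
  refine ⟨t, K * (1 + C), by positivity, fun f => ?_⟩
  have h1 := hF f
  have h2 := ht f.1
  have h3 : ‖f.2 - τ f.1‖ ≤ ‖f.2 - t * aL f.1‖ + C * ‖f.1‖ := by
    have e : f.2 - τ f.1 = (f.2 - t * aL f.1) - (τ f.1 - t * aL f.1) := by ring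
    rw [e]
    exact (norm_sub_le _ _).trans (by linarith)
  have h4 : 0 ≤ ‖f.2 - t * aL f.1‖ := norm_nonneg _
  have h5 : 0 ≤ ‖f.1‖ := norm_nonneg _
  calc ν (iF f) ≤ K * (‖f.1‖ + ‖f.2 - τ f.1‖) := h1
    _ ≤ K * (‖f.1‖ + (‖f.2 - t * aL f.1‖ + C * ‖f.1‖)) :=
      mul_le_mul_of_nonneg_left (by linarith) hK.le
    _ ≤ K * ((1 + C) * (‖f.1‖ + ‖f.2 - t * aL f.1‖)) := by
      refine mul_le_mul_of_nonneg_left ?_ hK.le
      have := mul_nonneg hC.le h4
      linarith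
    _ = _ := by ring

end cls

end H80
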