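import Pool.Agent.Lib_helper80.TNAlg

/-!
The two Banach algebra norms of the algebra.
-/

namespace H80

open Idx L1 TensorProduct Filter Topology

/-- First norm of the module. -/
noncomputable def pN (n : NT) : ℝ := ‖(n : Big).1‖ + ‖(n : Big).2.2‖
/-- Second norm of the module. -/
noncomputable def qN (n : NT) : ℝ := ‖(n : Big).2.1‖ + ‖(n : Big).2.2‖
/-- First norm of the second module. -/
noncomputable def pF (f : L1 Idx × ℂ) : ℝ := ‖f.1‖ + ‖f.2‖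
/-- Second norm of the second module. -/
noncomputable def qF (f : L1 Idx × ℂ) : ℝ := ‖f.1‖ + ‖f.2 - aL f.1‖

/-- First coordinates. -/
noncomputable def phip : NT →ₗ[ℂ] L1 ℕ × L1 (Idx × Idx) :=
  ((LinearMap.fst ℂ (L1 ℕ) (L1 ℕ × L1 (Idx × Idx))).comp NN.subtype).prod piN

/-- Second coordinates. -/
noncomputable def phiq : NT →ₗ[ℂ] L1 ℕ × L1 (Idx × Idx) :=
  (((LinearMap.fst ℂ (L1 ℕ) (L1 (Idx × Idx))).comp
    (LinearMap.snd ℂ (L1 ℕ) (L1 ℕ × L1 (Idx × Idx)))).comp NN.subtype).prod piN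

theorem phip_apply (n : NT) : phip n = ((n : Big).1, (n : Big).2.2) := rfl
theorem phiq_apply (n : NT) : phiq n = ((n : Big).2.1, (n : Big).2.2) := rfl

theorem phip_bij : Function.Bijective phip := by
  constructor
  · rw [← LinearMap.ker_eq_bot, LinearMap.ker_eq_bot']
    rintro ⟨v, hv⟩ h
    rw [phip_apply] at h
    obtain ⟨h1, h2⟩ := Prod.ext_iff.1 h
    have h3 := mem_SD_of_mem_NN hv h2
    have h4 : v.2.1 = 0 := by
      rw [h3.1]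
      have : v.1 = 0 := h1
      rw [this, map_zero]
    apply Subtype.ext
    exact Prod.ext h1 (Prod.ext h4 h2)
  · rintro ⟨x, u⟩
    obtain ⟨n, hn, s, hs, h⟩ := Submodule.mem_sup.1 (NN_sup_SS (x, 0, u))
    have h1 : n.1 + s.1 = x := congrArg Prod.fst h
    have h2 : n.2.2 + s.2.2 = u := congrArg (fun v : Big => v.2.2) h
    have hs' : s.2.2 = 0 := hs
    refine ⟨⟨n + (s.1, TT s.1, 0), NN.add_mem hn (SD_le_NN ⟨rfl, rfl⟩)⟩, ?_⟩
    rw [phip_apply]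
    refine Prod.ext ?_ ?_
    · exact h1
    · change n.2.2 + 0 = u
      rw [← h2, hs']

theorem phiq_bij : Function.Bijective phiq := by
  constructor
  · rw [← LinearMap.ker_eq_bot, LinearMap.ker_eq_bot']
    rintro ⟨v, hv⟩ h
    rw [phiq_apply] at h
    obtain ⟨h1, h2⟩ := Prod.ext_iff.1 h
    have h3 := mem_SD_of_mem_NN hv h2
    have h4 : v.1 = 0 := by
      apply TT_eq_zero
      rw [← h3.1]
      exact h1
    apply Subtype.ext
    exact Prod.ext h4 (Prod.ext h1 h2)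
  · rintro ⟨y, u⟩
    obtain ⟨n, hn, s, hs, h⟩ := Submodule.mem_sup.1 (NN_sup_SS (0, y, u))
    have h1 : n.2.1 + s.2.1 = y := congrArg (fun v : Big => v.2.1) h
    have h2 : n.2.2 + s.2.2 = u := congrArg (fun v : Big => v.2.2) h
    have hs' : s.2.2 = 0 := hs
    refine ⟨⟨n + (s.2.1 - aS s.2.1 • single 0, TT (s.2.1 - aS s.2.1 • single 0), 0),
      NN.add_mem hn (SD_le_NN ⟨rfl, rfl⟩)⟩, ?_⟩
    rw [phiq_apply]
    refine Prod.ext ?_ ?_
    · change n.2.1 + TT (s.2.1 - aS s.2.1 • single 0) = y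
      rw [TT_surj]
      exact h1
    · change n.2.2 + 0 = u
      rw [← h2, hs']

theorem pN_cnorm : IsCNorm pN :=
  ((IsCNorm.of_banach (L1 ℕ)).prod (IsCNorm.of_banach (L1 (Idx × Idx)))).comp_bij phip phip_bij

theorem qN_cnorm : IsCNorm qN :=
  ((IsCNorm.of_banach (L1 ℕ)).prod (IsCNorm.of_banach (L1 (Idx × Idx)))).comp_bij phiq phiq_bij

theorem pF_cnorm : IsCNorm pF := (IsCNorm.of_banach (L1 Idx)).prod (IsCNorm.of_banach ℂ)

/-- The shear attached to a functional. -/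
noncomputable def shear (τ : L1 Idx →ₗ[ℂ] ℂ) : (L1 Idx × ℂ) →ₗ[ℂ] (L1 Idx × ℂ) :=
  (LinearMap.fst ℂ (L1 Idx) ℂ).prod
    (LinearMap.snd ℂ (L1 Idx) ℂ - τ.comp (LinearMap.fst ℂ (L1 Idx) ℂ))

theorem shear_apply (τ : L1 Idx →ₗ[ℂ] ℂ) (f : L1 Idx × ℂ) : shear τ f = (f.1, f.2 - τ f.1) := rfl

theorem shear_bij (τ : L1 Idx →ₗ[ℂ] ℂ) : Function.Bijective (shear τ) := by
  constructor
  · rintro ⟨y, s⟩ ⟨y', s'⟩ h
    rw [shear_apply, shear_apply] at h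
    obtain ⟨h1, h2⟩ := Prod.ext_iff.1 h
    simp only at h1 h2
    subst h1
    exact Prod.ext rfl (sub_left_injective h2)
  · rintro ⟨y, s⟩
    refine ⟨(y, s + τ y), ?_⟩
    rw [shear_apply]
    simp

/-- The norm on `ℓ¹(Idx) × ℂ` attached to a functional. -/
noncomputable def shF (τ : L1 Idx →ₗ[ℂ] ℂ) (f : L1 Idx × ℂ) : ℝ := ‖f.1‖ + ‖f.2 - τ f.1‖

theorem shF_cnorm (τ : L1 Idx →ₗ[ℂ] ℂ) : IsCNorm (shF τ) :=
  pF_cnorm.comp_bij (shear τ) (shear_bij τ)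

theorem qF_cnorm : IsCNorm qF := shF_cnorm aL

/-- The sum norm of the algebra. -/
noncomputable def bigN (νN : NT → ℝ) (νF : L1 Idx × ℂ → ℝ) (x : TA) : ℝ :=
  ‖x.l0‖ + (‖x.l1‖ + (‖x.l2‖ + (‖x.l3‖ + (‖x.m‖ + (‖x.g‖ + (‖x.g'‖ + (‖x.e‖ +
    (νN x.n + νF x.f))))))))

theorem bigN_cnorm {νN : NT → ℝ} {νF : L1 Idx × ℂ → ℝ} (hN : IsCNorm νN) (hF : IsCNorm νF) :
    IsCNorm (bigN νN νF) := by
  have h := ((IsCNorm.of_banach ℂ).prod ((IsCNorm.of_banach ℂ).prod ((IsCNorm.of_banach ℂ).prod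
    ((IsCNorm.of_banach ℂ).prod ((IsCNorm.of_banach ℂ).prod
      ((IsCNorm.of_banach (L1 (Idx × Idx) →L[ℂ] ℂ)).prod
        ((IsCNorm.of_banach (L1 Idx →L[ℂ] ℂ)).prod ((IsCNorm.of_banach (L1 Idx)).prod
          (hN.prod hF)))))))))
  exact h.comp_bij (TA.equiv.linearEquiv ℂ).toLinearMap (TA.equiv.linearEquiv ℂ).bijective

/-- Submultiplicativity up to a constant. -/
theorem bigN_mul_le {νN : NT → ℝ} {νF : L1 Idx × ℂ → ℝ} (hN : IsCNorm νN) (hF : IsCNorm νF)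
    (h1 : ∀ n, ‖piN n‖ ≤ νN n) (h2 : ∀ f, ‖f.1‖ ≤ νF f) {C : ℝ} (hC : 0 ≤ C)
    (h3 : ∀ e f, νN (act e f) ≤ C * (‖e‖ * νF f)) (x y : TA) :
    bigN νN νF (x * y) ≤ (18 + ‖beta‖ + C) * (bigN νN νF x * bigN νN νF y) := by
  have hbeta : 0 ≤ ‖beta‖ := ContinuousLinearMap.opNorm_nonneg beta
  set S := bigN νN νF x with hS
  set S' := bigN νN νF y with hS'
  have e1 : S = ‖x.l0‖ + (‖x.l1‖ + (‖x.l2‖ + (‖x.l3‖ + (‖x.m‖ + (‖x.g‖ + (‖x.g'‖ + (‖x.e‖ +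
    (νN x.n + νF x.f)))))))) := rfl
  have e2 : S' = ‖y.l0‖ + (‖y.l1‖ + (‖y.l2‖ + (‖y.l3‖ + (‖y.m‖ + (‖y.g‖ + (‖y.g'‖ + (‖y.e‖ +
    (νN y.n + νF y.f)))))))) := rfl
  have a0 := norm_nonneg x.l0
  have a1 := norm_nonneg x.l1
  have a2 := norm_nonneg x.l2
  have a3 := norm_nonneg x.l3
  have a4 := norm_nonneg x.m
  have a5 := norm_nonneg x.g
  have a6 := norm_nonneg x.g'
  have a7 := norm_nonneg x.e
  have a8 := hN.nonneg x.n
  have a9 := hF.nonneg x.f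
  have b0 := norm_nonneg y.l0
  have b1 := norm_nonneg y.l1
  have b2 := norm_nonneg y.l2
  have b3 := norm_nonneg y.l3
  have b4 := norm_nonneg y.m
  have b5 := norm_nonneg y.g
  have b6 := norm_nonneg y.g'
  have b7 := norm_nonneg y.e
  have b8 := hN.nonneg y.n
  have b9 := hF.nonneg y.f
  have key : ∀ a b : ℝ, 0 ≤ b → a ≤ S → b ≤ S' → a * b ≤ S * S' := fun a b hb ha hb' =>
    mul_le_mul ha hb' hb (by rw [e1]; positivity)
  have c0 : ‖(x * y).l0‖ ≤ S * S' := by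
    rw [TA.mul_l0, norm_mul]; exact key _ _ b0 (by linarith) (by linarith)
  have c1 : ‖(x * y).l1‖ ≤ S * S' := by
    rw [TA.mul_l1, norm_mul]; exact key _ _ b1 (by linarith) (by linarith)
  have c2 : ‖(x * y).l2‖ ≤ S * S' := by
    rw [TA.mul_l2, norm_mul]; exact key _ _ b2 (by linarith) (by linarith)
  have c3 : ‖(x * y).l3‖ ≤ S * S' := by
    rw [TA.mul_l3, norm_mul]; exact key _ _ b3 (by linarith) (by linarith)
  have c4 : ‖(x * y).m‖ ≤ 4 * (S * S') := by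
    rw [TA.mul_m]
    have d1 : ‖x.l0 * y.m‖ ≤ S * S' := by
      rw [norm_mul]; exact key _ _ b4 (by linarith) (by linarith)
    have d2 : ‖x.g (piN y.n)‖ ≤ S * S' := by
      refine (x.g.le_opNorm _).trans ?_
      refine key _ _ (norm_nonneg _) (by linarith) ?_
      linarith [h1 y.n]
    have d3 : ‖x.g' y.f.1‖ ≤ S * S' := by
      refine (x.g'.le_opNorm _).trans ?_
      refine key _ _ (norm_nonneg _) (by linarith) ?_
      linarith [h2 y.f]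
    have d4 : ‖x.m * y.l3‖ ≤ S * S' := by
      rw [norm_mul]; exact key _ _ b3 (by linarith) (by linarith)
    have := norm_add₄_le (a := x.l0 * y.m) (b := x.g (piN y.n)) (c := x.g' y.f.1) (d := x.m * y.l3)
    linarith
  have c5 : ‖(x * y).g‖ ≤ 2 * (S * S') := by
    rw [TA.mul_g]
    have d1 : ‖x.l0 • y.g‖ ≤ S * S' := by
      rw [norm_smul]; exact key _ _ b5 (by linarith) (by linarith)
    have d2 : ‖y.l1 • x.g‖ ≤ S * S' := by
      rw [norm_smul, mul_comm]; exact key _ _ b1 (by linarith) (by linarith)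
    have := norm_add_le (x.l0 • y.g) (y.l1 • x.g)
    linarith
  have c6 : ‖(x * y).g'‖ ≤ (2 + ‖beta‖) * (S * S') := by
    rw [TA.mul_g']
    have d1 : ‖x.l0 • y.g'‖ ≤ S * S' := by
      rw [norm_smul]; exact key _ _ b6 (by linarith) (by linarith)
    have d2 : ‖x.g.comp (beta y.e)‖ ≤ ‖beta‖ * (S * S') := by
      refine (ContinuousLinearMap.opNorm_comp_le _ _).trans ?_
      have d3 : ‖beta y.e‖ ≤ ‖beta‖ * ‖y.e‖ := beta.le_opNorm _
      calc ‖x.g‖ * ‖beta y.e‖ ≤ ‖x.g‖ * (‖beta‖ * ‖y.e‖) :=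
            mul_le_mul_of_nonneg_left d3 a5
        _ = ‖beta‖ * (‖x.g‖ * ‖y.e‖) := by ring
        _ ≤ ‖beta‖ * (S * S') :=
            mul_le_mul_of_nonneg_left (key _ _ b7 (by linarith) (by linarith)) hbeta
    have d4 : ‖y.l2 • x.g'‖ ≤ S * S' := by
      rw [norm_smul, mul_comm]; exact key _ _ b2 (by linarith) (by linarith)
    have := norm_add₃_le (a := x.l0 • y.g') (b := x.g.comp (beta y.e)) (c := y.l2 • x.g')
    linarith
  have c7 : ‖(x * y).e‖ ≤ 2 * (S * S') := by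
    rw [TA.mul_e]
    have d1 : ‖x.l1 • y.e‖ ≤ S * S' := by
      rw [norm_smul]; exact key _ _ b7 (by linarith) (by linarith)
    have d2 : ‖y.l2 • x.e‖ ≤ S * S' := by
      rw [norm_smul, mul_comm]; exact key _ _ b2 (by linarith) (by linarith)
    have := norm_add_le (x.l1 • y.e) (y.l2 • x.e)
    linarith
  have c8 : νN (x * y).n ≤ (2 + C) * (S * S') := by
    rw [TA.mul_n]
    have d1 : νN (x.l1 • y.n) ≤ S * S' := by
      rw [hN.smul]; exact key _ _ b8 (by linarith) (by linarith)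
    have d2 : νN (act x.e y.f) ≤ C * (S * S') := by
      refine (h3 _ _).trans ?_
      exact mul_le_mul_of_nonneg_left (key _ _ b9 (by linarith) (by linarith)) hC
    have d4 : νN (y.l3 • x.n) ≤ S * S' := by
      rw [hN.smul, mul_comm]; exact key _ _ b3 (by linarith) (by linarith)
    have := hN.add_le (x.l1 • y.n + act x.e y.f) (y.l3 • x.n)
    have := hN.add_le (x.l1 • y.n) (act x.e y.f)
    linarith
  have c9 : νF (x * y).f ≤ 2 * (S * S') := by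
    rw [TA.mul_f]
    have d1 : νF (x.l2 • y.f) ≤ S * S' := by
      rw [hF.smul]; exact key _ _ b9 (by linarith) (by linarith)
    have d2 : νF (y.l3 • x.f) ≤ S * S' := by
      rw [hF.smul, mul_comm]; exact key _ _ b3 (by linarith) (by linarith)
    have := hF.add_le (x.l2 • y.f) (y.l3 • x.f)
    linarith
  unfold bigN
  have e3 : (18 + ‖beta‖ + C) * (S * S') = S * S' + (S * S' + (S * S' + (S * S' + (4 * (S * S') +
    (2 * (S * S') + ((2 + ‖beta‖) * (S * S') + (2 * (S * S') +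
      ((2 + C) * (S * S') + 2 * (S * S'))))))))) := by ring
  rw [e3]
  gcongr

/-- From complete norms on the two modules to a Banach algebra norm. -/
theorem isBanachAlgNorm_big {νN : NT → ℝ} {νF : L1 Idx × ℂ → ℝ} (hN : IsCNorm νN)
    (hF : IsCNorm νF)
    (h1 : ∀ n, ‖piN n‖ ≤ νN n) (h2 : ∀ f, ‖f.1‖ ≤ νF f) {C : ℝ} (hC : 0 ≤ C)
    (h3 : ∀ e f, νN (act e f) ≤ C * (‖e‖ * νF f)) :
    IsBanachAlgNorm TA (fun x => (18 + ‖beta‖ + C) * bigN νN νF x) := by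
  have hK : 0 < 18 + ‖beta‖ + C := by
    have := norm_nonneg beta
    linarith
  have hc := (bigN_cnorm hN hF).const_mul hK
  exact
    { eq_zero := hc.eq_zero
      smul := hc.smul
      add_le := hc.add_le
      complete := hc.complete
      mul_le := fun x y => by
        have := bigN_mul_le hN hF h1 h2 hC h3 x y
        calc (18 + ‖beta‖ + C) * bigN νN νF (x * y)
            ≤ (18 + ‖beta‖ + C) * ((18 + ‖beta‖ + C) * (bigN νN νF x * bigN νN νF y)) :=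
              mul_le_mul_of_nonneg_left this hK.le
          _ = _ := by ring }

/-- The constant of the action. -/
noncomputable def Cact : ℝ := 2 * ‖BJ JJ‖ + ‖kp‖ + ‖kq‖

theorem Cact_nonneg : 0 ≤ Cact := by unfold Cact; positivity

theorem norm_BJ_outer (e y : L1 Idx) :
    ‖BJ JJ (outer Idx Idx e y)‖ ≤ ‖BJ JJ‖ * (‖e‖ * ‖y‖) := by
  rw [← norm_outer]
  exact (BJ JJ).le_opNorm _

theorem pN_act (e : L1 Idx) (f : L1 Idx × ℂ) : pN (act e f) ≤ Cact * (‖e‖ * pF f) := by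
  have h1 := norm_BJ_outer e f.1
  have h2 : ‖(BJ JJ (outer Idx Idx e f.1)).1‖ ≤ ‖BJ JJ (outer Idx Idx e f.1)‖ := norm_fst_le _
  have h3 : ‖(BJ JJ (outer Idx Idx e f.1)).2.2‖ ≤ ‖BJ JJ (outer Idx Idx e f.1)‖ :=
    (norm_snd_le _).trans (norm_snd_le _)
  have h4 : ‖f.2 • kp e‖ ≤ ‖f.2‖ * (‖kp‖ * ‖e‖) := by
    rw [norm_smul]
    exact mul_le_mul_of_nonneg_left (kp.le_opNorm _) (norm_nonneg _)
  have h5 : pN (act e f) = ‖(BJ JJ (outer Idx Idx e f.1)).1 + f.2 • kp e‖ +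
      ‖(BJ JJ (outer Idx Idx e f.1)).2.2 + 0‖ := rfl
  rw [h5, add_zero]
  have h6 := norm_add_le (BJ JJ (outer Idx Idx e f.1)).1 (f.2 • kp e)
  unfold Cact pF
  have g1 : 0 ≤ ‖BJ JJ‖ := norm_nonneg _
  have g2 : 0 ≤ ‖kp‖ := norm_nonneg _
  have g3 : 0 ≤ ‖kq‖ := norm_nonneg _
  have g4 : 0 ≤ ‖e‖ := norm_nonneg _
  have g5 : 0 ≤ ‖f.1‖ := norm_nonneg _
  have g6 : 0 ≤ ‖f.2‖ := norm_nonneg _
  have e1 : (2 * ‖BJ JJ‖ + ‖kp‖ + ‖kq‖) * (‖e‖ * (‖f.1‖ + ‖f.2‖)) =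
    2 * (‖BJ JJ‖ * (‖e‖ * ‖f.1‖)) + ‖f.2‖ * (‖kp‖ * ‖e‖) + (2 * ‖BJ JJ‖ * (‖e‖ * ‖f.2‖) +
      ‖kp‖ * (‖e‖ * ‖f.1‖) + ‖kq‖ * (‖e‖ * (‖f.1‖ + ‖f.2‖))) := by ring
  rw [e1]
  have e2 : 0 ≤ (2 * ‖BJ JJ‖ * (‖e‖ * ‖f.2‖) +
      ‖kp‖ * (‖e‖ * ‖f.1‖) + ‖kq‖ * (‖e‖ * (‖f.1‖ + ‖f.2‖))) := by positivity
  linarith

theorem qN_act (e : L1 Idx) (f : L1 Idx × ℂ) : qN (act e f) ≤ Cact * (‖e‖ * qF f) := by
  have h1 := norm_BJ_outer e f.1
  have h2 : ‖(BJ JJ (outer Idx Idx e f.1)).2.1‖ ≤ ‖BJ JJ (outer Idx Idx e f.1)‖ :=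
    (norm_fst_le _).trans (norm_snd_le _)
  have h3 : ‖(BJ JJ (outer Idx Idx e f.1)).2.2‖ ≤ ‖BJ JJ (outer Idx Idx e f.1)‖ :=
    (norm_snd_le _).trans (norm_snd_le _)
  have h4 : ‖(f.2 - aL f.1) • kq e‖ ≤ ‖f.2 - aL f.1‖ * (‖kq‖ * ‖e‖) := by
    rw [norm_smul]
    exact mul_le_mul_of_nonneg_left (kq.le_opNorm _) (norm_nonneg _)
  have h5 : qN (act e f) = ‖(BJ JJ (outer Idx Idx e f.1)).2.1 + (f.2 - aL f.1) • kq e‖ +
      ‖(BJ JJ (outer Idx Idx e f.1)).2.2 + 0‖ := rfl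
  rw [h5, add_zero]
  have h6 := norm_add_le (BJ JJ (outer Idx Idx e f.1)).2.1 ((f.2 - aL f.1) • kq e)
  unfold Cact qF
  have g1 : 0 ≤ ‖BJ JJ‖ := norm_nonneg _
  have g2 : 0 ≤ ‖kp‖ := norm_nonneg _
  have g3 : 0 ≤ ‖kq‖ := norm_nonneg _
  have g4 : 0 ≤ ‖e‖ := norm_nonneg _
  have g5 : 0 ≤ ‖f.1‖ := norm_nonneg _
  have g6 : 0 ≤ ‖f.2 - aL f.1‖ := norm_nonneg _
  have e1 : (2 * ‖BJ JJ‖ + ‖kp‖ + ‖kq‖) * (‖e‖ * (‖f.1‖ + ‖f.2 - aL f.1‖)) =
    2 * (‖BJ JJ‖ * (‖e‖ * ‖f.1‖)) + ‖f.2 - aL f.1‖ * (‖kq‖ * ‖e‖) +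
      (2 * ‖BJ JJ‖ * (‖e‖ * ‖f.2 - aL f.1‖) +
      ‖kq‖ * (‖e‖ * ‖f.1‖) + ‖kp‖ * (‖e‖ * (‖f.1‖ + ‖f.2 - aL f.1‖))) := by ring
  rw [e1]
  have e2 : 0 ≤ (2 * ‖BJ JJ‖ * (‖e‖ * ‖f.2 - aL f.1‖) +
      ‖kq‖ * (‖e‖ * ‖f.1‖) + ‖kp‖ * (‖e‖ * (‖f.1‖ + ‖f.2 - aL f.1‖))) := by positivity
  linarith

/-- The first Banach algebra norm. -/
noncomputable def normP (x : TA) : ℝ := (18 + ‖beta‖ + Cact) * bigN pN pF x

/-- The second Banach algebra norm. -/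
noncomputable def normQ (x : TA) : ℝ := (18 + ‖beta‖ + Cact) * bigN qN qF x

theorem normP_isBanachAlgNorm : IsBanachAlgNorm TA normP :=
  isBanachAlgNorm_big pN_cnorm pF_cnorm
    (fun n => by
      have := norm_nonneg (n : Big).1
      unfold pN
      rw [piN_apply]
      linarith)
    (fun f => by
      have := norm_nonneg f.2
      unfold pF
      linarith) Cact_nonneg pN_act

theorem normQ_isBanachAlgNorm : IsBanachAlgNorm TA normQ :=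
  isBanachAlgNorm_big qN_cnorm qF_cnorm
    (fun n => by
      have := norm_nonneg (n : Big).2.1
      unfold qN
      rw [piN_apply]
      linarith)
    (fun f => by
      have := norm_nonneg (f.2 - aL f.1)
      unfold qF
      linarith) Cact_nonneg qN_act

end H80
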