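import Pool.Agent.Lib_helper80.TNClass2

/-!
End of the classification and the count.
-/

namespace H80

open Idx L1 TensorProduct Filter Topology TA

theorem norm_Big_le (v : Big) : ‖v‖ ≤ ‖v.1‖ + (‖v.2.1‖ + ‖v.2.2‖) := by
  have a1 := norm_nonneg v.1
  have a2 := norm_nonneg v.2.1
  have a3 := norm_nonneg v.2.2
  rw [Prod.norm_def, Prod.norm_def]
  refine max_le (by linarith) (max_le (by linarith) (by linarith))

section cls

variable {ν : TA → ℝ} (h : IsBanachAlgNorm TA ν) {t : ℂ} {K : ℝ} (hK : 0 < K)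
  (hF : ∀ f : L1 Idx × ℂ, ν (iF f) ≤ K * (‖f.1‖ + ‖f.2 - t * aL f.1‖))
include h hK hF

omit hK in
/-- Products with the null sequence tend to zero. -/
theorem act_yk (e : L1 Idx) (k : ℕ) : ν (iN (act e (yk k, t))) ≤ ν (iE e) * (K * ‖yk k‖) := by
  refine (act_bound h _ _).trans (mul_le_mul_of_nonneg_left ?_ (h.cnorm.nonneg _))
  have h1 := hF (yk k, t)
  simp only [aL_yk, mul_one, sub_self, norm_zero, add_zero] at h1
  exact h1

/-- The parameter is zero or one. -/
theorem t_zero_or_one : t = 0 ∨ t = 1 := by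
  obtain ⟨K', hK', hE⟩ := rE_bound h
  obtain ⟨K'', hK'', hN⟩ := rN_bound h
  set s0 : NT := act (single (base 0)) (0, 1) with hs0
  have hs0v : (s0 : Big) = (single 0, single 0, 0) := by
    rw [hs0, act_coe]
    unfold actv
    simp only [map_zero, zero_add, one_smul, sub_zero, kp_base, pow_zero, kq_base_zero]
  have hs0ne : s0 ≠ 0 := by
    intro h0
    have h1 : (s0 : Big).1 = 0 := by rw [h0]; rfl
    rw [hs0v] at h1
    have h3 := congrArg (fun x : L1 ℕ => x 0) h1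
    simp only [single_apply_self] at h3
    exact one_ne_zero h3
  have hpos : 0 < ν (iN s0) := (rN_cnorm h).pos hs0ne
  -- the approximating elements
  set ek : ℕ → L1 Idx := fun k => (t - 1) • single (base 0) + single (base (k + 1)) with hek
  have hek1 : ∀ k, ‖ek k‖ ≤ ‖t - 1‖ + 1 := by
    intro k
    refine (norm_add_le _ _).trans ?_
    rw [norm_smul, norm_single, norm_single, mul_one]
  have hdiff : ∀ k, ((act (ek k) (yk k, t) - (t * (t - 1)) • s0 : NT) : Big) =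
      BJ JJ (outer Idx Idx (ek k) (yk k)) +
        ((1 / 2 : ℂ) ^ (k + 1)) • (t • single (k + 1), (t - 1) • single (k + 1), 0) := by
    intro k
    rw [Submodule.coe_sub, Submodule.coe_smul, act_coe, hs0v]
    unfold actv
    simp only [aL_yk, hek, map_add, map_smul, kp_base, kq_base_succ, kq_base_zero, pow_zero,
      one_smul]
    rw [add_sub_assoc]
    congr 1
    refine Prod.ext ?_ (Prod.ext ?_ ?_)
    · simp only [Prod.smul_mk, Prod.mk_sub_mk]
      module
    · simp only [Prod.smul_mk, Prod.mk_sub_mk]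
      module
    · simp
  have hb : ∀ k, ν (iN ((t * (t - 1)) • s0)) ≤
      (K' * (‖t - 1‖ + 1) * K + K'' * (‖BJ JJ‖ * (‖t - 1‖ + 1) + (‖t‖ + ‖t - 1‖))) * ‖yk k‖ := by
    intro k
    have e1 : (t * (t - 1)) • s0 = act (ek k) (yk k, t) -
        (act (ek k) (yk k, t) - (t * (t - 1)) • s0) := by abel
    have h1 : ν (iN ((t * (t - 1)) • s0)) ≤ ν (iN (act (ek k) (yk k, t))) +
        ν (iN (act (ek k) (yk k, t) - (t * (t - 1)) • s0)) := by
      rw [e1, map_sub, ← e1]
      exact h.cnorm.sub_le _ _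
    have h2 := act_yk h hF (ek k) k
    have h3 : ν (iE (ek k)) ≤ K' * (‖t - 1‖ + 1) :=
      (hE _).trans (mul_le_mul_of_nonneg_left (hek1 k) hK'.le)
    have h4 : ν (iE (ek k)) * (K * ‖yk k‖) ≤ K' * (‖t - 1‖ + 1) * (K * ‖yk k‖) :=
      mul_le_mul_of_nonneg_right h3 (by positivity)
    have h5 := hN (act (ek k) (yk k, t) - (t * (t - 1)) • s0)
    rw [hdiff k] at h5
    have h6 := norm_BJ_outer (ek k) (yk k)
    have h7 : ‖BJ JJ‖ * (‖ek k‖ * ‖yk k‖) ≤ ‖BJ JJ‖ * ((‖t - 1‖ + 1) * ‖yk k‖) :=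
      mul_le_mul_of_nonneg_left (mul_le_mul_of_nonneg_right (hek1 k) (norm_nonneg _))
        (norm_nonneg _)
    have h8 : ‖((1 / 2 : ℂ) ^ (k + 1)) • ((t • single (k + 1), (t - 1) • single (k + 1), 0) : Big)‖
        ≤ (‖t‖ + ‖t - 1‖) * ‖yk k‖ := by
      rw [norm_smul]
      have h9 : ‖(1 / 2 : ℂ) ^ (k + 1)‖ = ‖yk k‖ := by
        rw [norm_yk, norm_pow]; norm_num
      rw [h9, mul_comm]
      refine mul_le_mul_of_nonneg_right ?_ (norm_nonneg _)
      refine (norm_Big_le _).trans ?_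
      simp only [norm_smul, norm_single, mul_one, norm_zero, add_zero]
      exact le_rfl
    have h10 := norm_add_le (BJ JJ (outer Idx Idx (ek k) (yk k)))
      (((1 / 2 : ℂ) ^ (k + 1)) • ((t • single (k + 1), (t - 1) • single (k + 1), 0) : Big))
    have h11 : K'' * ‖BJ JJ (outer Idx Idx (ek k) (yk k)) +
        ((1 / 2 : ℂ) ^ (k + 1)) • ((t • single (k + 1), (t - 1) • single (k + 1), 0) : Big)‖ ≤
        K'' * (‖BJ JJ‖ * ((‖t - 1‖ + 1) * ‖yk k‖) + (‖t‖ + ‖t - 1‖) * ‖yk k‖) :=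
      mul_le_mul_of_nonneg_left (by linarith) hK''.le
    calc ν (iN ((t * (t - 1)) • s0)) ≤ K' * (‖t - 1‖ + 1) * (K * ‖yk k‖) +
        K'' * (‖BJ JJ‖ * ((‖t - 1‖ + 1) * ‖yk k‖) + (‖t‖ + ‖t - 1‖) * ‖yk k‖) := by linarith
      _ = _ := by ring
  have hlim : Tendsto (fun k => (K' * (‖t - 1‖ + 1) * K +
      K'' * (‖BJ JJ‖ * (‖t - 1‖ + 1) + (‖t‖ + ‖t - 1‖))) * ‖yk k‖) atTop
      (𝓝 ((K' * (‖t - 1‖ + 1) * K +
      K'' * (‖BJ JJ‖ * (‖t - 1‖ + 1) + (‖t‖ + ‖t - 1‖))) * 0)) := tendsto_yk.const_mul _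
  have h0 := ge_of_tendsto' hlim hb
  rw [mul_zero, map_smul, h.smul] at h0
  have h1 : ‖t * (t - 1)‖ ≤ 0 := by
    by_contra hcon
    push Not at hcon
    have := mul_pos hcon hpos
    linarith
  have h2 := norm_le_zero_iff.1 h1
  rcases mul_eq_zero.1 h2 with h3 | h3
  · exact Or.inl h3
  · exact Or.inr (sub_eq_zero.1 h3)

omit hK in
/-- Bound of the norm on the module when the parameter is one. -/
theorem rN_of_one (ht : t = 1) : ∃ C : ℝ, 0 < C ∧ ∀ n : NT, ν (iN n) ≤ C * qN n := by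
  subst ht
  obtain ⟨K'', hK'', hN⟩ := rN_bound h
  refine ⟨K'', hK'', fun n => ?_⟩
  have h1 : ∀ e : L1 Idx, ν (iN n) ≤ K'' * (‖(n : Big).1 - kp e‖ + qN n) := by
    intro e
    have hb : ∀ k, ν (iN n) ≤ ν (iE e) * (K * ‖yk k‖) +
        K'' * ((‖(n : Big).1 - kp e‖ + qN n) + ‖BJ JJ‖ * (‖e‖ * ‖yk k‖)) := by
      intro k
      have e1 : n = act e (yk k, 1) + (n - act e (yk k, 1)) := by abel
      have h2 : ν (iN n) ≤ ν (iN (act e (yk k, 1))) + ν (iN (n - act e (yk k, 1))) := by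
        have := h.cnorm.add_le (iN (act e (yk k, 1))) (iN (n - act e (yk k, 1)))
        rwa [← map_add, ← e1] at this
      have h3 := act_yk h hF e k
      have h4 := hN (n - act e (yk k, 1))
      have h5 : ((n - act e (yk k, 1) : NT) : Big) =
          ((n : Big).1 - kp e, (n : Big).2.1, (n : Big).2.2) - BJ JJ (outer Idx Idx e (yk k)) := by
        rw [Submodule.coe_sub, act_coe]
        unfold actv
        simp only [aL_yk, sub_self, zero_smul, one_smul]
        refine Prod.ext ?_ (Prod.ext ?_ ?_)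
        · simp; abel
        · simp
        · simp
      rw [h5] at h4
      have h6 := norm_sub_le (((n : Big).1 - kp e, (n : Big).2.1, (n : Big).2.2) : Big)
        (BJ JJ (outer Idx Idx e (yk k)))
      have h7 := norm_Big_le ((n : Big).1 - kp e, (n : Big).2.1, (n : Big).2.2)
      have h8 := norm_BJ_outer e (yk k)
      have h9 : K'' * ‖(((n : Big).1 - kp e, (n : Big).2.1, (n : Big).2.2) : Big) -
          BJ JJ (outer Idx Idx e (yk k))‖ ≤
          K'' * ((‖(n : Big).1 - kp e‖ + qN n) + ‖BJ JJ‖ * (‖e‖ * ‖yk k‖)) := by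
        refine mul_le_mul_of_nonneg_left ?_ hK''.le
        unfold qN
        simp only at h7
        linarith
      linarith
    have hlim : Tendsto (fun k => ν (iE e) * (K * ‖yk k‖) +
        K'' * ((‖(n : Big).1 - kp e‖ + qN n) + ‖BJ JJ‖ * (‖e‖ * ‖yk k‖))) atTop
        (𝓝 (ν (iE e) * (K * 0) +
        K'' * ((‖(n : Big).1 - kp e‖ + qN n) + ‖BJ JJ‖ * (‖e‖ * 0)))) :=
      ((tendsto_yk.const_mul K).const_mul _).add
        ((((tendsto_yk.const_mul ‖e‖).const_mul ‖BJ JJ‖).const_add _).const_mul K'')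
    have := ge_of_tendsto' hlim hb
    simpa using this
  refine le_of_forall_pos_le_add (fun ε hε => ?_)
  obtain ⟨e, he⟩ := kp_dense (n : Big).1 kp kp_single (ε := ε / K'') (by positivity)
  have h2 := h1 e
  have h3 : K'' * ‖(n : Big).1 - kp e‖ ≤ ε := by
    have := mul_le_mul_of_nonneg_left he.le hK''.le
    rwa [mul_div_cancel₀ _ hK''.ne'] at this
  linarith

omit hK in
/-- Bound of the norm on the module when the parameter is zero. -/
theorem rN_of_zero (ht : t = 0) : ∃ C : ℝ, 0 < C ∧ ∀ n : NT, ν (iN n) ≤ C * pN n := by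
  subst ht
  obtain ⟨K'', hK'', hN⟩ := rN_bound h
  refine ⟨K'', hK'', fun n => ?_⟩
  have h1 : ∀ e : L1 Idx, ν (iN n) ≤ K'' * (‖(n : Big).2.1 - kq e‖ + pN n) := by
    intro e
    have hb : ∀ k, ν (iN n) ≤ ν (iE e) * (K * ‖yk k‖) +
        K'' * ((‖(n : Big).2.1 - kq e‖ + pN n) + ‖BJ JJ‖ * (‖e‖ * ‖yk k‖)) := by
      intro k
      have e1 : n = -act e (yk k, 0) + (n + act e (yk k, 0)) := by abel
      have h2 : ν (iN n) ≤ ν (iN (act e (yk k, 0))) + ν (iN (n + act e (yk k, 0))) := by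
        have := h.cnorm.add_le (iN (-act e (yk k, 0))) (iN (n + act e (yk k, 0)))
        rw [← map_add, ← e1, map_neg, h.cnorm.neg] at this
        exact this
      have h3 := act_yk h hF e k
      have h4 := hN (n + act e (yk k, 0))
      have h5 : ((n + act e (yk k, 0) : NT) : Big) =
          ((n : Big).1, (n : Big).2.1 - kq e, (n : Big).2.2) + BJ JJ (outer Idx Idx e (yk k)) := by
        rw [Submodule.coe_add, act_coe]
        unfold actv
        simp only [aL_yk, zero_smul, zero_sub, neg_smul, one_smul]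
        refine Prod.ext ?_ (Prod.ext ?_ ?_)
        · simp
        · simp; abel
        · simp
      rw [h5] at h4
      have h6 := norm_add_le (((n : Big).1, (n : Big).2.1 - kq e, (n : Big).2.2) : Big)
        (BJ JJ (outer Idx Idx e (yk k)))
      have h7 := norm_Big_le ((n : Big).1, (n : Big).2.1 - kq e, (n : Big).2.2)
      have h8 := norm_BJ_outer e (yk k)
      have h9 : K'' * ‖(((n : Big).1, (n : Big).2.1 - kq e, (n : Big).2.2) : Big) +
          BJ JJ (outer Idx Idx e (yk k))‖ ≤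
          K'' * ((‖(n : Big).2.1 - kq e‖ + pN n) + ‖BJ JJ‖ * (‖e‖ * ‖yk k‖)) := by
        refine mul_le_mul_of_nonneg_left ?_ hK''.le
        unfold pN
        simp only at h7
        linarith
      linarith
    have hlim : Tendsto (fun k => ν (iE e) * (K * ‖yk k‖) +
        K'' * ((‖(n : Big).2.1 - kq e‖ + pN n) + ‖BJ JJ‖ * (‖e‖ * ‖yk k‖))) atTop
        (𝓝 (ν (iE e) * (K * 0) +
        K'' * ((‖(n : Big).2.1 - kq e‖ + pN n) + ‖BJ JJ‖ * (‖e‖ * 0)))) :=
      ((tendsto_yk.const_mul K).const_mul _).add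
        ((((tendsto_yk.const_mul ‖e‖).const_mul ‖BJ JJ‖).const_add _).const_mul K'')
    have := ge_of_tendsto' hlim hb
    simpa using this
  refine le_of_forall_pos_le_add (fun ε hε => ?_)
  obtain ⟨e, he⟩ := kp_dense (n : Big).2.1 kq kq_single (ε := ε / K'') (by positivity)
  have h2 := h1 e
  have h3 : K'' * ‖(n : Big).2.1 - kq e‖ ≤ ε := by
    have := mul_le_mul_of_nonneg_left he.le hK''.le
    rwa [mul_div_cancel₀ _ hK''.ne'] at this
  linarith

end cls

/-- A Banach algebra norm dominated on the two modules is dominated by the sum norm. -/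
theorem le_big {ν : TA → ℝ} (h : IsBanachAlgNorm TA ν) {νN : NT → ℝ} {νF : L1 Idx × ℂ → ℝ}
    (hcN : IsCNorm νN) (hcF : IsCNorm νF)
    {C D : ℝ} (hC : 0 < C) (hD : 0 < D) (hN : ∀ n : NT, ν (iN n) ≤ C * νN n)
    (hF : ∀ f : L1 Idx × ℂ, ν (iF f) ≤ D * νF f) :
    ∃ K : ℝ, 0 < K ∧ ∀ x, ν x ≤ K * bigN νN νF x := by
  obtain ⟨a, ha, hG⟩ := rG_bound h
  obtain ⟨b, hb, hG'⟩ := rG'_bound h
  obtain ⟨c, hc, hE⟩ := rE_bound h
  have n0 := h.cnorm.nonneg E0
  have n1 := h.cnorm.nonneg E1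
  have n2 := h.cnorm.nonneg E2
  have n3 := h.cnorm.nonneg E3
  have n4 := h.cnorm.nonneg M1
  set K : ℝ := ν E0 + ν E1 + ν E2 + ν E3 + ν M1 + a + b + c + C + D with hKdef
  have hK : 0 < K := by rw [hKdef]; positivity
  refine ⟨K, hK, fun x => ?_⟩
  have tri : ν x ≤ ‖x.l0‖ * ν E0 + (‖x.l1‖ * ν E1 + (‖x.l2‖ * ν E2 + (‖x.l3‖ * ν E3 +
      (‖x.m‖ * ν M1 + (ν (iG x.g) + (ν (iG' x.g') + (ν (iE x.e) +
        (ν (iN x.n) + ν (iF x.f))))))))) := by
    have e := decomp x
    calc ν x = ν (x.l0 • E0 + (x.l1 • E1 + (x.l2 • E2 + (x.l3 • E3 + (x.m • M1 +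
        (iG x.g + (iG' x.g' + (iE x.e + (iN x.n + iF x.f))))))))) := by rw [← e]
      _ ≤ _ := by
        refine (h.add_le _ _).trans (add_le_add (h.smul _ _).le ?_)
        refine (h.add_le _ _).trans (add_le_add (h.smul _ _).le ?_)
        refine (h.add_le _ _).trans (add_le_add (h.smul _ _).le ?_)
        refine (h.add_le _ _).trans (add_le_add (h.smul _ _).le ?_)
        refine (h.add_le _ _).trans (add_le_add (h.smul _ _).le ?_)
        refine (h.add_le _ _).trans (add_le_add le_rfl ?_)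
        refine (h.add_le _ _).trans (add_le_add le_rfl ?_)
        refine (h.add_le _ _).trans (add_le_add le_rfl ?_)
        exact h.add_le _ _
  have t0 : ‖x.l0‖ * ν E0 ≤ K * ‖x.l0‖ := by
    rw [mul_comm]; exact mul_le_mul_of_nonneg_right (by rw [hKdef]; linarith) (norm_nonneg _)
  have t1 : ‖x.l1‖ * ν E1 ≤ K * ‖x.l1‖ := by
    rw [mul_comm]; exact mul_le_mul_of_nonneg_right (by rw [hKdef]; linarith) (norm_nonneg _)
  have t2 : ‖x.l2‖ * ν E2 ≤ K * ‖x.l2‖ := by
    rw [mul_comm]; exact mul_le_mul_of_nonneg_right (by rw [hKdef]; linarith) (norm_nonneg _)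
  have t3 : ‖x.l3‖ * ν E3 ≤ K * ‖x.l3‖ := by
    rw [mul_comm]; exact mul_le_mul_of_nonneg_right (by rw [hKdef]; linarith) (norm_nonneg _)
  have t4 : ‖x.m‖ * ν M1 ≤ K * ‖x.m‖ := by
    rw [mul_comm]; exact mul_le_mul_of_nonneg_right (by rw [hKdef]; linarith) (norm_nonneg _)
  have t5 : ν (iG x.g) ≤ K * ‖x.g‖ := (hG _).trans
    (mul_le_mul_of_nonneg_right (by rw [hKdef]; linarith) (norm_nonneg _))
  have t6 : ν (iG' x.g') ≤ K * ‖x.g'‖ := (hG' _).trans
    (mul_le_mul_of_nonneg_right (by rw [hKdef]; linarith) (norm_nonneg _))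
  have t7 : ν (iE x.e) ≤ K * ‖x.e‖ := (hE _).trans
    (mul_le_mul_of_nonneg_right (by rw [hKdef]; linarith) (norm_nonneg _))
  have t8 : ν (iN x.n) ≤ K * νN x.n := (hN _).trans
    (mul_le_mul_of_nonneg_right (by rw [hKdef]; linarith) (hcN.nonneg _))
  have t9 : ν (iF x.f) ≤ K * νF x.f := (hF _).trans
    (mul_le_mul_of_nonneg_right (by rw [hKdef]; linarith) (hcF.nonneg _))
  unfold bigN
  rw [mul_add, mul_add, mul_add, mul_add, mul_add, mul_add, mul_add, mul_add, mul_add]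
  linarith

/-- Two comparable Banach algebra norms are equivalent. -/
theorem normEquiv_of_le {A : Type*} [NonUnitalRing A] [Module ℂ A] {ν μ : A → ℝ}
    (hν : IsBanachAlgNorm A ν) (hμ : IsBanachAlgNorm A μ) {K : ℝ} (_ : 0 < K)
    (h : ∀ x, ν x ≤ K * μ x) : NormEquiv μ ν := by
  obtain ⟨K', hK', h'⟩ := hν.cnorm.equiv_of_le hμ.cnorm h
  refine ⟨K'⁻¹, max K K'⁻¹, inv_pos.2 hK', le_max_right _ _, fun x => ⟨?_, ?_⟩⟩
  · rw [inv_mul_le_iff₀ hK']; exact h' x
  · exact (h x).trans (mul_le_mul_of_nonneg_right (le_max_left _ _) (hμ.cnorm.nonneg _))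

/-- Every Banach algebra norm of the algebra is equivalent to one of the two. -/
theorem dichotomy {ν : TA → ℝ} (h : IsBanachAlgNorm TA ν) :
    NormEquiv normP ν ∨ NormEquiv normQ ν := by
  have hpos : 0 < 18 + ‖beta‖ + Cact := by
    have := Cact_nonneg
    have := norm_nonneg beta
    linarith
  obtain ⟨t, K, hK, hF⟩ := rF_shape2 h
  rcases t_zero_or_one h hK hF with ht | ht
  · left
    obtain ⟨C, hC, hN⟩ := rN_of_zero h hF ht
    subst ht
    have hF' : ∀ f : L1 Idx × ℂ, ν (iF f) ≤ K * pF f := by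
      intro f
      have := hF f
      rwa [zero_mul, sub_zero] at this
    obtain ⟨K', hK', hle⟩ := le_big h pN_cnorm pF_cnorm hC hK hN hF'
    refine normEquiv_of_le h normP_isBanachAlgNorm (K := K' / (18 + ‖beta‖ + Cact))
      (div_pos hK' hpos) (fun x => ?_)
    unfold normP
    rw [div_mul_eq_mul_div, mul_comm (18 + ‖beta‖ + Cact) (bigN pN pF x), ← mul_assoc,
      mul_div_cancel_right₀ _ hpos.ne']
    exact hle x
  · right
    obtain ⟨C, hC, hN⟩ := rN_of_one h hF ht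
    subst ht
    have hF' : ∀ f : L1 Idx × ℂ, ν (iF f) ≤ K * qF f := by
      intro f
      have := hF f
      rwa [one_mul] at this
    obtain ⟨K', hK', hle⟩ := le_big h qN_cnorm qF_cnorm hC hK hN hF'
    refine normEquiv_of_le h normQ_isBanachAlgNorm (K := K' / (18 + ‖beta‖ + Cact))
      (div_pos hK' hpos) (fun x => ?_)
    unfold normQ
    rw [div_mul_eq_mul_div, mul_comm (18 + ‖beta‖ + Cact) (bigN qN qF x), ← mul_assoc,
      mul_div_cancel_right₀ _ hpos.ne']
    exact hle x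

/-- The two norms are not equivalent. -/
theorem not_equiv : ¬ NormEquiv normP normQ := by
  have hpos : 0 < 18 + ‖beta‖ + Cact := by
    have := Cact_nonneg
    have := norm_nonneg beta
    linarith
  rintro ⟨c, C, hc, hC, h⟩
  have hp : ∀ k, normP (iF (yk k, 0)) = (18 + ‖beta‖ + Cact) * ‖yk k‖ := by
    intro k
    have : bigN pN pF (iF (yk k, 0)) = ‖yk k‖ := by
      change ‖(0 : ℂ)‖ + (‖(0 : ℂ)‖ + (‖(0 : ℂ)‖ + (‖(0 : ℂ)‖ + (‖(0 : ℂ)‖ +
        (‖(0 : L1 (Idx × Idx) →L[ℂ] ℂ)‖ + (‖(0 : L1 Idx →L[ℂ] ℂ)‖ + (‖(0 : L1 Idx)‖ +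
        (pN 0 + pF (yk k, 0))))))))) = ‖yk k‖
      rw [pN_cnorm.zero]
      unfold pF
      simp
    unfold normP
    rw [this]
  have hq : ∀ k, 18 + ‖beta‖ + Cact ≤ normQ (iF (yk k, 0)) := by
    intro k
    have : bigN qN qF (iF (yk k, 0)) = ‖yk k‖ + 1 := by
      change ‖(0 : ℂ)‖ + (‖(0 : ℂ)‖ + (‖(0 : ℂ)‖ + (‖(0 : ℂ)‖ + (‖(0 : ℂ)‖ +
        (‖(0 : L1 (Idx × Idx) →L[ℂ] ℂ)‖ + (‖(0 : L1 Idx →L[ℂ] ℂ)‖ + (‖(0 : L1 Idx)‖ +
        (qN 0 + qF (yk k, 0))))))))) = ‖yk k‖ + 1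
      rw [qN_cnorm.zero]
      unfold qF
      simp [aL_yk]
    unfold normQ
    rw [this]
    have := norm_nonneg (yk k)
    nlinarith
  have h1 : ∀ k, 18 + ‖beta‖ + Cact ≤ C * ((18 + ‖beta‖ + Cact) * ‖yk k‖) := by
    intro k
    have := (h (iF (yk k, 0))).2
    rw [hp k] at this
    exact (hq k).trans this
  have hlim : Tendsto (fun k => C * ((18 + ‖beta‖ + Cact) * ‖yk k‖)) atTop
      (𝓝 (C * ((18 + ‖beta‖ + Cact) * 0))) := (tendsto_yk.const_mul _).const_mul _
  have := ge_of_tendsto' hlim h1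
  rw [mul_zero, mul_zero] at this
  linarith

/-- The algebra has exactly two inequivalent Banach algebra norms. -/
theorem numNorms_TA : numNorms TA = 2 := by
  let P : Quotient (normSetoid TA) := Quotient.mk _ ⟨normP, normP_isBanachAlgNorm⟩
  let Q : Quotient (normSetoid TA) := Quotient.mk _ ⟨normQ, normQ_isBanachAlgNorm⟩
  have hPQ : P ≠ Q := fun e => not_equiv (Quotient.exact e)
  have hall : ∀ x : Quotient (normSetoid TA), x = P ∨ x = Q := by
    intro x
    induction x using Quotient.inductionOn with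
    | h ν =>
      rcases dichotomy ν.2 with h | h
      · exact Or.inl (Quotient.sound h.symm)
      · exact Or.inr (Quotient.sound h.symm)
  have hcard : Nat.card (Quotient (normSetoid TA)) = 2 := by
    rw [Nat.card_eq_two_iff]
    refine ⟨P, Q, hPQ, ?_⟩
    ext x
    simpa using hall x
  have hfin : Finite (Quotient (normSetoid TA)) := Nat.finite_of_card_ne_zero (by omega)
  unfold numNorms
  rw [ENat.card_eq_coe_natCard, hcard]
  rfl

end H80
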