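import Pool.Agent.Lib_helper80.L1Space

/-!
The index type: a tree type whose nodes code the elements of `ℓ¹(ℕ) × ℓ¹(ℕ) × ℓ¹(Idx × Idx)`,
with a well order for which the support of the element coded by a node lies below the node.
-/

namespace H80

/-- The index type. -/
inductive Idx : Type
  | base (n : ℕ) : Idx
  | node (x y c : L1 ℕ) (f g : ℕ → Idx) : Idx

namespace Idx

/-- The immediate predecessor relation of the tree type. -/
def Sub (j : Idx) : Idx → Prop
  | base _ => False
  | node _ _ _ f g => ∃ k, j = f k ∨ j = g k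

theorem sub_wf : WellFounded Sub := by
  refine ⟨fun i => ?_⟩
  induction i with
  | base n => exact ⟨_, fun j hj => hj.elim⟩
  | node x y c f g hf hg =>
    refine ⟨_, fun j hj => ?_⟩
    obtain ⟨k, rfl | rfl⟩ := hj
    · exact hf k
    · exact hg k

instance : IsWellFounded Idx Sub := ⟨sub_wf⟩

noncomputable instance : LinearOrder Idx := IsWellFounded.wellOrderExtension Sub

instance : WellFoundedLT Idx := IsWellFounded.wellOrderExtension.isWellFounded_lt Sub

theorem lt_of_sub {j i : Idx} (h : Sub j i) : j < i :=
  Prod.Lex.left _ _ (IsWellFounded.rank_lt_of_rel h)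

/-- Being a node. -/
def IsNode : Idx → Prop
  | base _ => False
  | node _ _ _ _ _ => True

end Idx

/-- The big Banach space. -/
abbrev Big : Type := L1 ℕ × L1 ℕ × L1 (Idx × Idx)

open Idx

/-- The element coded by a node. -/
noncomputable def nvec : Idx → Big
  | base _ => 0
  | node x y c f g =>
    (x, y, L1.lift (fun k => L1.single (f k, g k)) 1 (fun _ => (L1.norm_single _).le) c)

theorem nvec_supp {i j k : Idx} (h : (nvec i).2.2 (j, k) ≠ 0) : j < i ∧ k < i := by
  cases i with
  | base n => exact absurd rfl h
  | node x y c f g =>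
    simp only [nvec, L1.lift_apply] at h
    have : ∃ l, (f l, g l) = (j, k) := by
      by_contra hcon
      push Not at hcon
      apply h
      convert tsum_zero with l
      rw [L1.single_apply_ne (hcon l).symm, mul_zero]
    obtain ⟨l, hl⟩ := this
    obtain ⟨rfl, rfl⟩ := Prod.ext_iff.1 hl
    exact ⟨lt_of_sub ⟨l, Or.inl rfl⟩, lt_of_sub ⟨l, Or.inr rfl⟩⟩

/-- Every element of `ℓ¹(κ)` is a sum over `ℕ` of multiples of unit vectors. -/
theorem exists_enum {κ : Type} [Nonempty κ] (u : L1 κ) :
    ∃ (c : L1 ℕ) (f : ℕ → κ),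
      L1.lift (fun k => L1.single (f k)) 1 (fun _ => (L1.norm_single _).le) c = u := by
  classical
  have hs : (Function.support (fun i => u i)).Countable := (L1.summable u).countable_support
  obtain ⟨enc, henc⟩ := Set.countable_iff_exists_injective.1 hs
  have key : ∃ (c : ℕ → ℂ) (f : ℕ → κ),
      (∀ s : Function.support (fun i => u i), c (enc s) = u s ∧ f (enc s) = s) ∧
      (∀ k, k ∉ Set.range enc → c k = 0) := by
    refine ⟨fun k => if h : ∃ s, enc s = k then u (h.choose : κ) else 0,
      fun k => if h : ∃ s, enc s = k then (h.choose : κ) else Classical.arbitrary κ, ?_, ?_⟩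
    · intro s
      have h : ∃ s', enc s' = enc s := ⟨s, rfl⟩
      have hc : h.choose = s := henc h.choose_spec
      simp only [h, dite_true, hc, and_self]
    · intro k hk
      have h : ¬ ∃ s', enc s' = k := fun ⟨s', hs'⟩ => hk ⟨s', hs'⟩
      simp only [h, dite_false]
  obtain ⟨c, f, h1, h2⟩ := key
  have hsum : Summable (fun k => ‖c k‖) := by
    rw [← henc.summable_iff (f := fun k => ‖c k‖)]
    · have h3 : ((fun k => ‖c k‖) ∘ enc) =
          (fun s : Function.support (fun i => u i) => ‖u (s : κ)‖) := by
        funext s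
        simp only [Function.comp, (h1 s).1]
      rw [h3]
      exact (L1.summable_norm u).subtype _
    · intro k hk
      rw [h2 k hk, norm_zero]
  refine ⟨L1.mk c hsum, f, ?_⟩
  apply L1.ext'
  intro i
  rw [L1.lift_apply]
  simp only [L1.mk_apply]
  by_cases hi : u i = 0
  · rw [hi]
    convert tsum_zero with k
    by_cases hk : k ∈ Set.range enc
    · obtain ⟨s, rfl⟩ := hk
      rw [(h1 s).1, (h1 s).2, L1.single_apply_ne, mul_zero]
      rintro rfl
      exact s.2 hi
    · rw [h2 k hk, zero_mul]
  · rw [tsum_eq_single (enc ⟨i, hi⟩)]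
    · rw [(h1 _).1, (h1 _).2, L1.single_apply_self, mul_one]
    · intro k hk
      by_cases hk' : k ∈ Set.range enc
      · obtain ⟨s, rfl⟩ := hk'
        rw [(h1 s).1, (h1 s).2, L1.single_apply_ne, mul_zero]
        rintro rfl
        exact hk rfl
      · rw [h2 k hk', zero_mul]

/-- Every element of the big space is coded by a node. -/
theorem exists_node (v : Big) : ∃ i, IsNode i ∧ nvec i = v := by
  obtain ⟨x, y, u⟩ := v
  have : Nonempty (Idx × Idx) := ⟨(base 0, base 0)⟩
  obtain ⟨c, f, h⟩ := exists_enum u
  refine ⟨node x y c (fun k => (f k).1) (fun k => (f k).2), trivial, ?_⟩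
  simp only [nvec, Prod.mk.eta, h]

end H80
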