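import Pool.Agent.Lib_helper80.TNTensor

/-!
The recursive choice of the set `JJ`, the module `NN` and the key lemma.
-/

namespace H80

open Idx L1 TensorProduct

/-- The part of the module available before the index `i`. -/
noncomputable def WW (J : Set Idx) (i : Idx) : Submodule ℂ Big :=
  SD ⊔ LinearMap.range ((Ph J).comp (trunc i))

theorem WW_congr {J J' : Set Idx} {i : Idx} (h : ∀ j, j < i → (j ∈ J ↔ j ∈ J')) :
    WW J i = WW J' i := by
  unfold WW
  have : (Ph J).comp (trunc i) = (Ph J').comp (trunc i) := by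
    apply LinearMap.ext
    intro t
    rw [LinearMap.comp_apply, LinearMap.comp_apply]
    apply Ph_congr
    intro j hj
    apply h
    by_contra hcon
    exact hj (mat_trunc_of_not (fun h => hcon h.1) t)
  rw [this]

/-- The selection rule. -/
def Sel (J : Set Idx) (i : Idx) : Prop :=
  Good i ∧ (nvec i ∈ WW J i ∨ nvec i ∉ WW J i ⊔ SS)

theorem Sel_congr {J J' : Set Idx} {i : Idx} (h : ∀ j, j < i → (j ∈ J ↔ j ∈ J')) :
    Sel J i ↔ Sel J' i := by
  unfold Sel
  rw [WW_congr h]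

/-- The selected indices. -/
noncomputable def JJ : Set Idx :=
  {i | (wellFounded_lt (α := Idx)).fix (C := fun _ => Prop)
    (fun i rec => Sel {j | ∃ h : j < i, rec j h} i) i}

theorem mem_JJ {i : Idx} : i ∈ JJ ↔ Sel JJ i := by
  have h1 : i ∈ JJ ↔ Sel {j | ∃ _ : j < i, j ∈ JJ} i := by
    unfold JJ
    rw [Set.mem_ofPred_eq, WellFounded.fix_eq]
    rfl
  rw [h1]
  apply Sel_congr
  intro j hj
  constructor
  · rintro ⟨_, h⟩; exact h
  · intro h; exact ⟨hj, h⟩

theorem good_of_mem_JJ {i : Idx} (h : i ∈ JJ) : Good i := (mem_JJ.1 h).1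

/-- The module of the construction. -/
noncomputable def NN : Submodule ℂ Big := SD ⊔ LinearMap.range (Ph JJ)

theorem WW_le_NN (i : Idx) : WW JJ i ≤ NN := by
  unfold WW NN
  refine sup_le_sup_left ?_ _
  rintro _ ⟨t, rfl⟩
  exact ⟨trunc i t, rfl⟩

theorem eq_of_mem {t : LL} (h : (Ph JJ t).2.2 = 0) {j : Idx} (hj : j ∈ JJ) :
    VJ JJ (diag Idx (mat t)) (j, j) = 0 := by
  rw [Ph_snd] at h
  rw [← BJ_snd_of_mem (mat t) ⟨hj, good_of_mem_JJ hj⟩, h]
  rfl

theorem eq_of_notMem {t : LL} (h : (Ph JJ t).2.2 = 0) {j k : Idx} (hj : ¬ (j = k ∧ j ∈ JJ)) :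
    mat t (j, k) + VJ JJ (diag Idx (mat t)) (j, k) = 0 := by
  rw [Ph_snd] at h
  rw [← BJ_snd_of_notMem (mat t) (fun h => hj ⟨h.1, h.2.1⟩), h]
  rfl

theorem mat_eq_zero_of_diag {t : LL} (h : (Ph JJ t).2.2 = 0)
    (hD : ∀ i ∈ JJ, mat t (i, i) = 0) : mat t = 0 := by
  apply L1.ext'
  rintro ⟨j, k⟩
  by_cases hj : j = k ∧ j ∈ JJ
  · obtain ⟨rfl, hj⟩ := hj
    rw [hD j hj]
    rfl
  · have h1 := eq_of_notMem h hj
    rw [VJ_apply_eq_zero, add_zero] at h1
    · rw [h1]; rfl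
    · intro i hi _ _ _
      rw [diag_apply]
      exact hD i hi

/-- The support of the diagonal inside `JJ` has a largest element. -/
theorem exists_max {t : LL} (h : (Ph JJ t).2.2 = 0) (hne : ∃ i ∈ JJ, mat t (i, i) ≠ 0) :
    ∃ h0 ∈ JJ, mat t (h0, h0) ≠ 0 ∧ ∀ i ∈ JJ, mat t (i, i) ≠ 0 → i ≤ h0 := by
  classical
  by_contra hcon
  push Not at hcon
  obtain ⟨Y, hY, hrow⟩ := row_finite t
  obtain ⟨F, hF, hsmall⟩ := finite_small Y
  -- an element of the support above the exceptional set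
  have hb : ∃ b ∈ JJ, mat t (b, b) ≠ 0 ∧ ∀ i ∈ F, i ∈ JJ → mat t (i, i) ≠ 0 → i < b := by
    set G := hF.toFinset.filter (fun i => i ∈ JJ ∧ mat t (i, i) ≠ 0) with hG
    by_cases hGe : G.Nonempty
    · obtain ⟨m, hm, hmax⟩ := G.exists_max_image id hGe
      rw [hG, Finset.mem_filter] at hm
      obtain ⟨b, hb1, hb2, hb3⟩ := hcon m hm.2.1 hm.2.2
      refine ⟨b, hb1, hb2, fun i hi1 hi2 hi3 => lt_of_le_of_lt (hmax i ?_) hb3⟩
      rw [hG, Finset.mem_filter]
      exact ⟨hF.mem_toFinset.2 hi1, hi2, hi3⟩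
    · obtain ⟨b, hb1, hb2⟩ := hne
      refine ⟨b, hb1, hb2, fun i hi1 hi2 hi3 => absurd ⟨i, ?_⟩ hGe⟩
      rw [hG, Finset.mem_filter]
      exact ⟨hF.mem_toFinset.2 hi1, hi2, hi3⟩
  obtain ⟨b, hb1, hb2, hb3⟩ := hb
  -- the tail of the diagonal
  set S : Set Idx := {i | i ∈ JJ ∧ b ≤ i} with hS
  set x : L1 Idx := restr S (diag Idx (mat t)) with hx
  set v : L1 (Idx × Idx) := VJ JJ x with hv
  have hvx : ‖v‖ ≤ ‖x‖ := by
    have := norm_lift_le (vR JJ) 1 (norm_vR JJ) x
    rw [one_mul] at this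
    exact this
  -- comparison off the diagonal
  have hoff : ∀ j k, b ≤ j → k ≠ j → ‖mat t (j, k)‖ = ‖v (j, k)‖ := by
    intro j k hj hk
    have h1 := eq_of_notMem h (j := j) (k := k) (fun e => hk e.1.symm)
    have h2 : VJ JJ (diag Idx (mat t)) (j, k) = v (j, k) := by
      have h3 : VJ JJ (diag Idx (mat t) - x) (j, k) = 0 := by
        apply VJ_apply_eq_zero
        intro i hi _ hji _
        rw [sub_apply, hx, restr_apply_mem (show i ∈ S from ⟨hi, hj.trans hji.le⟩), sub_self]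
      rw [map_sub, sub_apply, sub_eq_zero] at h3
      exact h3
    rw [h2] at h1
    rw [eq_neg_of_add_eq_zero_left h1, norm_neg]
  have hsumv : Summable (fun p : Idx × Idx => ‖v p‖) := summable_norm v
  -- pointwise bound
  have hpt : ∀ j, ‖x j‖ ≤ (1 / 4) * (‖x j‖ + ∑' k, ‖v (j, k)‖) := by
    intro j
    have hnn : 0 ≤ ∑' k, ‖v (j, k)‖ := tsum_nonneg (fun _ => norm_nonneg _)
    by_cases hj : j ∈ S
    · have hxj : x j = mat t (j, j) := by rw [hx, restr_apply_mem hj, diag_apply]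
      by_cases hz : mat t (j, j) = 0
      · rw [hxj, hz, norm_zero]; linarith
      · have hjF : j ∉ F := fun hjF => absurd (hb3 j hjF hj.1 hz) (not_lt.2 hj.2)
        have h1 := hsmall _ (hrow j) j hjF
        rw [row_apply] at h1
        have h2 : ‖row j t‖ ≤ ‖x j‖ + ∑' k, ‖v (j, k)‖ := by
          rw [norm_eq]
          have hs1 : Summable (fun k => ‖v (j, k)‖) := hsumv.comp_injective
            (i := fun k => (j, k)) (fun a b e => (Prod.ext_iff.1 e).2)
          have hs2 : Summable (fun k => if k = j then ‖x j‖ else 0) :=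
            (hasSum_ite_eq j ‖x j‖).summable
          have hs3 : ∑' k, (if k = j then ‖x j‖ else 0) = ‖x j‖ := (hasSum_ite_eq j ‖x j‖).tsum_eq
          rw [← hs3, ← hs2.tsum_add hs1]
          refine (summable_norm (row j t)).tsum_le_tsum (fun k => ?_) (hs2.add hs1)
          rw [row_apply]
          by_cases hk : k = j
          · subst hk
            rw [if_pos rfl, ← hxj]
            linarith [norm_nonneg (v (k, k))]
          · rw [if_neg hk, zero_add, hoff j k hj.2 hk]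
        rw [hxj] at h2 ⊢
        exact h1.trans (mul_le_mul_of_nonneg_left h2 (by norm_num))
    · have hxj : x j = 0 := by rw [hx, restr_apply_notMem hj]
      rw [hxj, norm_zero]; linarith
  -- sum up
  have hsv : Summable (fun j => ∑' k, ‖v (j, k)‖) := hsumv.prod
  have htot : ‖x‖ ≤ (1 / 4) * (‖x‖ + ‖v‖) := by
    have e1 : ‖v‖ = ∑' j, ∑' k, ‖v (j, k)‖ := by
      rw [norm_eq]; exact hsumv.tsum_prod
    have e2 := norm_eq x
    calc ‖x‖ = ∑' j, ‖x j‖ := e2
      _ ≤ ∑' j, (1 / 4) * (‖x j‖ + ∑' k, ‖v (j, k)‖) :=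
        (summable_norm x).tsum_le_tsum hpt (((summable_norm x).add hsv).mul_left _)
      _ = (1 / 4) * (‖x‖ + ‖v‖) := by
        rw [tsum_mul_left, (summable_norm x).tsum_add hsv, ← e1, ← e2]
  have hx0 : ‖x‖ ≤ 0 := by linarith
  have hxb : ‖x b‖ ≤ 0 := (norm_apply_le x b).trans hx0
  rw [hx, restr_apply_mem (show b ∈ S from ⟨hb1, le_rfl⟩), diag_apply] at hxb
  exact hb2 (norm_le_zero_iff.1 hxb)

/-- The inductive step of the key lemma. -/
theorem key_step (h0 : Idx) : ∀ t : LL, (Ph JJ t).2.2 = 0 → h0 ∈ JJ →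
    (∀ i ∈ JJ, mat t (i, i) ≠ 0 → i ≤ h0) → mat t (h0, h0) ≠ 0 → Ph JJ t ∈ SD := by
  induction h0 using (wellFounded_lt (α := Idx)).induction with
  | _ h0 ih =>
  intro t h hJ hmax hne
  have hg := good_of_mem_JJ hJ
  -- the matrix of the remainder vanishes
  have hmat : mat (t - trunc h0 t - mat t (h0, h0) • (single h0 ⊗ₜ single h0)) = 0 := by
    apply L1.ext'
    rintro ⟨j, k⟩
    rw [map_sub, map_sub, map_smul, mat_tmul, outer_single_single, sub_apply, sub_apply, smul_apply]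
    by_cases hjk : j < h0 ∧ k < h0
    · rw [mat_trunc_of_lt hjk.1 hjk.2, single_apply_ne, mul_zero, sub_self, sub_zero]
      · rfl
      · intro e
        obtain ⟨e1, e2⟩ := Prod.ext_iff.1 e
        exact hjk.1.ne e1
    · rw [mat_trunc_of_not hjk, sub_zero]
      by_cases hjk0 : j = h0 ∧ k = h0
      · obtain ⟨rfl, rfl⟩ := hjk0
        rw [single_apply_self, mul_one, sub_self]
        rfl
      · rw [single_apply_ne (fun e => hjk0 ⟨(Prod.ext_iff.1 e).1, (Prod.ext_iff.1 e).2⟩), mul_zero,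
          sub_zero]
        change mat t (j, k) = 0
        by_cases hj : j = k ∧ j ∈ JJ
        · obtain ⟨rfl, hj⟩ := hj
          by_contra hcon
          have h1 := hmax j hj hcon
          rcases lt_or_eq_of_le h1 with h2 | h2
          · exact hjk ⟨h2, h2⟩
          · exact hjk0 ⟨h2, h2⟩
        · have h1 := eq_of_notMem h hj
          rw [VJ_apply_eq_zero, add_zero] at h1
          · exact h1
          · intro i hi _ hji hki
            rw [diag_apply]
            by_contra hcon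
            have h2 := hmax i hi hcon
            exact hjk ⟨lt_of_lt_of_le hji h2, lt_of_lt_of_le hki h2⟩
  have hPh := Ph_eq_zero (J := JJ) hmat
  rw [map_sub, map_sub, map_smul, Ph_single_of_mem hJ hg] at hPh
  set c := mat t (h0, h0) with hc
  have hPh' : Ph JJ t = Ph JJ (trunc h0 t) + c • nvec h0 := by
    have := sub_eq_zero.1 hPh
    rw [sub_eq_iff_eq_add] at this
    rw [this, add_comm]
  -- the code of `h0` lies in the earlier module
  have hW : nvec h0 ∈ WW JJ h0 := by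
    rcases (mem_JJ.1 hJ).2 with h1 | h1
    · exact h1
    · exfalso
      apply h1
      have h2 : nvec h0 = c⁻¹ • (Ph JJ t) - c⁻¹ • Ph JJ (trunc h0 t) := by
        rw [hPh', smul_add, smul_smul, inv_mul_cancel₀ hne, one_smul]
        abel
      rw [h2]
      refine Submodule.sub_mem _ (Submodule.smul_mem _ _ (Submodule.mem_sup_right ?_))
        (Submodule.smul_mem _ _ (Submodule.mem_sup_left ?_))
      · exact h
      · exact Submodule.mem_sup_right ⟨t, rfl⟩
  obtain ⟨s, hs, w, ⟨t1, ht1⟩, hsw⟩ := Submodule.mem_sup.1 hW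
  have h3 : Ph JJ t = c • s + Ph JJ (trunc h0 (t + c • t1)) := by
    rw [hPh', ← hsw, ← ht1, LinearMap.comp_apply, map_add, map_add, map_smul, map_smul, smul_add]
    abel
  set t2 := trunc h0 (t + c • t1) with ht2
  have h4 : (Ph JJ t2).2.2 = 0 := by
    have h5 : Ph JJ t2 = Ph JJ t - c • s := by rw [h3]; abel
    have h6 : s.2.2 = 0 := hs.2
    rw [h5]
    change (Ph JJ t).2.2 - c • s.2.2 = 0
    rw [h, h6, smul_zero, sub_zero]
  have h7 : Ph JJ t2 ∈ SD := by
    by_cases hne2 : ∃ i ∈ JJ, mat t2 (i, i) ≠ 0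
    · obtain ⟨h1, hh1, hh2, hh3⟩ := exists_max h4 hne2
      have hlt : h1 < h0 := by
        by_contra hcon
        exact hh2 (mat_trunc_of_not (fun h => hcon h.1) _)
      exact ih h1 hlt t2 h4 hh1 hh3 hh2
    · push Not at hne2
      rw [Ph_eq_zero (mat_eq_zero_of_diag h4 hne2)]
      exact SD.zero_mem
  rw [h3]
  exact SD.add_mem (SD.smul_mem _ hs) h7

/-- The key lemma. -/
theorem key {t : LL} (h : (Ph JJ t).2.2 = 0) : Ph JJ t ∈ SD := by
  by_cases hne : ∃ i ∈ JJ, mat t (i, i) ≠ 0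
  · obtain ⟨h0, h1, h2, h3⟩ := exists_max h hne
    exact key_step h0 t h h1 h3 h2
  · push Not at hne
    rw [Ph_eq_zero (mat_eq_zero_of_diag h hne)]
    exact SD.zero_mem

theorem mem_SD_of_mem_NN {v : Big} (hv : v ∈ NN) (h : v.2.2 = 0) : v ∈ SD := by
  obtain ⟨s, hs, w, ⟨t, ht⟩, rfl⟩ := Submodule.mem_sup.1 hv
  have h1 : (Ph JJ t).2.2 = 0 := by
    have h2 : s.2.2 = 0 := hs.2
    have h3 : s.2.2 + w.2.2 = 0 := h
    rw [h2, zero_add] at h3
    rw [ht, h3]
  refine SD.add_mem hs ?_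
  rw [← ht]
  exact key h1

theorem NN_sup_SS (v : Big) : v ∈ NN ⊔ SS := by
  -- reduce to norm at most one
  have key1 : ∀ v : Big, ‖v‖ ≤ 1 → v ∈ NN ⊔ SS := by
    intro v hv
    obtain ⟨i, hi, rfl⟩ := exists_node v
    by_cases hJ : i ∈ JJ
    · refine Submodule.mem_sup_left (Submodule.mem_sup_right ⟨single i ⊗ₜ single i, ?_⟩)
      exact Ph_single_of_mem hJ ⟨hi, hv⟩
    · have h1 : ¬ Sel JJ i := fun h => hJ (mem_JJ.2 h)
      have h2 : nvec i ∈ WW JJ i ⊔ SS := by
        by_contra hcon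
        exact h1 ⟨⟨hi, hv⟩, Or.inr hcon⟩
      exact sup_le_sup_right (WW_le_NN i) _ h2
  by_cases hv : ‖v‖ ≤ 1
  · exact key1 v hv
  · have hpos : 0 < ‖v‖ := by linarith
    have h1 := key1 (((‖v‖⁻¹ : ℝ) : ℂ) • v) (by
      rw [norm_smul]
      simp [hpos.ne'])
    have h2 := Submodule.smul_mem _ ((‖v‖ : ℝ) : ℂ) h1
    rw [smul_smul, ← Complex.ofReal_mul, mul_inv_cancel₀ hpos.ne', Complex.ofReal_one,
      one_smul] at h2
    exact h2

theorem exists_code {v : Big} (hv : v ∈ NN) (h1 : ‖v‖ ≤ 1) : ∃ i ∈ JJ, nvec i = v := by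
  obtain ⟨i, hi, rfl⟩ := exists_node v
  refine ⟨i, ?_, rfl⟩
  by_contra hJ
  have h2 : ¬ Sel JJ i := fun h => hJ (mem_JJ.2 h)
  have h3 : nvec i ∈ WW JJ i ⊔ SS := by
    by_contra hcon
    exact h2 ⟨⟨hi, h1⟩, Or.inr hcon⟩
  obtain ⟨w, hw, s, hs, hws⟩ := Submodule.mem_sup.1 h3
  have h4 : s ∈ NN := by
    have : s = nvec i - w := by rw [← hws]; abel
    rw [this]
    exact NN.sub_mem hv (WW_le_NN i hw)
  have h5 : s ∈ SD := mem_SD_of_mem_NN h4 hs
  apply h2
  refine ⟨⟨hi, h1⟩, Or.inl ?_⟩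
  rw [← hws]
  exact Submodule.add_mem _ hw (Submodule.mem_sup_left h5)

theorem SD_le_NN : SD ≤ NN := le_sup_left

theorem Ph_mem_NN (t : LL) : Ph JJ t ∈ NN := Submodule.mem_sup_right ⟨t, rfl⟩

end H80
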