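import Pool.Agent.Lib_helper80.TNIdx

/-!
The basic maps of the construction.
-/

namespace H80

open Idx L1

/-- The part of a vector of `ℓ¹(Idx)` on the base indices. -/
noncomputable def rho : L1 Idx →L[ℂ] L1 ℕ :=
  lift (fun i => match i with
    | base n => single n
    | node _ _ _ _ _ => 0) 1 (by
      intro i
      cases i with
      | base n => exact (norm_single n).le
      | node _ _ _ _ _ => simp)

theorem rho_base (n : ℕ) : rho (single (base n)) = single n := by
  unfold rho; rw [lift_single]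

theorem rho_node {i : Idx} (h : IsNode i) : rho (single i) = 0 := by
  unfold rho; rw [lift_single]
  cases i with
  | base n => exact h.elim
  | node _ _ _ _ _ => rfl

theorem half_pow_le_one (n : ℕ) : ‖((1 / 2 : ℂ) ^ n)‖ ≤ 1 := by
  rw [norm_pow]
  have : ‖(1 / 2 : ℂ)‖ = 1 / 2 := by simp
  rw [this]
  exact pow_le_one₀ (by norm_num) (by norm_num)

/-- Multiplication by the weights `2^{-n}`. -/
noncomputable def Dw : L1 ℕ →L[ℂ] L1 ℕ :=
  lift (fun n => ((1 / 2 : ℂ) ^ n) • single n) 1 (by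
    intro n
    rw [norm_smul, norm_single, mul_one]
    exact half_pow_le_one n)

theorem Dw_single (n : ℕ) : Dw (single n) = ((1 / 2 : ℂ) ^ n) • single n := by
  unfold Dw; rw [lift_single]

theorem Dw_apply (x : L1 ℕ) (n : ℕ) : Dw x n = ((1 / 2 : ℂ) ^ n) * x n := by
  unfold Dw
  rw [lift_apply, tsum_eq_single n]
  · rw [smul_apply, single_apply_self]; ring
  · intro m hm
    rw [smul_apply, single_apply_ne hm.symm]; ring

theorem Dw_injective : Function.Injective Dw := by
  intro x y h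
  apply ext'
  intro n
  have h1 : Dw x n = Dw y n := by rw [h]
  rw [Dw_apply, Dw_apply] at h1
  exact mul_left_cancel₀ (pow_ne_zero _ (by norm_num)) h1

/-- The sum of the coefficients of index at least one. -/
noncomputable def sigma : L1 ℕ →L[ℂ] ℂ :=
  lift (fun n => if n = 0 then 0 else 1) 1 (by intro n; split_ifs <;> simp)

theorem sigma_single_zero : sigma (single 0) = 0 := by
  unfold sigma; rw [lift_single]; simp

theorem sigma_single_succ (n : ℕ) : sigma (single (n + 1)) = 1 := by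
  unfold sigma; rw [lift_single]; simp

theorem exists_aS : ∃ f : L1 ℕ →ₗ[ℂ] ℂ, ∀ c, f (Dw c) = sigma c := by
  obtain ⟨g, hg⟩ := LinearMap.exists_leftInverse_of_injective (Dw : L1 ℕ →ₗ[ℂ] L1 ℕ)
    (LinearMap.ker_eq_bot.2 Dw_injective)
  refine ⟨(sigma : L1 ℕ →ₗ[ℂ] ℂ).comp g, fun c => ?_⟩
  have : g (Dw c) = c := LinearMap.congr_fun hg c
  rw [LinearMap.comp_apply, this]
  rfl

/-- A discontinuous functional extending `sigma ∘ Dw⁻¹`. -/
noncomputable def aS : L1 ℕ →ₗ[ℂ] ℂ := exists_aS.choose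

theorem aS_Dw (c : L1 ℕ) : aS (Dw c) = sigma c := exists_aS.choose_spec c

theorem aS_single_zero : aS (single 0) = 0 := by
  have h : Dw (single 0) = single 0 := by rw [Dw_single]; simp
  rw [← h, aS_Dw, sigma_single_zero]

theorem aS_single_succ (n : ℕ) : aS (single (n + 1)) = 2 ^ (n + 1) := by
  have h := aS_Dw (single (n + 1))
  rw [Dw_single, map_smul, sigma_single_succ, smul_eq_mul] at h
  have h2 : ((1 / 2 : ℂ) ^ (n + 1)) * 2 ^ (n + 1) = 1 := by
    rw [← mul_pow]; norm_num
  have h3 : ((1 / 2 : ℂ) ^ (n + 1)) ≠ 0 := pow_ne_zero _ (by norm_num)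
  exact mul_left_cancel₀ h3 (h.trans h2.symm)

/-- The discontinuous twist. -/
noncomputable def TT : L1 ℕ →ₗ[ℂ] L1 ℕ := LinearMap.id + aS.smulRight (single 0)

theorem TT_apply (x : L1 ℕ) : TT x = x + aS x • single 0 := rfl

theorem TT_eq_zero {x : L1 ℕ} (h : TT x = 0) : x = 0 := by
  rw [TT_apply] at h
  have h1 : aS x = 0 := by
    have h2 := congrArg aS h
    rw [map_add, map_smul, aS_single_zero, smul_zero, add_zero, map_zero] at h2
    exact h2
  rw [h1, zero_smul, add_zero] at h
  exact h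

theorem TT_surj (y : L1 ℕ) : TT (y - aS y • single 0) = y := by
  rw [TT_apply, map_sub, map_smul, aS_single_zero, smul_zero, sub_zero]
  abel

/-- First action on scalars. -/
noncomputable def kp : L1 Idx →L[ℂ] L1 ℕ := Dw.comp rho

/-- Second action on scalars. -/
noncomputable def kq : L1 Idx →L[ℂ] L1 ℕ := kp + (sigma.comp rho).smulRight (single 0)

theorem TT_kp (e : L1 Idx) : TT (kp e) = kq e := by
  rw [TT_apply]
  unfold kq kp
  rw [ContinuousLinearMap.comp_apply, aS_Dw]
  rfl

/-- The discontinuous functional on `ℓ¹(Idx)`. -/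
noncomputable def aL : L1 Idx →ₗ[ℂ] ℂ := aS.comp (rho : L1 Idx →ₗ[ℂ] L1 ℕ)

theorem aL_node {i : Idx} (h : IsNode i) : aL (single i) = 0 := by
  unfold aL
  rw [LinearMap.comp_apply]
  have : (rho : L1 Idx →ₗ[ℂ] L1 ℕ) (single i) = 0 := rho_node h
  rw [this, map_zero]

theorem aL_base_succ (n : ℕ) : aL (single (base (n + 1))) = 2 ^ (n + 1) := by
  unfold aL
  rw [LinearMap.comp_apply]
  have : (rho : L1 Idx →ₗ[ℂ] L1 ℕ) (single (base (n + 1))) = single (n + 1) := rho_base _
  rw [this, aS_single_succ]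

theorem kp_node {i : Idx} (h : IsNode i) : kp (single i) = 0 := by
  unfold kp
  rw [ContinuousLinearMap.comp_apply, rho_node h, map_zero]

theorem kq_node {i : Idx} (h : IsNode i) : kq (single i) = 0 := by
  rw [← TT_kp, kp_node h, map_zero]

theorem kp_base (n : ℕ) : kp (single (base n)) = ((1 / 2 : ℂ) ^ n) • single n := by
  unfold kp
  rw [ContinuousLinearMap.comp_apply, rho_base, Dw_single]

theorem kq_base_zero : kq (single (base 0)) = single 0 := by
  rw [← TT_kp, kp_base, pow_zero, one_smul, TT_apply, aS_single_zero, zero_smul, add_zero]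

theorem kq_base_succ (n : ℕ) :
    kq (single (base (n + 1))) = ((1 / 2 : ℂ) ^ (n + 1)) • single (n + 1) + single 0 := by
  rw [← TT_kp, kp_base, TT_apply, map_smul, aS_single_succ, smul_eq_mul, ← mul_pow]
  norm_num

/-- The graph of the twist inside the big space. -/
def SD : Submodule ℂ Big where
  carrier := {v | v.2.1 = TT v.1 ∧ v.2.2 = 0}
  add_mem' := by
    rintro v w ⟨h1, h2⟩ ⟨h3, h4⟩
    refine ⟨?_, ?_⟩
    · rw [Prod.snd_add, Prod.fst_add, Prod.fst_add, map_add, h1, h3]
    · rw [Prod.snd_add, Prod.snd_add, h2, h4, add_zero]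
  zero_mem' := ⟨by simp, rfl⟩
  smul_mem' := by
    rintro c v ⟨h1, h2⟩
    refine ⟨?_, ?_⟩
    · rw [Prod.smul_snd, Prod.smul_fst, Prod.smul_fst, map_smul, h1]
    · rw [Prod.smul_snd, Prod.smul_snd, h2, smul_zero]

theorem mem_SD {v : Big} : v ∈ SD ↔ v.2.1 = TT v.1 ∧ v.2.2 = 0 := Iff.rfl

/-- The elements with vanishing last component. -/
def SS : Submodule ℂ Big where
  carrier := {v | v.2.2 = 0}
  add_mem' := by
    rintro v w (h1 : v.2.2 = 0) (h2 : w.2.2 = 0)
    change (v + w).2.2 = 0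
    rw [Prod.snd_add, Prod.snd_add, h1, h2, add_zero]
  zero_mem' := rfl
  smul_mem' := by
    rintro c v (h1 : v.2.2 = 0)
    change (c • v).2.2 = 0
    rw [Prod.smul_snd, Prod.smul_snd, h1, smul_zero]

theorem mem_SS {v : Big} : v ∈ SS ↔ v.2.2 = 0 := Iff.rfl

theorem SD_le_SS : SD ≤ SS := fun _ h => h.2

end H80
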