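import Pool.Agent.Lib_helper80.TNMaps

/-!
The algebraic tensor square of `ℓ¹(Idx)`, its matrix map and the maps `BJ J` and `Ph J`.
-/

namespace H80

open Idx L1 TensorProduct

/-- Inclusion of the last component. -/
noncomputable def embR : L1 (Idx × Idx) →L[ℂ] Big :=
  (ContinuousLinearMap.inr ℂ (L1 ℕ) (L1 ℕ × L1 (Idx × Idx))).comp
    (ContinuousLinearMap.inr ℂ (L1 ℕ) (L1 (Idx × Idx)))

theorem embR_apply (u : L1 (Idx × Idx)) : embR u = (0, 0, u) := rfl

theorem norm_embR (u : L1 (Idx × Idx)) : ‖embR u‖ = ‖u‖ := by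
  rw [embR_apply, Prod.norm_def, Prod.norm_def]
  simp

/-- The nodes that code an element of norm at most one. -/
def Good (i : Idx) : Prop := IsNode i ∧ ‖nvec i‖ ≤ 1

open Classical in
/-- The correction attached to a diagonal position. -/
noncomputable def fam (J : Set Idx) (h : Idx) : Big :=
  if h ∈ J ∧ Good h then nvec h - embR (single (h, h)) else 0

theorem norm_fam (J : Set Idx) (h : Idx) : ‖fam J h‖ ≤ 2 := by
  unfold fam
  split_ifs with hh
  · refine (norm_sub_le _ _).trans ?_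
    rw [norm_embR, norm_single]
    linarith [hh.2.2]
  · simp

/-- The map `B^J`. -/
noncomputable def BJ (J : Set Idx) : L1 (Idx × Idx) →L[ℂ] Big :=
  embR + (lift (fam J) 2 (norm_fam J)).comp (diag Idx)

theorem BJ_apply (J : Set Idx) (u : L1 (Idx × Idx)) :
    BJ J u = embR u + lift (fam J) 2 (norm_fam J) (diag Idx u) := rfl

theorem BJ_congr {J J' : Set Idx} {u : L1 (Idx × Idx)}
    (h : ∀ i, u (i, i) ≠ 0 → (i ∈ J ↔ i ∈ J')) : BJ J u = BJ J' u := by
  rw [BJ_apply, BJ_apply, lift_eq, lift_eq]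
  congr 1
  refine tsum_congr (fun i => ?_)
  rw [diag_apply]
  by_cases hi : u (i, i) = 0
  · rw [hi, zero_smul, zero_smul]
  · unfold fam
    have hp : (i ∈ J) = (i ∈ J') := propext (h i hi)
    congr 1
    by_cases h1 : i ∈ J ∧ Good i
    · rw [if_pos h1, if_pos (by rwa [← hp])]
    · rw [if_neg h1, if_neg (by rwa [← hp])]

/-- The vector valued part of the codes. -/
noncomputable def vR (J : Set Idx) (h : Idx) : L1 (Idx × Idx) :=
  letI := Classical.propDecidable (h ∈ J ∧ Good h)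
  if h ∈ J ∧ Good h then (nvec h).2.2 else 0

theorem norm_vR (J : Set Idx) (h : Idx) : ‖vR J h‖ ≤ 1 := by
  unfold vR
  split_ifs with hh
  · exact ((norm_snd_le _).trans (norm_snd_le _)).trans hh.2.2
  · simp

/-- The lift of `vR`. -/
noncomputable def VJ (J : Set Idx) : L1 Idx →L[ℂ] L1 (Idx × Idx) :=
  lift (vR J) 1 (norm_vR J)

theorem BJ_snd_of_mem {J : Set Idx} (u : L1 (Idx × Idx)) {j : Idx} (hj : j ∈ J ∧ Good j) :
    (BJ J u).2.2 (j, j) = VJ J (diag Idx u) (j, j) := by
  classical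
  have h1 := (hasSum_lift (fam J) 2 (norm_fam J) (diag Idx u)).mapL
    ((ev (j, j) : L1 (Idx × Idx) →L[ℂ] ℂ).comp ((ContinuousLinearMap.snd ℂ (L1 ℕ) (L1 (Idx × Idx))).comp
      (ContinuousLinearMap.snd ℂ (L1 ℕ) (L1 ℕ × L1 (Idx × Idx)))))
  have h2 := hasSum_lift (vR J) 1 (norm_vR J) (diag Idx u)
  have h3 := h2.mapL (ev (j, j) : L1 (Idx × Idx) →L[ℂ] ℂ)
  have h4 : HasSum (fun h => diag Idx u h * (if h = j then 1 else 0)) (diag Idx u j) := by
    have := hasSum_single (f := fun h => diag Idx u h * (if h = j then (1 : ℂ) else 0)) j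
      (by intro b hb; simp [hb])
    simpa using this
  have h5 := h3.sub h4
  have h6 : (fun h => ((ev (j, j) : L1 (Idx × Idx) →L[ℂ] ℂ).comp ((ContinuousLinearMap.snd ℂ (L1 ℕ) (L1 (Idx × Idx))).comp
      (ContinuousLinearMap.snd ℂ (L1 ℕ) (L1 ℕ × L1 (Idx × Idx))))) (diag Idx u h • fam J h)) =
      (fun h => (ev (j, j) : L1 (Idx × Idx) →L[ℂ] ℂ) (diag Idx u h • vR J h) -
        diag Idx u h * (if h = j then 1 else 0)) := by
    funext h
    simp only [ContinuousLinearMap.comp_apply, map_smul, ContinuousLinearMap.coe_snd', ev_apply,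
      smul_eq_mul]
    unfold fam vR
    by_cases hh : h ∈ J ∧ Good h
    · rw [if_pos hh, if_pos hh]
      by_cases hhj : h = j
      · subst hhj
        simp [embR_apply, single_apply_self, mul_sub]
      · have : (single (h, h) : L1 (Idx × Idx)) (j, j) = 0 :=
          single_apply_ne (fun e => hhj (Prod.ext_iff.1 e).1.symm)
        simp [embR_apply, this, hhj]
    · have hhj : h ≠ j := fun e => hh (e ▸ hj)
      rw [if_neg hh, if_neg hh]
      simp [hhj]
  rw [h6] at h1
  have h7 := h1.unique h5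
  have h8 : (BJ J u).2.2 (j, j) = u (j, j) + (lift (fam J) 2 (norm_fam J) (diag Idx u)).2.2 (j, j) := by
    rw [BJ_apply, embR_apply]
    rfl
  rw [h8]
  simp only [ContinuousLinearMap.comp_apply, ContinuousLinearMap.coe_snd', ev_apply] at h7
  rw [h7, diag_apply]
  unfold VJ
  ring

theorem BJ_snd_of_notMem {J : Set Idx} (u : L1 (Idx × Idx)) {j k : Idx}
    (hj : ¬ (j = k ∧ j ∈ J ∧ Good j)) :
    (BJ J u).2.2 (j, k) = u (j, k) + VJ J (diag Idx u) (j, k) := by
  classical
  have h8 : (BJ J u).2.2 (j, k) = u (j, k) + (lift (fam J) 2 (norm_fam J) (diag Idx u)).2.2 (j, k) := by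
    rw [BJ_apply, embR_apply]
    rfl
  rw [h8]
  congr 1
  have h1 := (hasSum_lift (fam J) 2 (norm_fam J) (diag Idx u)).mapL
    ((ev (j, k) : L1 (Idx × Idx) →L[ℂ] ℂ).comp ((ContinuousLinearMap.snd ℂ (L1 ℕ) (L1 (Idx × Idx))).comp
      (ContinuousLinearMap.snd ℂ (L1 ℕ) (L1 ℕ × L1 (Idx × Idx)))))
  have h2 := hasSum_lift (vR J) 1 (norm_vR J) (diag Idx u)
  have h3 := h2.mapL (ev (j, k) : L1 (Idx × Idx) →L[ℂ] ℂ)
  have h6 : (fun h => ((ev (j, k) : L1 (Idx × Idx) →L[ℂ] ℂ).comp ((ContinuousLinearMap.snd ℂ (L1 ℕ) (L1 (Idx × Idx))).comp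
      (ContinuousLinearMap.snd ℂ (L1 ℕ) (L1 ℕ × L1 (Idx × Idx))))) (diag Idx u h • fam J h)) =
      (fun h => (ev (j, k) : L1 (Idx × Idx) →L[ℂ] ℂ) (diag Idx u h • vR J h)) := by
    funext h
    simp only [ContinuousLinearMap.comp_apply, map_smul, ContinuousLinearMap.coe_snd', ev_apply,
      smul_eq_mul]
    unfold fam vR
    by_cases hh : h ∈ J ∧ Good h
    · rw [if_pos hh, if_pos hh]
      have : (single (h, h) : L1 (Idx × Idx)) (j, k) = 0 := by
        apply single_apply_ne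
        intro e
        obtain ⟨e1, e2⟩ := Prod.ext_iff.1 e
        simp only at e1 e2
        subst e1
        exact hj ⟨e2.symm, hh⟩
      simp [embR_apply, this]
    · rw [if_neg hh, if_neg hh]
      simp
  rw [h6] at h1
  exact h1.unique h3

theorem VJ_apply (J : Set Idx) (x : L1 Idx) (p : Idx × Idx) :
    VJ J x p = ∑' h, x h * vR J h p := lift_apply _ _ _ _ _

theorem vR_supp {J : Set Idx} {h j k : Idx} (hne : vR J h (j, k) ≠ 0) :
    (h ∈ J ∧ Good h) ∧ j < h ∧ k < h := by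
  unfold vR at hne
  by_cases hh : h ∈ J ∧ Good h
  · rw [if_pos hh] at hne
    exact ⟨hh, nvec_supp hne⟩
  · rw [if_neg hh] at hne
    exact absurd rfl hne

/-- If all diagonal entries that could contribute vanish, so does the value. -/
theorem VJ_apply_eq_zero {J : Set Idx} {x : L1 Idx} {j k : Idx}
    (h : ∀ i, i ∈ J → Good i → j < i → k < i → x i = 0) : VJ J x (j, k) = 0 := by
  rw [VJ_apply]
  convert tsum_zero with i
  by_cases hne : vR J i (j, k) = 0
  · rw [hne, mul_zero]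
  · obtain ⟨⟨h1, h2⟩, h3, h4⟩ := vR_supp hne
    rw [h i h1 h2 h3 h4, zero_mul]

/-! ### The algebraic tensor square -/

/-- The algebraic tensor square. -/
abbrev LL : Type := L1 Idx ⊗[ℂ] L1 Idx

/-- The matrix of a tensor. -/
noncomputable def mat : LL →ₗ[ℂ] L1 (Idx × Idx) :=
  TensorProduct.lift (LinearMap.mk₂ ℂ (fun e y => outer Idx Idx e y)
    (fun a b c => by simp) (fun c a b => by simp) (fun a b c => by simp) (fun c a b => by simp))

theorem mat_tmul (e y : L1 Idx) : mat (e ⊗ₜ y) = outer Idx Idx e y := by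
  unfold mat; simp

/-- Apply the discontinuous functional in the second variable. -/
noncomputable def ida : LL →ₗ[ℂ] L1 Idx :=
  TensorProduct.lift (LinearMap.mk₂ ℂ (fun e y => aL y • e)
    (fun a b c => smul_add _ _ _) (fun c a b => smul_comm _ _ _)
    (fun a b c => by simp [add_smul]) (fun c a b => by simp [mul_smul]))

theorem ida_tmul (e y : L1 Idx) : ida (e ⊗ₜ y) = aL y • e := by
  unfold ida; simp

/-- The `i`-th row of a tensor. -/
noncomputable def row (i : Idx) : LL →ₗ[ℂ] L1 Idx :=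
  TensorProduct.lift (LinearMap.mk₂ ℂ (fun e y => e i • y)
    (fun a b c => by simp [add_smul]) (fun c a b => by simp [mul_smul])
    (fun a b c => smul_add _ _ _) (fun c a b => smul_comm _ _ _))

theorem row_tmul (i : Idx) (e y : L1 Idx) : row i (e ⊗ₜ y) = e i • y := by
  unfold row; simp

theorem row_apply (i j : Idx) (t : LL) : row i t j = mat t (i, j) := by
  induction t using TensorProduct.induction_on with
  | zero => simp
  | tmul e y => rw [row_tmul, mat_tmul, outer_apply_apply]; rfl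
  | add a b ha hb => rw [map_add, map_add, add_apply, add_apply, ha, hb]

theorem ida_apply (i : Idx) (t : LL) : ida t i = aL (row i t) := by
  induction t using TensorProduct.induction_on with
  | zero => simp
  | tmul e y => rw [row_tmul, ida_tmul, map_smul, smul_apply, smul_eq_mul, mul_comm]
  | add a b ha hb => rw [map_add, map_add, add_apply, ha, hb, map_add]

theorem ida_eq_zero {t : LL} (h : mat t = 0) : ida t = 0 := by
  apply L1.ext'
  intro i
  rw [ida_apply]
  have : row i t = 0 := by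
    apply L1.ext'
    intro j
    rw [row_apply, h]
    rfl
  rw [this, map_zero]
  rfl

theorem row_finite (t : LL) : ∃ Y : Submodule ℂ (L1 Idx), FiniteDimensional ℂ Y ∧
    ∀ i, row i t ∈ Y := by
  induction t using TensorProduct.induction_on with
  | zero => exact ⟨⊥, inferInstance, fun i => by simp⟩
  | tmul e y =>
    refine ⟨Submodule.span ℂ {y}, inferInstance, fun i => ?_⟩
    rw [row_tmul]
    exact Submodule.smul_mem _ _ (Submodule.mem_span_singleton_self y)
  | add a b ha hb =>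
    obtain ⟨Y, hY, h1⟩ := ha
    obtain ⟨Z, hZ, h2⟩ := hb
    refine ⟨Y ⊔ Z, inferInstance, fun i => ?_⟩
    rw [map_add]
    exact Submodule.add_mem _ (Submodule.mem_sup_left (h1 i)) (Submodule.mem_sup_right (h2 i))

/-- In a finite dimensional subspace coordinates are uniformly small off a finite set. -/
theorem finite_small (Y : Submodule ℂ (L1 Idx)) [FiniteDimensional ℂ Y] :
    ∃ F : Set Idx, F.Finite ∧ ∀ y ∈ Y, ∀ j ∉ F, ‖y j‖ ≤ (1 / 4) * ‖y‖ := by
  classical
  let b := Module.finBasis ℂ Y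
  let n := Module.finrank ℂ Y
  let φ : Y →L[ℂ] (Fin n → ℂ) := LinearMap.toContinuousLinearMap (b.equivFun : Y →ₗ[ℂ] (Fin n → ℂ))
  obtain ⟨C, hC, hφ⟩ := φ.bound
  have hs : Summable (fun j => C * ∑ k : Fin n, ‖(b k : L1 Idx) j‖) :=
    (summable_sum (fun k _ => summable_norm (b k : L1 Idx))).mul_left C
  have hf := hs.tendsto_cofinite_zero
  have h1 : ∀ᶠ j in Filter.cofinite, C * ∑ k : Fin n, ‖(b k : L1 Idx) j‖ < 1 / 4 :=
    hf.eventually_lt_const (by norm_num)
  refine ⟨_, h1, fun y hy j hj => ?_⟩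
  have hj' : C * ∑ k : Fin n, ‖(b k : L1 Idx) j‖ < 1 / 4 := by
    by_contra hcon
    exact hj hcon
  have h2 : y = ∑ k, (b.equivFun ⟨y, hy⟩ k) • (b k : L1 Idx) := by
    have := b.sum_equivFun ⟨y, hy⟩
    have h3 := congrArg (Submodule.subtype Y) this
    rw [map_sum] at h3
    simpa using h3.symm
  have h4 : y j = ∑ k, (b.equivFun ⟨y, hy⟩ k) * (b k : L1 Idx) j := by
    have := congrArg (ev j) h2
    rw [map_sum] at this
    simpa using this
  have h5 : ∀ k, ‖b.equivFun ⟨y, hy⟩ k‖ ≤ C * ‖y‖ := fun k =>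
    (norm_le_pi_norm (φ ⟨y, hy⟩) k).trans (hφ ⟨y, hy⟩)
  calc ‖y j‖ ≤ ∑ k, ‖(b.equivFun ⟨y, hy⟩ k) * (b k : L1 Idx) j‖ := by
        rw [h4]; exact norm_sum_le _ _
    _ ≤ ∑ k, (C * ‖y‖) * ‖(b k : L1 Idx) j‖ := by
        refine Finset.sum_le_sum (fun k _ => ?_)
        rw [norm_mul]
        exact mul_le_mul_of_nonneg_right (h5 k) (norm_nonneg _)
    _ = (C * ∑ k : Fin n, ‖(b k : L1 Idx) j‖) * ‖y‖ := by
        rw [← Finset.mul_sum]; ring
    _ ≤ (1 / 4) * ‖y‖ := mul_le_mul_of_nonneg_right hj'.le (norm_nonneg _)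

/-- Truncation below an index. -/
noncomputable def trunc (i : Idx) : LL →ₗ[ℂ] LL :=
  TensorProduct.map (restr (Set.Iio i) : L1 Idx →ₗ[ℂ] L1 Idx)
    (restr (Set.Iio i) : L1 Idx →ₗ[ℂ] L1 Idx)

theorem trunc_tmul (i : Idx) (e y : L1 Idx) :
    trunc i (e ⊗ₜ y) = restr (Set.Iio i) e ⊗ₜ restr (Set.Iio i) y := by
  unfold trunc
  rw [TensorProduct.map_tmul]
  rfl

theorem mat_trunc_of_lt {i j k : Idx} (hj : j < i) (hk : k < i) (t : LL) :
    mat (trunc i t) (j, k) = mat t (j, k) := by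
  induction t using TensorProduct.induction_on with
  | zero => simp
  | tmul e y =>
    rw [trunc_tmul, mat_tmul, mat_tmul, outer_apply_apply, outer_apply_apply,
      restr_apply_mem hj, restr_apply_mem hk]
  | add a b ha hb => rw [map_add, map_add, map_add, add_apply, add_apply, ha, hb]

theorem mat_trunc_of_not {i j k : Idx} (h : ¬ (j < i ∧ k < i)) (t : LL) :
    mat (trunc i t) (j, k) = 0 := by
  induction t using TensorProduct.induction_on with
  | zero => simp
  | tmul e y =>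
    rw [trunc_tmul, mat_tmul, outer_apply_apply]
    by_cases hj : j < i
    · have hk : k ∉ Set.Iio i := fun hk => h ⟨hj, hk⟩
      rw [restr_apply_notMem hk, mul_zero]
    · have hj' : j ∉ Set.Iio i := hj
      rw [restr_apply_notMem hj', zero_mul]
  | add a b ha hb => rw [map_add, map_add, add_apply, ha, hb, add_zero]

/-- The map `Φ^J`. -/
noncomputable def Ph (J : Set Idx) : LL →ₗ[ℂ] Big :=
  (BJ J : L1 (Idx × Idx) →ₗ[ℂ] Big).comp mat -
    (LinearMap.inr ℂ (L1 ℕ) (L1 ℕ × L1 (Idx × Idx))).comp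
      ((LinearMap.inl ℂ (L1 ℕ) (L1 (Idx × Idx))).comp ((kq : L1 Idx →ₗ[ℂ] L1 ℕ).comp ida))

theorem Ph_apply (J : Set Idx) (t : LL) : Ph J t = BJ J (mat t) - (0, kq (ida t), 0) := rfl

theorem Ph_snd (J : Set Idx) (t : LL) : (Ph J t).2.2 = (BJ J (mat t)).2.2 := by
  rw [Ph_apply]
  simp

theorem Ph_eq_zero {J : Set Idx} {t : LL} (h : mat t = 0) : Ph J t = 0 := by
  rw [Ph_apply, ida_eq_zero h, h]
  simp

theorem Ph_congr {J J' : Set Idx} {t : LL}
    (h : ∀ i, mat t (i, i) ≠ 0 → (i ∈ J ↔ i ∈ J')) : Ph J t = Ph J' t := by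
  rw [Ph_apply, Ph_apply, BJ_congr h]

theorem Ph_single_of_mem {J : Set Idx} {i : Idx} (h : i ∈ J) (hg : Good i) :
    Ph J (single i ⊗ₜ single i) = nvec i := by
  classical
  have h1 : ∀ p, embR (single p) + lift (fam J) 2 (norm_fam J) (diag Idx (single p)) =
    embR (single p) + (if p.1 = p.2 then fam J p.1 else 0) := by
    intro p
    congr 1
    unfold diag
    rw [lift_single]
    split_ifs with hp
    · rw [lift_single]
    · rw [map_zero]
  rw [Ph_apply, mat_tmul, outer_single_single, ida_tmul, BJ_apply, h1, if_pos rfl, aL_node hg.1]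
  have h2 : fam J i = nvec i - embR (single (i, i)) := if_pos ⟨h, hg⟩
  simp only [h2, zero_smul, map_zero]
  have h3 : ((0 : L1 ℕ), (0 : L1 ℕ), (0 : L1 (Idx × Idx))) = 0 := rfl
  rw [h3, sub_zero]
  abel

end H80
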